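import Pool.Agent.Lib.MP_d9bae3_nt.NA.NBase

/-!
# Module SNA-SEx: the finite set `S` and the generators

* `exists_goodS`: the class group is finite; choose for every class an integral ideal `J`, and let `S` be the set of all primes which divide `e` or one of the
  chosen `J` (`Ideal.finite_factors` or similar).  For `I ≠ 0` take the chosen `J` in the class inverse to the class of `I` (`ClassGroup.mk0_eq_one_iff`).
* `exists_gen`: `g I = β` with `I J = (β)`, `J` prime to `q` (for `q ∉ S`): `β ∈ q^k ↔ I J ≤ q^k ↔ I ≤ q^k` (`Ideal.IsPrime.mul_le`/coprimality, or multiplicities).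
-/

namespace StarkR

open NumberField IsDedekindDomain

variable {F : Type} [Field F] [NumberField F]

theorem exists_goodS (F : Type) [Field F] [NumberField F] {e : ℕ} (he : 0 < e) : ∃ S : Finset (Prm F), GoodS e S := by
  classical
  have hsurj : ∀ C : ClassGroup (𝓞 F), ∃ J : nonZeroDivisors (Ideal (𝓞 F)), ClassGroup.mk0 J = C :=
    fun C => ClassGroup.mk0_surjective C
  choose J hJ using hsurj
  have hJ0 : ∀ C, (J C : Ideal (𝓞 F)) ≠ 0 := fun C => nonZeroDivisors.ne_zero (J C).2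
  have hfin : ∀ C, {q : Prm F | q.asIdeal ∣ (J C : Ideal (𝓞 F))}.Finite := fun C => Ideal.finite_factors (hJ0 C)
  have he0 : (Ideal.span {(e : 𝓞 F)} : Ideal (𝓞 F)) ≠ 0 := by
    rw [Ne, Submodule.zero_eq_bot, Ideal.span_singleton_eq_bot]
    exact_mod_cast he.ne'
  have hfe : {q : Prm F | q.asIdeal ∣ (Ideal.span {(e : 𝓞 F)} : Ideal (𝓞 F))}.Finite := Ideal.finite_factors he0
  have hall : ({q : Prm F | q.asIdeal ∣ (Ideal.span {(e : 𝓞 F)} : Ideal (𝓞 F))} ∪
      ⋃ C : ClassGroup (𝓞 F), {q : Prm F | q.asIdeal ∣ (J C : Ideal (𝓞 F))}).Finite :=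
    hfe.union (Set.finite_iUnion hfin)
  refine ⟨hall.toFinset, fun q hq => ?_, fun I hI => ?_⟩
  · rw [Set.Finite.mem_toFinset]
    refine Or.inl ?_
    rw [Set.mem_setOf_eq, Ideal.dvd_iff_le, Ideal.span_singleton_le_iff_mem]
    exact hq
  · have hI' : I ∈ nonZeroDivisors (Ideal (𝓞 F)) := mem_nonZeroDivisors_of_ne_zero hI
    set C : ClassGroup (𝓞 F) := (ClassGroup.mk0 ⟨I, hI'⟩)⁻¹ with hC
    refine ⟨J C, hJ0 C, fun q hq => ?_, ?_⟩
    · rw [Set.Finite.mem_toFinset]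
      refine Or.inr (Set.mem_iUnion.2 ⟨C, ?_⟩)
      rw [Set.mem_setOf_eq, Ideal.dvd_iff_le]
      exact hq
    · have h1 : ClassGroup.mk0 (⟨I, hI'⟩ * J C) = 1 := by
        rw [map_mul, hJ, hC, mul_inv_cancel]
      rw [ClassGroup.mk0_eq_one_iff] at h1
      obtain ⟨β, hβ⟩ := h1.principal
      exact ⟨β, hβ⟩

theorem exists_gen {e : ℕ} {S : Finset (Prm F)} (hS : GoodS e S) : ∃ g : Ideal (𝓞 F) → 𝓞 F, IsGen S g := by
  classical
  have h : ∀ I : Ideal (𝓞 F), ∃ β : 𝓞 F, I ≠ ⊥ → β ≠ 0 ∧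
      ∀ q : Prm F, q ∉ S → ∀ k : ℕ, β ∈ q.asIdeal ^ k ↔ I ≤ q.asIdeal ^ k := by
    intro I
    by_cases hI : I = ⊥
    · exact ⟨0, fun h => absurd hI h⟩
    obtain ⟨J, hJ, hJS, β, hβ⟩ := hS.cls I hI
    refine ⟨β, fun _ => ⟨?_, fun q hq k => ?_⟩⟩
    · rintro rfl
      rw [Ideal.span_singleton_eq_bot.2 rfl] at hβ
      rcases Ideal.mul_eq_bot.1 hβ with h | h
      · exact hI h
      · exact hJ h
    · have hmax : q.asIdeal.IsMaximal := q.isMaximal
      have hcop : IsCoprime (q.asIdeal ^ k) J := by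
        refine IsCoprime.pow_left ?_
        rw [Ideal.isCoprime_iff_sup_eq]
        have hnle : ¬ J ≤ q.asIdeal := fun h => hq (hJS q h)
        exact hmax.1.2 _ (lt_of_le_of_ne le_sup_left fun h => hnle (h ▸ le_sup_right))
      rw [← Ideal.span_singleton_le_iff_mem, ← hβ, ← Ideal.dvd_iff_le, ← Ideal.dvd_iff_le]
      exact ⟨fun h => hcop.dvd_of_dvd_mul_right h, fun h => h.mul_right J⟩
  choose g hg using h
  exact ⟨g, hg⟩

end StarkR
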