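import Pool.Agent.Lib.MP_d9bae3_nt.NA.NBase

/-!
# Module SNA-Sel: units outside `S` modulo `e`-th powers are finite in number

Plan.  `h` = the class number.  For `x` a unit outside `S`, `(x) = ∏_{q ∈ S} q^(k_q)`.  Call the residues `k_q mod e h`.  If `x, x'` have the same residues,
then (say after multiplying with powers) `(x) ∏ q^(e h t_q) = (x') ∏ q^(e h t'_q)` with `t, t' ≥ 0`; `q^h = (s_q)` is principal (`s_q` a unit outside `S`), so
`x (∏ s_q^(t_q))^e = u x' (∏ s_q^(t'_q))^e` with a unit `u` of `𝓞 F`.  Units modulo `e`-th powers are finite (Dirichlet: the unit group is finitely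
generated; Mathlib `NumberField.Units` finite rank, or `Subgroup`/`Module.Finite ℤ (Additive (𝓞 F)ˣ)` and finiteness of `A / e A` for a finitely generated
abelian group).  Take for `E` one `x` for every residue vector times representatives of the units.
-/

namespace StarkR

open NumberField IsDedekindDomain

variable {F : Type} [Field F] [NumberField F]

private theorem sel_mul {S : Finset (Prm F)} {x y : 𝓞 F} (hx : IsSU S x) (hy : IsSU S y) : IsSU S (x * y) := by
  refine ⟨mul_ne_zero hx.1 hy.1, fun q hq h => ?_⟩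
  rcases q.isPrime.mem_or_mem h with h | h
  · exact hx.2 q hq h
  · exact hy.2 q hq h

private theorem sel_unit {S : Finset (Prm F)} (u : (𝓞 F)ˣ) : IsSU S (u : 𝓞 F) := by
  refine ⟨u.ne_zero, fun q _ h => ?_⟩
  exact q.isPrime.ne_top (Ideal.eq_top_of_isUnit_mem _ h u.isUnit)

private theorem sel_pow {S : Finset (Prm F)} {x : 𝓞 F} (hx : IsSU S x) (k : ℕ) : IsSU S (x ^ k) := by
  refine ⟨pow_ne_zero _ hx.1, fun q hq h => hx.2 q hq (q.isPrime.mem_of_pow_mem _ h)⟩

private theorem sel_prod {S : Finset (Prm F)} {α : Type} (A : Finset α) {f : α → 𝓞 F} (hf : ∀ a ∈ A, IsSU S (f a)) :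
    IsSU S (∏ a ∈ A, f a) := by
  refine ⟨Finset.prod_ne_zero_iff.2 fun a ha => (hf a ha).1, fun q hq h => ?_⟩
  obtain ⟨a, ha, h⟩ := q.isPrime.prod_mem_iff.1 h
  exact (hf a ha).2 q hq h

/-- The units of the ring of integers modulo `e`-th powers are finite in number. -/
private theorem sel_units {e : ℕ} (he : 0 < e) : ∃ U : Finset (𝓞 F)ˣ, ∀ u : (𝓞 F)ˣ, ∃ u₀ ∈ U, ∃ v : (𝓞 F)ˣ, u = u₀ * v ^ e := by
  classical
  have hfg : Group.FG (𝓞 F)ˣ := Group.fg_iff_monoid_fg.2 inferInstance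
  set P : Subgroup (𝓞 F)ˣ := (powMonoidHom e : (𝓞 F)ˣ →* (𝓞 F)ˣ).range with hP
  have htor : IsMulTorsion ((𝓞 F)ˣ ⧸ P) := by
    intro g
    induction g using QuotientGroup.induction_on with
    | H x =>
      rw [isOfFinOrder_iff_pow_eq_one]
      refine ⟨e, he, ?_⟩
      rw [← QuotientGroup.mk_pow, QuotientGroup.eq_one_iff]
      exact ⟨x, rfl⟩
  have hfin : Finite ((𝓞 F)ˣ ⧸ P) := CommGroup.finite_of_fg_isMulTorsion _ htor
  have : Fintype ((𝓞 F)ˣ ⧸ P) := Fintype.ofFinite _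
  refine ⟨Finset.univ.image fun g : (𝓞 F)ˣ ⧸ P => g.out, fun u => ?_⟩
  refine ⟨(QuotientGroup.mk u : (𝓞 F)ˣ ⧸ P).out, Finset.mem_image_of_mem _ (Finset.mem_univ _), ?_⟩
  have h1 : (QuotientGroup.mk (QuotientGroup.mk u : (𝓞 F)ˣ ⧸ P).out : (𝓞 F)ˣ ⧸ P) = QuotientGroup.mk u :=
    Quotient.out_eq _
  rw [QuotientGroup.eq] at h1
  obtain ⟨v, hv⟩ := h1
  refine ⟨v, ?_⟩
  have h2 : v ^ e = (QuotientGroup.mk u : (𝓞 F)ˣ ⧸ P).out⁻¹ * u := hv
  rw [h2, mul_inv_cancel_left]

/-- The multiplicity of `q` in `x`. -/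
private noncomputable def selk (q : Prm F) (x : 𝓞 F) : ℕ :=
  (Associates.mk q.asIdeal).count (Associates.mk (Ideal.span {x})).factors

private theorem sel_span {S : Finset (Prm F)} {x : 𝓞 F} (hx : IsSU S x) :
    Ideal.span {x} = ∏ q ∈ S, q.asIdeal ^ selk q x := by
  classical
  have h0 : (Ideal.span {x} : Ideal (𝓞 F)) ≠ 0 := by
    rw [Ne, Ideal.zero_eq_bot, Ideal.span_singleton_eq_bot]
    exact hx.1
  rw [← Ideal.finprod_heightOneSpectrum_factorization h0]
  rw [finprod_eq_prod_of_mulSupport_subset (s := S)]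
  · exact Finset.prod_congr rfl fun q _ => rfl
  · intro q hq
    by_contra hS
    have hS' : q ∉ S := hS
    apply hq
    change q.asIdeal ^ (Associates.mk q.asIdeal).count (Associates.mk (Ideal.span {x})).factors = 1
    have h1 : (Associates.mk q.asIdeal).count (Associates.mk (Ideal.span {x})).factors = 0 := by
      by_contra h
      have h2 := (Associates.count_ne_zero_iff_dvd h0 q.irreducible).1 h
      have h3 : Ideal.span {x} ≤ q.asIdeal := Ideal.le_of_dvd h2
      exact hx.2 q hS' (h3 (Ideal.mem_span_singleton_self x))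
    rw [h1, pow_zero]

/-- A power of every prime in `S` is generated by a unit outside `S`. -/
private theorem sel_gen (S : Finset (Prm F)) : ∃ h : ℕ, 0 < h ∧ ∃ s : Prm F → 𝓞 F, ∀ q ∈ S, IsSU S (s q) ∧
    Ideal.span {s q} = q.asIdeal ^ h := by
  classical
  refine ⟨Fintype.card (ClassGroup (𝓞 F)), Fintype.card_pos, ?_⟩
  have h1 : ∀ q : Prm F, ∃ s : 𝓞 F, Ideal.span {s} = q.asIdeal ^ Fintype.card (ClassGroup (𝓞 F)) := by
    intro q
    have hq : q.asIdeal ∈ nonZeroDivisors (Ideal (𝓞 F)) := mem_nonZeroDivisors_of_ne_zero q.ne_bot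
    have h2 : ClassGroup.mk0 (⟨q.asIdeal, hq⟩ ^ Fintype.card (ClassGroup (𝓞 F)) : nonZeroDivisors (Ideal (𝓞 F))) = 1 := by
      rw [map_pow, pow_card_eq_one]
    have h3 : (q.asIdeal ^ Fintype.card (ClassGroup (𝓞 F))).IsPrincipal :=
      (ClassGroup.mk0_eq_one_iff (pow_mem hq _)).1 h2
    obtain ⟨s, hs⟩ := h3.principal
    exact ⟨s, hs.symm⟩
  choose s hs using h1
  refine ⟨s, fun q hq => ⟨⟨?_, fun q' hq' h => ?_⟩, hs q⟩⟩
  · intro h
    have h2 := hs q
    rw [h, Ideal.span_singleton_eq_bot.2 rfl] at h2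
    exact pow_ne_zero _ q.ne_bot h2.symm
  · have h2 : q.asIdeal ^ Fintype.card (ClassGroup (𝓞 F)) ≤ q'.asIdeal := by
      rw [← hs q, Ideal.span_singleton_le_iff_mem]
      exact h
    have h3 : q.asIdeal ≤ q'.asIdeal := q'.isPrime.le_of_pow_le h2
    have h4 : q.asIdeal = q'.asIdeal := q.isMaximal.eq_of_le q'.isPrime.ne_top h3
    exact hq' (by rwa [← HeightOneSpectrum.ext h4])

theorem sel_finite {e : ℕ} (he : 0 < e) (S : Finset (Prm F)) : ∃ E : Finset (𝓞 F), (∀ ε ∈ E, IsSU S ε) ∧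
    ∀ x : 𝓞 F, IsSU S x → ∃ ε ∈ E, ∃ z w : 𝓞 F, IsSU S z ∧ IsSU S w ∧ x * z ^ e = ε * w ^ e := by
  classical
  obtain ⟨h, hh, s, hs⟩ := sel_gen S
  obtain ⟨U, hU⟩ := sel_units (F := F) he
  have hN : 0 < e * h := Nat.mul_pos he hh
  -- the residues
  set c : 𝓞 F → (S → Fin (e * h)) := fun x q => ⟨selk q.1 x % (e * h), Nat.mod_lt _ hN⟩ with hc
  set R : (S → Fin (e * h)) → 𝓞 F := fun ρ => if H : ∃ x, IsSU S x ∧ c x = ρ then H.choose else 1 with hR
  have h1S : IsSU S (1 : 𝓞 F) := by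
    have := sel_unit (S := S) (1 : (𝓞 F)ˣ)
    simpa using this
  have hRS : ∀ ρ, IsSU S (R ρ) := by
    intro ρ
    by_cases H : ∃ x, IsSU S x ∧ c x = ρ
    · have : R ρ = H.choose := dif_pos H
      rw [this]
      exact H.choose_spec.1
    · have : R ρ = 1 := dif_neg H
      rw [this]
      exact h1S
  refine ⟨(Finset.univ ×ˢ U).image fun p => R p.1 * (p.2 : 𝓞 F), ?_, ?_⟩
  · intro ε hε
    obtain ⟨p, _, rfl⟩ := Finset.mem_image.1 hε
    exact sel_mul (hRS _) (sel_unit _)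
  · intro x hx
    have H : ∃ y, IsSU S y ∧ c y = c x := ⟨x, hx, rfl⟩
    have hRx : R (c x) = H.choose := dif_pos H
    set y : 𝓞 F := R (c x) with hy
    have hyS : IsSU S y := hRS _
    have hyc : c y = c x := by
      rw [hRx]
      exact H.choose_spec.2
    -- exponents
    have ht : ∀ q : Prm F, ∃ t t' : ℕ, q ∈ S → selk q x + h * (e * t) = selk q y + h * (e * t') := by
      intro q
      by_cases hq : q ∈ S
      · have h1 : selk q y % (e * h) = selk q x % (e * h) := congrArg Fin.val (congrFun hyc ⟨q, hq⟩)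
        refine ⟨selk q y / (e * h), selk q x / (e * h), fun _ => ?_⟩
        have h2 := Nat.mod_add_div (selk q y) (e * h)
        have h3 := Nat.mod_add_div (selk q x) (e * h)
        have h4 : h * (e * (selk q y / (e * h))) = e * h * (selk q y / (e * h)) := by ring
        have h5 : h * (e * (selk q x / (e * h))) = e * h * (selk q x / (e * h)) := by ring
        omega
      · exact ⟨0, 0, fun h => absurd h hq⟩
    choose t t' htt using ht
    set z : 𝓞 F := ∏ q ∈ S, s q ^ t q with hz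
    set w : 𝓞 F := ∏ q ∈ S, s q ^ t' q with hw
    have hzS : IsSU S z := sel_prod S fun q hq => sel_pow (hs q hq).1 _
    have hwS : IsSU S w := sel_prod S fun q hq => sel_pow (hs q hq).1 _
    have hspan : ∀ (a : 𝓞 F) (r : Prm F → ℕ), IsSU S a → Ideal.span {a * (∏ q ∈ S, s q ^ r q) ^ e} =
        ∏ q ∈ S, q.asIdeal ^ (selk q a + h * (e * r q)) := by
      intro a r ha
      rw [← Ideal.span_singleton_mul_span_singleton, sel_span ha, ← Finset.prod_pow, ← Ideal.prod_span_singleton,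
        ← Finset.prod_mul_distrib]
      refine Finset.prod_congr rfl fun q hq => ?_
      rw [← pow_mul, ← Ideal.span_singleton_pow, (hs q hq).2, ← pow_mul, ← pow_add, mul_comm (r q) e]
    have hEq : Ideal.span {x * z ^ e} = Ideal.span {y * w ^ e} := by
      rw [hspan x t hx, hspan y t' hyS]
      exact Finset.prod_congr rfl fun q hq => by rw [htt q hq]
    rw [Ideal.span_singleton_eq_span_singleton] at hEq
    obtain ⟨u, hu⟩ := hEq.symm
    obtain ⟨u₀, hu₀, v, hv⟩ := hU u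
    refine ⟨y * (u₀ : 𝓞 F), Finset.mem_image.2 ⟨(c x, u₀), Finset.mem_product.2 ⟨Finset.mem_univ _, hu₀⟩, rfl⟩, z,
      w * (v : 𝓞 F), hzS, sel_mul hwS (sel_unit v), ?_⟩
    rw [← hu, hv]
    push_cast
    ring

end StarkR
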