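import Pool.Agent.Lib.MP_d9bae3_nt.NA.NBase

/-!
# Module SNA-OrdQ: multiplicities

`ordQ q x` is the exponent of `q` in the ideal `(x)`.  Plan: `HeightOneSpectrum.intValuation` is `exp (- ordQ q x)` for `x ≠ 0` (`intValuation_if_neg`), it is multiplicative, and
`intValuation_le_pow_iff_mem`: `x ∈ q^k ↔ intValuation x ≤ exp (-k)`.
* `ordQ_gen`: from `IsGen` and `mem_pow_iff`.
* `pow_unit`: let `c = a b^(N-1)`; its multiplicities outside `S` are divisible by `N`.  `(c) = 𝔰 𝔡^N` with `𝔡` prime to `S` and `𝔰` with prime divisors in `S`; `𝔡 J = (δ)` with `J` as in `GoodS.cls`; then `c` and `δ^N` have the same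
  multiplicities outside `S`, so `c u = δ^N u'` with units `u, u'` outside `S` in `𝓞 F` (see the header of NDens; e.g. multiply `c` by a suitable generator of `(∏ p)^M`), that is `c u^N = δ^N (u' u^(N-1))`.  By `hE2` for the unit
  `x = u' u^(N-1)`: `x z^e = ε w^e`; so `a (…)^N = ε b (…)^N`, since `a b^(N-1) = c` gives `a b^N = c b`, and `e = N (e/N)`.
-/

namespace StarkR

open NumberField IsDedekindDomain

variable {F : Type} [Field F] [NumberField F]

/-- the exponent of the prime `q` in `(x)` -/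
noncomputable def ordQ (q : Prm F) (x : 𝓞 F) : ℕ :=
  open Classical in (Associates.mk q.asIdeal).count (Associates.mk (Ideal.span {x})).factors

/-- the exponent of the prime `q` in the ideal `I` -/
private noncomputable def ci (q : Prm F) (I : Ideal (𝓞 F)) : ℕ :=
  open Classical in (Associates.mk q.asIdeal).count (Associates.mk I).factors

private theorem ordQ_eq (q : Prm F) (x : 𝓞 F) : ordQ q x = ci q (Ideal.span {x}) := rfl

private theorem span_ne {x : 𝓞 F} (hx : x ≠ 0) : Ideal.span {x} ≠ ⊥ := by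
  rwa [ne_eq, Ideal.span_singleton_eq_bot]

private theorem ci_mul (q : Prm F) {I J : Ideal (𝓞 F)} (hI : I ≠ ⊥) (hJ : J ≠ ⊥) : ci q (I * J) = ci q I + ci q J := by
  classical
  unfold ci
  rw [← Associates.mk_mul_mk, Associates.count_mul (Associates.mk_ne_zero.mpr hI) (Associates.mk_ne_zero.mpr hJ)
    q.associates_irreducible]

private theorem ci_pow (q : Prm F) {I : Ideal (𝓞 F)} (hI : I ≠ ⊥) (k : ℕ) : ci q (I ^ k) = k * ci q I := by
  classical
  unfold ci
  rw [Associates.mk_pow, Associates.count_pow (Associates.mk_ne_zero.mpr hI) q.associates_irreducible]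

private theorem ci_self (q : Prm F) : ci q q.asIdeal = 1 := by
  classical
  unfold ci
  exact Associates.count_self q.associates_irreducible

private theorem ci_ne {p q : Prm F} (h : p ≠ q) : ci q p.asIdeal = 0 := by
  classical
  unfold ci
  refine Associates.count_eq_zero_of_ne q.associates_irreducible p.associates_irreducible ?_
  intro h2
  rw [Associates.mk_eq_mk_iff_associated, associated_iff_eq] at h2
  exact h (HeightOneSpectrum.ext h2.symm)

private theorem le_pow_iff (q : Prm F) {I : Ideal (𝓞 F)} (hI : I ≠ ⊥) (k : ℕ) : I ≤ q.asIdeal ^ k ↔ k ≤ ci q I := by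
  classical
  unfold ci
  rw [← Associates.prime_pow_dvd_iff_le (Associates.mk_ne_zero.mpr hI) q.associates_irreducible, ← Associates.mk_pow,
    Associates.mk_le_mk_iff_dvd, Ideal.dvd_iff_le]

private theorem prod_ne (A : Finset (Prm F)) (f : Prm F → ℕ) : ∏ p ∈ A, p.asIdeal ^ f p ≠ ⊥ := by
  rw [← Ideal.zero_eq_bot]
  exact Finset.prod_ne_zero_iff.mpr fun p _ => pow_ne_zero _ p.ne_bot

private theorem ci_prod (q : Prm F) (A : Finset (Prm F)) (f : Prm F → ℕ) (h : ∀ p, p ∉ A → f p = 0) :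
    ci q (∏ p ∈ A, p.asIdeal ^ f p) = f q := by
  classical
  have key : ∀ B : Finset (Prm F), ci q (∏ p ∈ B, p.asIdeal ^ f p) = if q ∈ B then f q else 0 := by
    intro B
    induction B using Finset.induction_on with
    | empty =>
      have h1 := ci_mul q (I := (1 : Ideal (𝓞 F))) (J := 1) (by simp) (by simp)
      rw [mul_one] at h1
      simp only [Finset.prod_empty, Finset.notMem_empty, if_false]
      omega
    | insert a B ha ih =>
      rw [Finset.prod_insert ha, ci_mul q (pow_ne_zero _ a.ne_bot) (prod_ne B f), ih, ci_pow q a.ne_bot]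
      rcases eq_or_ne a q with rfl | hne
      · rw [ci_self, if_neg ha, if_pos (Finset.mem_insert_self _ _)]
        ring
      · rw [ci_ne hne]
        simp [Finset.mem_insert, hne.symm]
  rw [key]
  split_ifs with hq
  · rfl
  · exact (h q hq).symm

theorem mem_pow_iff (q : Prm F) {x : 𝓞 F} (hx : x ≠ 0) (k : ℕ) : x ∈ q.asIdeal ^ k ↔ k ≤ ordQ q x := by
  rw [ordQ_eq, ← le_pow_iff q (span_ne hx), Ideal.span_singleton_le_iff_mem]

theorem ordQ_mul (q : Prm F) {x y : 𝓞 F} (hx : x ≠ 0) (hy : y ≠ 0) : ordQ q (x * y) = ordQ q x + ordQ q y := by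
  rw [ordQ_eq, ordQ_eq, ordQ_eq, ← Ideal.span_singleton_mul_span_singleton, ci_mul q (span_ne hx) (span_ne hy)]

theorem ordQ_pow (q : Prm F) {x : 𝓞 F} (hx : x ≠ 0) (k : ℕ) : ordQ q (x ^ k) = k * ordQ q x := by
  rw [ordQ_eq, ordQ_eq, ← Ideal.span_singleton_pow, ci_pow q (span_ne hx)]

theorem ordQ_finite {x : 𝓞 F} (hx : x ≠ 0) : {q : Prm F | ordQ q x ≠ 0}.Finite := by
  refine (Ideal.finite_factors (span_ne hx)).subset ?_
  intro q hq
  have h1 : x ∈ q.asIdeal ^ 1 := (mem_pow_iff q hx 1).mpr (Nat.one_le_iff_ne_zero.mpr hq)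
  rw [pow_one] at h1
  show q.asIdeal ∣ Ideal.span {x}
  rwa [Ideal.dvd_span_singleton]

private theorem notMem_iff (q : Prm F) {x : 𝓞 F} (hx : x ≠ 0) : x ∉ q.asIdeal ↔ ordQ q x = 0 := by
  have h1 := mem_pow_iff q hx 1
  rw [pow_one] at h1
  rw [h1]
  omega

/-- Divisibility is tested by the multiplicities. -/
private theorem dvd_of_ordQ {x y : 𝓞 F} (hx : x ≠ 0) (hy : y ≠ 0) (h : ∀ q : Prm F, ordQ q x ≤ ordQ q y) : x ∣ y := by
  have hx' : (algebraMap (𝓞 F) F x) ≠ 0 := by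
    rwa [ne_eq, FaithfulSMul.algebraMap_eq_zero_iff]
  have h1 : algebraMap (𝓞 F) F y / algebraMap (𝓞 F) F x ∈ (algebraMap (𝓞 F) F).range := by
    refine HeightOneSpectrum.mem_integers_of_valuation_le_one F _ fun v => ?_
    rw [map_div₀, HeightOneSpectrum.valuation_of_algebraMap, HeightOneSpectrum.valuation_of_algebraMap]
    have h2 : v.intValuation y ≤ v.intValuation x := by
      rw [v.intValuation_if_neg hx, v.intValuation_if_neg hy, WithZero.exp_le_exp, neg_le_neg_iff, Int.ofNat_le]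
      exact h v
    have h3 : v.intValuation x ≠ 0 := HeightOneSpectrum.intValuation_ne_zero v x hx
    exact div_le_one_of_le₀ h2 zero_le
  obtain ⟨z, hz⟩ := h1
  refine ⟨z, ?_⟩
  apply FaithfulSMul.algebraMap_injective (𝓞 F) F
  rw [map_mul, hz]
  field_simp

private theorem su_mul {S : Finset (Prm F)} {x y : 𝓞 F} (hx : IsSU S x) (hy : IsSU S y) : IsSU S (x * y) := by
  refine ⟨mul_ne_zero hx.1 hy.1, fun q hq h => ?_⟩
  rcases q.isPrime.mem_or_mem h with h | h
  · exact hx.2 q hq h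
  · exact hy.2 q hq h

private theorem su_one {S : Finset (Prm F)} : IsSU S (1 : 𝓞 F) :=
  ⟨one_ne_zero, fun q _ h => q.isPrime.ne_top ((Ideal.eq_top_iff_one _).mpr h)⟩

private theorem su_pow {S : Finset (Prm F)} {x : 𝓞 F} (hx : IsSU S x) (k : ℕ) : IsSU S (x ^ k) := by
  induction k with
  | zero => rw [pow_zero]; exact su_one
  | succ k ih => rw [pow_succ]; exact su_mul ih hx

/-- For every ideal `I ≠ 0` there is an element with the same multiplicities outside `S` which is in `I`. -/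
private theorem exists_gen {e : ℕ} {S : Finset (Prm F)} (hS : GoodS e S) {I : Ideal (𝓞 F)} (hI : I ≠ ⊥) :
    ∃ β : 𝓞 F, β ≠ 0 ∧ β ∈ I ∧ ∀ q : Prm F, q ∉ S → ordQ q β = ci q I := by
  obtain ⟨J, hJ0, hJ, β, hβ⟩ := hS.cls I hI
  have h0 : I * J ≠ ⊥ := by
    rw [← Ideal.zero_eq_bot] at hI hJ0 ⊢
    exact mul_ne_zero hI hJ0
  have hβ0 : β ≠ 0 := by
    rintro rfl
    rw [Ideal.span_singleton_eq_bot.mpr rfl] at hβ
    exact h0 hβ
  refine ⟨β, hβ0, ?_, fun q hq => ?_⟩
  · have h1 : Ideal.span {β} ≤ I := hβ ▸ Ideal.mul_le_left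
    exact h1 (Ideal.mem_span_singleton_self β)
  · rw [ordQ_eq, ← hβ, ci_mul q hI hJ0]
    have h2 : ¬ J ≤ q.asIdeal ^ 1 := by
      rw [pow_one]
      exact fun h => hq (hJ q h)
    rw [le_pow_iff q hJ0] at h2
    omega

/-- A unit outside `S` which is highly divisible at `S`. -/
private theorem exists_high {e : ℕ} {S : Finset (Prm F)} (hS : GoodS e S) (M : ℕ) :
    ∃ t : 𝓞 F, IsSU S t ∧ ∀ p ∈ S, M ≤ ordQ p t := by
  classical
  set f : Prm F → ℕ := fun p => if p ∈ S then M else 0 with hf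
  obtain ⟨t, ht0, htI, ht⟩ := exists_gen hS (prod_ne S f)
  have hc : ∀ q, ci q (∏ p ∈ S, p.asIdeal ^ f p) = f q := fun q => ci_prod q S f fun p hp => if_neg hp
  refine ⟨t, ⟨ht0, fun q hq => ?_⟩, fun p hp => ?_⟩
  · rw [notMem_iff q ht0, ht q hq, hc, hf]
    exact if_neg hq
  · rw [← mem_pow_iff p ht0]
    have h1 : (∏ p ∈ S, p.asIdeal ^ f p) ≤ p.asIdeal ^ M := by
      rw [le_pow_iff p (prod_ne S f), hc, hf]
      exact (if_pos hp).ge
    exact h1 htI

/-- Elements with the same multiplicities outside `S` differ by units outside `S`. -/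
private theorem exists_units {e : ℕ} {S : Finset (Prm F)} (hS : GoodS e S) {c d : 𝓞 F} (hc : c ≠ 0) (hd : d ≠ 0)
    (h : ∀ q : Prm F, q ∉ S → ordQ q c = ordQ q d) : ∃ u u' : 𝓞 F, IsSU S u ∧ IsSU S u' ∧ c * u = d * u' := by
  classical
  obtain ⟨u, hu, hu2⟩ := exists_high hS (S.sup fun p => ordQ p d)
  have h1 : d ∣ c * u := by
    refine dvd_of_ordQ hd (mul_ne_zero hc hu.1) fun q => ?_
    rw [ordQ_mul q hc hu.1]
    by_cases hq : q ∈ S
    · have h2 : ordQ q d ≤ S.sup fun p => ordQ p d := Finset.le_sup (f := fun p => ordQ p d) hq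
      have h3 := hu2 q hq
      omega
    · rw [h q hq]
      omega
  obtain ⟨u', hu'⟩ := h1
  have hu0 : u' ≠ 0 := by
    rintro rfl
    rw [mul_zero] at hu'
    exact mul_ne_zero hc hu.1 hu'
  refine ⟨u, u', hu, ⟨hu0, fun q hq => ?_⟩, hu'⟩
  have h2 := congrArg (ordQ q) hu'
  rw [ordQ_mul q hc hu.1, ordQ_mul q hd hu0, h q hq, (notMem_iff q hu.1).mp (hu.2 q hq)] at h2
  rw [notMem_iff q hu0]
  omega

theorem pow_unit {e : ℕ} (he : 0 < e) {S : Finset (Prm F)} (hS : GoodS e S) {E : Finset (𝓞 F)} (hE1 : ∀ ε ∈ E, IsSU S ε)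
    (hE2 : ∀ x : 𝓞 F, IsSU S x → ∃ ε ∈ E, ∃ z w : 𝓞 F, IsSU S z ∧ IsSU S w ∧ x * z ^ e = ε * w ^ e)
    {N : ℕ} (hN0 : 0 < N) (hN : N ∣ e) {a b : 𝓞 F} (ha : a ≠ 0) (hb : b ≠ 0)
    (h : ∀ q : Prm F, q ∉ S → ordQ q a % N = ordQ q b % N) :
    ∃ ε ∈ E, ∃ y z : 𝓞 F, y ≠ 0 ∧ z ≠ 0 ∧ a * y ^ N = ε * b * z ^ N := by
  classical
  obtain ⟨n, rfl⟩ : ∃ n, N = n + 1 := ⟨N - 1, by omega⟩
  set c : 𝓞 F := a * b ^ n with hc
  have hc0 : c ≠ 0 := mul_ne_zero ha (pow_ne_zero _ hb)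
  have hcq : ∀ q : Prm F, q ∉ S → (n + 1) ∣ ordQ q c := by
    intro q hq
    rw [hc, ordQ_mul q ha (pow_ne_zero _ hb), ordQ_pow q hb]
    have h1 : ordQ q a ≡ ordQ q b [MOD (n + 1)] := h q hq
    have h2 : ordQ q a + n * ordQ q b ≡ ordQ q b + n * ordQ q b [MOD (n + 1)] := h1.add_right _
    have h3 : ordQ q b + n * ordQ q b = (n + 1) * ordQ q b := by ring
    rw [h3] at h2
    exact (Nat.modEq_zero_iff_dvd.mp (h2.trans (Nat.modEq_zero_iff_dvd.mpr (dvd_mul_right _ _))))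
  set A : Finset (Prm F) := (ordQ_finite hc0).toFinset with hA
  set f : Prm F → ℕ := fun q => ordQ q c / (n + 1) with hf
  have hfA : ∀ p, p ∉ A → f p = 0 := by
    intro p hp
    have h1 : ordQ p c = 0 := by
      by_contra h2
      exact hp ((Set.Finite.mem_toFinset _).mpr h2)
    rw [hf]
    simp only [h1, Nat.zero_div]
  obtain ⟨δ, hδ0, -, hδ⟩ := exists_gen hS (prod_ne A f)
  have hord : ∀ q : Prm F, q ∉ S → ordQ q c = ordQ q (δ ^ (n + 1)) := by
    intro q hq
    rw [ordQ_pow q hδ0, hδ q hq, ci_prod q A f hfA, hf]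
    exact (Nat.mul_div_cancel' (hcq q hq)).symm
  obtain ⟨u, u', hu, hu', huu⟩ := exists_units hS hc0 (pow_ne_zero _ hδ0) hord
  obtain ⟨ε, hε, z, w, hz, hw, hzw⟩ := hE2 (u' * u ^ n) (su_mul hu' (su_pow hu n))
  obtain ⟨m, rfl⟩ := hN
  refine ⟨ε, hε, b * u * z ^ m, δ * w ^ m, mul_ne_zero (mul_ne_zero hb hu.1) (pow_ne_zero _ hz.1),
    mul_ne_zero hδ0 (pow_ne_zero _ hw.1), ?_⟩
  have e1 : a * (b * u * z ^ m) ^ (n + 1) = (c * u) * b * (u ^ n * z ^ ((n + 1) * m)) := by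
    rw [hc]
    ring
  have e2 : ε * b * (δ * w ^ m) ^ (n + 1) = δ ^ (n + 1) * b * (ε * w ^ ((n + 1) * m)) := by
    ring
  rw [e1, e2, ← hzw, huu]
  ring

end StarkR
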