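import Pool.Agent.Lib.MP_d9bae3_nt.NA.NDens
import Pool.Agent.Lib.MP_d9bae3_nt.SK.Dens

/-!
# Module SNA-CDens: special densities

Plan.  `dens_R` with `R q` the nonzero classes (`cdens`: `¬ I ≤ q ↔ g I ∉ q ↔ mk (g I) ≠ 0`; `N(q) - 1` classes), or the nonzero `e`-th powers (`rdens`).  For mixed conditions: a finite set `Q` of
primes, for each `q ∈ Q` a Boolean which says whether the condition at `q` is `Res` or `¬ I ≤ q`.  `rho e q` is the number of nonzero `e`-th powers in `𝓞/q` divided by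
`N(q)`.  `rho_ge`: the `e`-th powers are the image of a homomorphism with kernel of at most `e` elements, so there are at least `(N(q)-1)/e ≥ N(q)/(2e)` of them.
The stability of `R q` under units `u` outside `S`: `q` has `PP`, so `u` is a nonzero `e`-th power residue modulo `q`; for the nonzero classes: `u ∉ q`.
-/

namespace StarkR

open NumberField IsDedekindDomain Filter Topology

variable {F : Type} [Field F] [NumberField F]

/-- the proportion of the nonzero `e`-th powers modulo `q` -/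
noncomputable def rho (e : ℕ) (q : Prm F) : ℝ :=
  (Set.ncard {r : 𝓞 F ⧸ q.asIdeal | r ≠ 0 ∧ ∃ y, r = y ^ e} : ℝ) / (nm q : ℝ)

theorem rho_ge {e : ℕ} (he : 0 < e) (q : Prm F) : 1 / (2 * (e : ℝ)) ≤ rho e q := by
  have h1 := powSet_card he q
  have h2 := two_le_nm q
  have h3 : (nm q : ℝ) - 1 ≤ (e : ℝ) * ((powSet e q).ncard : ℝ) := by
    have h4 : nm q ≤ e * (powSet e q).ncard + 1 := by omega
    have h5 : (nm q : ℝ) ≤ (e : ℝ) * ((powSet e q).ncard : ℝ) + 1 := by exact_mod_cast h4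
    linarith
  have h6 : (2 : ℝ) ≤ (nm q : ℝ) := by exact_mod_cast h2
  have he' : (0 : ℝ) < e := by exact_mod_cast he
  have h7 : rho e q = ((powSet e q).ncard : ℝ) / (nm q : ℝ) := rfl
  rw [h7, div_le_div_iff₀ (by positivity) (by linarith)]
  nlinarith

theorem rho_le (e : ℕ) (q : Prm F) : rho e q ≤ 1 := by
  have h1 := finQ q
  have h2 := two_le_nm q
  have h6 : (2 : ℝ) ≤ (nm q : ℝ) := by exact_mod_cast h2
  have h7 : rho e q = ((powSet e q).ncard : ℝ) / (nm q : ℝ) := rfl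
  rw [h7, div_le_one (by linarith)]
  have h8 : (powSet e q).ncard ≤ nm q := by
    rw [← card_Q, ← Set.ncard_univ]
    exact Set.ncard_le_ncard (Set.subset_univ _) Set.finite_univ
  exact_mod_cast h8

private lemma ncard_ne_zero' (q : Prm F) : (({r : 𝓞 F ⧸ q.asIdeal | r ≠ 0}).ncard : ℝ) / (nm q : ℝ) = 1 - 1 / (nm q : ℝ) := by
  classical
  have h1 := finQ q
  have h2 := two_le_nm q
  have h6 : (2 : ℝ) ≤ (nm q : ℝ) := by exact_mod_cast h2
  have hcard : ({r : 𝓞 F ⧸ q.asIdeal | r ≠ 0}).ncard = nm q - 1 := by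
    have := Fintype.ofFinite (𝓞 F ⧸ q.asIdeal)
    rw [← Nat.card_coe_set_eq]
    have h3 : Nat.card {a : 𝓞 F ⧸ q.asIdeal // a ≠ 0} = nm q - 1 := by
      rw [Nat.card_eq_fintype_card, Fintype.card_subtype_compl, ← Nat.card_eq_fintype_card, card_Q]
      simp
    exact h3
  rw [hcard, Nat.cast_sub (by omega)]
  have h0 : (nm q : ℝ) ≠ 0 := by linarith
  field_simp
  simp

private lemma mk_ne_zero_of_SU {S : Finset (Prm F)} {q : Prm F} (hq : q ∉ S) {u : 𝓞 F} (hu : IsSU S u) :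
    Ideal.Quotient.mk q.asIdeal u ≠ 0 := by
  rw [Ne, Ideal.Quotient.eq_zero_iff_mem]
  exact hu.2 q hq

theorem cr_dens {e : ℕ} (he : 0 < e) {S : Finset (Prm F)} (hS : GoodS e S) {g : Ideal (𝓞 F) → 𝓞 F} (hg : IsGen S g) :
    ∃ κ : ℝ, 0 < κ ∧ ∀ (Q Q' : Finset (Prm F)), Disjoint Q Q' → (∀ q ∈ Q, q ∉ S) → (∀ q ∈ Q', PP e S q) →
      HasDens {I : Ideal (𝓞 F) | Cop S I ∧ (∀ q ∈ Q, ¬ I ≤ q.asIdeal) ∧ ∀ q ∈ Q', Res e g q I}
        (κ * (∏ q ∈ Q, (1 - 1 / (nm q : ℝ))) * ∏ q ∈ Q', rho e q) := by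
  classical
  obtain ⟨κ, hκ, H⟩ := dens_R hS hg
  refine ⟨κ, hκ, fun Q Q' hdis hQ hQ' => ?_⟩
  set R : (q : Prm F) → Set (𝓞 F ⧸ q.asIdeal) := fun q =>
    if q ∈ Q' then {r | r ≠ 0 ∧ ∃ y, r = y ^ e} else {r | r ≠ 0} with hR
  have hR1 : ∀ q ∈ Q', R q = {r | r ≠ 0 ∧ ∃ y, r = y ^ e} := fun q hq => by
    simp only [hR]; rw [if_pos hq]
  have hR2 : ∀ q ∈ Q, R q = {r | r ≠ 0} := fun q hq => by
    have hq' : q ∉ Q' := Finset.disjoint_left.1 hdis hq
    simp only [hR]; rw [if_neg hq']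
  have hS1 : ∀ q ∈ Q ∪ Q', q ∉ S := fun q hq => by
    rcases Finset.mem_union.1 hq with h | h
    · exact hQ q h
    · exact (hQ' q h).1
  have h1 := H (Q ∪ Q') R hS1 (fun q hq u hu r hr => by
    have hdom : IsDomain (𝓞 F ⧸ q.asIdeal) := (Ideal.Quotient.isDomain_iff_prime _).2 q.isPrime
    have hu0 := mk_ne_zero_of_SU (hS1 q hq) hu
    rcases Finset.mem_union.1 hq with h | h
    · rw [hR2 q h] at hr ⊢
      exact mul_ne_zero hu0 hr
    · rw [hR1 q h] at hr ⊢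
      obtain ⟨hr0, y, hy⟩ := hr
      obtain ⟨z, hz⟩ := (hQ' q h).2 u hu
      refine ⟨mul_ne_zero hu0 hr0, Ideal.Quotient.mk q.asIdeal z * y, ?_⟩
      rw [mul_pow, ← hy, ← map_pow]
      congr 1
      exact Ideal.Quotient.eq.2 hz)
  have hset : {I : Ideal (𝓞 F) | Cop S I ∧ ∀ q ∈ Q ∪ Q', Ideal.Quotient.mk q.asIdeal (g I) ∈ R q} =
      {I : Ideal (𝓞 F) | Cop S I ∧ (∀ q ∈ Q, ¬ I ≤ q.asIdeal) ∧ ∀ q ∈ Q', Res e g q I} := by
    ext I
    simp only [Set.mem_setOf_eq]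
    refine and_congr_right fun hI => ?_
    have hgen := hg I hI.1
    constructor
    · intro h
      refine ⟨fun q hq => ?_, fun q hq => ?_⟩
      · have h2 := h q (Finset.mem_union_left _ hq)
        rw [hR2 q hq, Set.mem_setOf_eq, Ne, Ideal.Quotient.eq_zero_iff_mem] at h2
        have h3 := hgen.2 q (hQ q hq) 1
        rw [pow_one] at h3
        exact fun hc => h2 (h3.2 hc)
      · have h2 := h q (Finset.mem_union_right _ hq)
        rw [hR1 q hq, Set.mem_setOf_eq, Ne, Ideal.Quotient.eq_zero_iff_mem] at h2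
        obtain ⟨h3, y, hy⟩ := h2
        obtain ⟨x, hx⟩ := Ideal.Quotient.mk_surjective y
        refine ⟨h3, x, ?_⟩
        rw [← hx, ← map_pow] at hy
        exact Ideal.Quotient.eq.1 hy
    · rintro ⟨h2, h3⟩ q hq
      rcases Finset.mem_union.1 hq with h | h
      · rw [hR2 q h, Set.mem_setOf_eq, Ne, Ideal.Quotient.eq_zero_iff_mem]
        have h4 := hgen.2 q (hQ q h) 1
        rw [pow_one] at h4
        exact fun hc => h2 q h (h4.1 hc)
      · rw [hR1 q h, Set.mem_setOf_eq, Ne, Ideal.Quotient.eq_zero_iff_mem]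
        obtain ⟨h4, x, hx⟩ := h3 q h
        refine ⟨h4, Ideal.Quotient.mk q.asIdeal x, ?_⟩
        rw [← map_pow]
        exact Ideal.Quotient.eq.2 hx
  rw [hset, Finset.prod_union hdis] at h1
  have h5 : ∏ q ∈ Q, ((R q).ncard : ℝ) / (nm q : ℝ) = ∏ q ∈ Q, (1 - 1 / (nm q : ℝ)) :=
    Finset.prod_congr rfl fun q hq => by rw [hR2 q hq, ncard_ne_zero']
  have h6 : ∏ q ∈ Q', ((R q).ncard : ℝ) / (nm q : ℝ) = ∏ q ∈ Q', rho e q :=
    Finset.prod_congr rfl fun q hq => by rw [hR1 q hq]; rfl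
  rw [h5, h6, ← mul_assoc] at h1
  exact h1

end StarkR
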