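import Pool.Agent.Lib.MP_d9bae3_nt.NA.Sel
import Pool.Agent.Lib.MP_d9bae3_nt.SK.PrimeSum
import Pool.Agent.Lib.MP_d9bae3_nt.SG.NPr

/-!
# Module SNA-PSum: the sum of 1/N(q) over the primes with `PP` diverges

Plan.  `E` from `sel_finite`.  Let `L` be a number field containing `F` and elements `y_ε` with `y_ε^e = ε` for all `ε ∈ E` (splitting field over `F` of
`∏ (X^e - ε)`; it is a number field as it is finite over `F`: `NumberField.of_module_finite` or similar); the `y_ε` are integral.  By `prime_sum` for `L` and `not_prime_sum` (module SG/NPr: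
the primes `Q` of `L` whose norm is not a prime number have a bounded sum) there are finite sets `A'` of primes `Q` of `L` with `nm Q` a prime number, outside of the
finite set of the primes over `S`, and with `∑ 1/N(Q)` as large as we like.  For such `Q` let `q = Q ∩ 𝓞 F`: the residue fields of `q` and `Q` both have `p`
elements, so `𝓞 F / q → 𝓞 L / Q` is bijective and `N(q) = N(Q)`.  `ε = y_ε^e` and `y_ε ≡ y` modulo `Q` with `y ∈ 𝓞 F`, so `ε - y^e ∈ Q ∩ 𝓞 F = q`.  If `x z^e = ε w^e` as in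
`sel_finite` then `x` is an `e`-th power residue modulo `q` as well (`z, w ∉ q`, `𝓞 F / q` is a field).  Every `q` has at most `[L : F]` (or simply: boundedly many, at most `[L:ℚ]`) primes above it,
so the sum over the set `A` of the `q` is at least `1/[L:ℚ]` times the sum over `A'`.
-/

namespace StarkR

open NumberField IsDedekindDomain

variable {F : Type} [Field F] [NumberField F]

/-- a number field in which all elements of `E` are `e`-th powers of integers -/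
private theorem PSum_ext {e : ℕ} (he : 0 < e) (E : Finset (𝓞 F)) :
    ∃ (L : Type) (_ : Field L) (_ : NumberField L) (_ : Algebra F L),
      ∀ ε ∈ E, ∃ y : 𝓞 L, y ^ e = algebraMap (𝓞 F) (𝓞 L) ε := by
  classical
  let P : Polynomial F := ∏ ε ∈ E, (Polynomial.X ^ e - Polynomial.C (ε : F))
  haveI : NumberField P.SplittingField := NumberField.of_module_finite F P.SplittingField
  refine ⟨P.SplittingField, inferInstance, inferInstance, inferInstance, fun ε hε => ?_⟩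
  have hP : P.map (algebraMap F P.SplittingField) ≠ 0 := by
    rw [Polynomial.map_ne_zero_iff (algebraMap F P.SplittingField).injective]
    exact Finset.prod_ne_zero_iff.2 fun ε _ => Polynomial.X_pow_sub_C_ne_zero he _
  have h1 : (Polynomial.X ^ e - Polynomial.C (ε : F)).map (algebraMap F P.SplittingField) ∣
      P.map (algebraMap F P.SplittingField) :=
    Polynomial.map_dvd _ (Finset.dvd_prod_of_mem _ hε)
  have h2 : ((Polynomial.X ^ e - Polynomial.C (ε : F)).map (algebraMap F P.SplittingField)).Splits :=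
    (Polynomial.SplittingField.splits P).of_dvd hP h1
  obtain ⟨a, ha⟩ := h2.exists_eval_eq_zero (by
    rw [Polynomial.degree_map, Polynomial.degree_X_pow_sub_C he]
    exact_mod_cast he.ne')
  have ha' : a ^ e = algebraMap F P.SplittingField (ε : F) := by
    simpa [sub_eq_zero] using ha
  have hint : IsIntegral ℤ a := by
    refine IsIntegral.of_pow he ?_
    rw [ha']
    exact map_isIntegral_int (algebraMap F P.SplittingField) (RingOfIntegers.isIntegral_coe ε)
  refine ⟨⟨a, hint⟩, ?_⟩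
  apply RingOfIntegers.ext
  show a ^ e = _
  rw [ha']
  rfl

/-- at most `[L:ℚ]` primes of norm `p` -/
private theorem PSum_card {L : Type} [Field L] [NumberField L] (p : ℕ) (hp : p.Prime) (B : Finset (Prm L))
    (hB : ∀ Q ∈ B, nm Q = p) : B.card ≤ Module.finrank ℚ L := by
  classical
  have h1 : ∏ Q ∈ B, Q.asIdeal ∣ Ideal.span {(p : 𝓞 L)} := by
    refine Finset.prod_dvd_of_coprime ?_ ?_
    · intro Q _ Q' _ hne
      have h3 : Q.asIdeal ≠ Q'.asIdeal := fun h => hne (HeightOneSpectrum.ext h)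
      exact Ideal.isCoprime_iff_sup_eq.2 (Q.isMaximal.coprime_of_ne Q'.isMaximal h3)
    · intro Q hQ
      rw [Ideal.dvd_span_singleton, ← hB Q hQ]
      exact Ideal.absNorm_mem Q.asIdeal
  have h2 : ∏ Q ∈ B, nm Q ∣ p ^ Module.finrank ℚ L := by
    have h3 := map_dvd Ideal.absNorm h1
    rw [map_prod, Ideal.absNorm_span_singleton] at h3
    have h4 : (Algebra.norm ℤ (p : 𝓞 L)).natAbs = p ^ Module.finrank ℚ L := by
      have h5 : Algebra.norm ℤ (p : 𝓞 L) = (p : ℤ) ^ Module.finrank ℤ (𝓞 L) := by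
        have := Algebra.norm_algebraMap (R := ℤ) (S := 𝓞 L) (p : ℤ)
        simpa using this
      rw [h5, Int.natAbs_pow, Int.natAbs_natCast, RingOfIntegers.rank]
    rw [h4] at h3
    exact h3
  have h6 : ∏ Q ∈ B, nm Q = p ^ B.card := by
    rw [← Finset.prod_const]
    exact Finset.prod_congr rfl hB
  rw [h6] at h2
  exact (Nat.pow_dvd_pow_iff_le_right hp.one_lt).1 h2

/-- the prime of `F` below `Q` -/
private noncomputable def PSum_dn {L : Type} [Field L] [NumberField L] [Algebra F L] (Q : Prm L) : Prm F where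
  asIdeal := Ideal.comap (algebraMap (𝓞 F) (𝓞 L)) Q.asIdeal
  isPrime := Ideal.comap_isPrime _ _
  ne_bot := Ideal.IsIntegral.comap_ne_bot (𝓞 F) Q.ne_bot

private theorem PSum_mem {L : Type} [Field L] [NumberField L] [Algebra F L] (Q : Prm L) (x : 𝓞 F) :
    x ∈ (PSum_dn (F := F) Q).asIdeal ↔ algebraMap (𝓞 F) (𝓞 L) x ∈ Q.asIdeal := Iff.rfl

/-- residue classes modulo a prime of prime norm come from the subfield -/
private theorem PSum_surj {L : Type} [Field L] [NumberField L] [Algebra F L] (Q : Prm L) (hQ : (nm Q).Prime) (y : 𝓞 L) :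
    ∃ x : 𝓞 F, y - algebraMap (𝓞 F) (𝓞 L) x ∈ Q.asIdeal := by
  have hc : Nat.card (𝓞 L ⧸ Q.asIdeal) = nm Q := by
    rw [nm, Ideal.absNorm_apply, Submodule.cardQuot_apply]
  haveI : Fact (Nat.card (𝓞 L ⧸ Q.asIdeal)).Prime := ⟨by rw [hc]; exact hQ⟩
  let f : 𝓞 F →+* 𝓞 L ⧸ Q.asIdeal := (Ideal.Quotient.mk Q.asIdeal).comp (algebraMap (𝓞 F) (𝓞 L))
  rcases AddSubgroup.eq_bot_or_eq_top_of_prime_card f.toAddMonoidHom.range with h | h
  · exfalso
    have h1 : (1 : 𝓞 L ⧸ Q.asIdeal) ∈ f.toAddMonoidHom.range := ⟨1, by simp⟩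
    rw [h, AddSubgroup.mem_bot] at h1
    haveI : Nontrivial (𝓞 L ⧸ Q.asIdeal) := Ideal.Quotient.nontrivial_iff.2 Q.isPrime.ne_top
    exact one_ne_zero h1
  · have h1 : Ideal.Quotient.mk Q.asIdeal y ∈ f.toAddMonoidHom.range := by
      rw [h]; trivial
    obtain ⟨x, hx⟩ := h1
    refine ⟨x, ?_⟩
    rw [← Ideal.Quotient.eq]
    exact hx.symm

private theorem PSum_nm {L : Type} [Field L] [NumberField L] [Algebra F L] (Q : Prm L) (hQ : (nm Q).Prime) :
    nm (PSum_dn (F := F) Q) = nm Q := by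
  have hc : Nat.card (𝓞 L ⧸ Q.asIdeal) = nm Q := by
    rw [nm, Ideal.absNorm_apply, Submodule.cardQuot_apply]
  have hc' : Nat.card (𝓞 F ⧸ (PSum_dn (F := F) Q).asIdeal) = nm (PSum_dn (F := F) Q) := by
    rw [nm, Ideal.absNorm_apply, Submodule.cardQuot_apply]
  rw [← hc, ← hc']
  let g : 𝓞 F ⧸ (PSum_dn (F := F) Q).asIdeal →+* 𝓞 L ⧸ Q.asIdeal :=
    Ideal.quotientMap Q.asIdeal (algebraMap (𝓞 F) (𝓞 L)) le_rfl
  refine Nat.card_congr (Equiv.ofBijective g ⟨?_, ?_⟩)
  · exact Ideal.quotientMap_injective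
  · intro z
    obtain ⟨y, rfl⟩ := Ideal.Quotient.mk_surjective z
    obtain ⟨x, hx⟩ := PSum_surj (F := F) Q hQ y
    refine ⟨Ideal.Quotient.mk _ x, ?_⟩
    rw [Ideal.quotientMap_mk]
    exact (Ideal.Quotient.eq.2 hx).symm

private theorem PSum_pp {L : Type} [Field L] [NumberField L] [Algebra F L] {e : ℕ} {S : Finset (Prm F)} {E : Finset (𝓞 F)}
    (hE : ∀ x : 𝓞 F, IsSU S x → ∃ ε ∈ E, ∃ z w : 𝓞 F, IsSU S z ∧ IsSU S w ∧ x * z ^ e = ε * w ^ e)
    (hL : ∀ ε ∈ E, ∃ y : 𝓞 L, y ^ e = algebraMap (𝓞 F) (𝓞 L) ε) (Q : Prm L) (hQ : (nm Q).Prime)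
    (hS : PSum_dn (F := F) Q ∉ S) : PP e S (PSum_dn (F := F) Q) := by
  refine ⟨hS, fun x hx => ?_⟩
  obtain ⟨ε, hε, z, w, hz, -, hzw⟩ := hE x hx
  obtain ⟨y, hy⟩ := hL ε hε
  obtain ⟨u, hu⟩ := PSum_surj (F := F) Q hQ y
  set q := PSum_dn (F := F) Q with hq
  have h1 : ε - u ^ e ∈ q.asIdeal := by
    rw [hq, PSum_mem, map_sub, map_pow, ← hy]
    exact Ideal.mem_of_dvd _ (sub_dvd_pow_sub_pow y (algebraMap (𝓞 F) (𝓞 L) u) e) hu
  have h2 : z ∉ q.asIdeal := hz.2 q hS
  have hmax : q.asIdeal.IsMaximal := q.isMaximal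
  letI : Field (𝓞 F ⧸ q.asIdeal) := Ideal.Quotient.field q.asIdeal
  have h3 : Ideal.Quotient.mk q.asIdeal z ≠ 0 := by
    rw [Ne, Ideal.Quotient.eq_zero_iff_mem]
    exact h2
  obtain ⟨t, ht⟩ := Ideal.Quotient.mk_surjective (Ideal.Quotient.mk q.asIdeal z)⁻¹
  refine ⟨u * w * t, ?_⟩
  rw [← Ideal.Quotient.eq, map_pow, map_mul, map_mul, ht]
  have h4 : Ideal.Quotient.mk q.asIdeal ε = Ideal.Quotient.mk q.asIdeal u ^ e := by
    rw [← map_pow]
    exact Ideal.Quotient.eq.2 h1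
  have h5 := congrArg (Ideal.Quotient.mk q.asIdeal) hzw
  rw [map_mul, map_mul, map_pow, map_pow, h4] at h5
  rw [mul_pow, mul_pow, ← h5, mul_assoc, ← mul_pow, mul_inv_cancel₀ h3, one_pow, mul_one]

private theorem PSum_fin {L : Type} [Field L] [NumberField L] [Algebra F L] (S : Finset (Prm F)) :
    {Q : Prm L | PSum_dn (F := F) Q ∈ S}.Finite := by
  classical
  have h1 : ∀ q : Prm F, ∃ x ∈ q.asIdeal, x ≠ 0 := fun q => Submodule.exists_mem_ne_zero_of_ne_bot q.ne_bot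
  choose x hx hx0 using h1
  refine Set.Finite.subset (S.finite_toSet.biUnion (t := fun q => {Q : Prm L | Q.asIdeal ∣ Ideal.span {algebraMap (𝓞 F) (𝓞 L) (x q)}})
    fun q _ => ?_) ?_
  · refine Ideal.finite_factors ?_
    rw [Ne, Ideal.zero_eq_bot, Ideal.span_singleton_eq_bot]
    exact (map_ne_zero_iff _ (FaithfulSMul.algebraMap_injective (𝓞 F) (𝓞 L))).2 (hx0 q)
  · intro Q hQ
    refine Set.mem_biUnion (x := PSum_dn (F := F) Q) hQ ?_
    show Q.asIdeal ∣ _
    rw [Ideal.dvd_span_singleton]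
    exact hx (PSum_dn (F := F) Q)

theorem pp_sum {e : ℕ} (he : 0 < e) (S : Finset (Prm F)) (M : ℝ) :
    ∃ A : Finset (Prm F), (∀ q ∈ A, PP e S q) ∧ M ≤ ∑ q ∈ A, 1 / (nm q : ℝ) := by
  classical
  obtain ⟨E, -, hE⟩ := sel_finite he S
  obtain ⟨L, _, _, _, hL⟩ := PSum_ext he E
  obtain ⟨C, hC⟩ := not_prime_sum L
  have hd : (0 : ℝ) < Module.finrank ℚ L := by exact_mod_cast Module.finrank_pos
  obtain ⟨A', hA', hM⟩ := prime_sum L {Q : Prm L | PSum_dn (F := F) Q ∈ S} (PSum_fin S) (M * Module.finrank ℚ L + C)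
  set A1 := A'.filter (fun Q => (nm Q).Prime) with hA1
  have h1 : M * Module.finrank ℚ L ≤ ∑ Q ∈ A1, 1 / (nm Q : ℝ) := by
    have h2 : ∑ Q ∈ A', 1 / (nm Q : ℝ) = ∑ Q ∈ A1, 1 / (nm Q : ℝ) + ∑ Q ∈ A'.filter (fun Q => ¬ (nm Q).Prime), 1 / (nm Q : ℝ) :=
      (Finset.sum_filter_add_sum_filter_not A' (fun Q => (nm Q).Prime) _).symm
    have h3 := hC (A'.filter (fun Q => ¬ (nm Q).Prime)) (fun Q hQ => (Finset.mem_filter.1 hQ).2)
    linarith
  refine ⟨A1.image (PSum_dn (F := F)), ?_, ?_⟩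
  · intro q hq
    obtain ⟨Q, hQ, rfl⟩ := Finset.mem_image.1 hq
    rw [hA1, Finset.mem_filter] at hQ
    exact PSum_pp hE hL Q hQ.2 (hA' Q hQ.1)
  · have h4 : ∑ Q ∈ A1, 1 / (nm Q : ℝ) ≤ Module.finrank ℚ L * ∑ q ∈ A1.image (PSum_dn (F := F)), 1 / (nm q : ℝ) := by
      rw [Finset.mul_sum, ← Finset.sum_fiberwise_of_maps_to (g := PSum_dn (F := F)) (t := A1.image (PSum_dn (F := F)))
        (fun Q hQ => Finset.mem_image_of_mem _ hQ)]
      refine Finset.sum_le_sum fun q hq => ?_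
      obtain ⟨Q₀, hQ₀, rfl⟩ := Finset.mem_image.1 hq
      rw [hA1, Finset.mem_filter] at hQ₀
      have h5 : ∀ Q ∈ A1.filter (fun Q => PSum_dn (F := F) Q = PSum_dn (F := F) Q₀), nm Q = nm Q₀ := by
        intro Q hQ
        rw [Finset.mem_filter, hA1, Finset.mem_filter] at hQ
        rw [← PSum_nm (F := F) Q hQ.1.2, hQ.2, PSum_nm (F := F) Q₀ hQ₀.2]
      have h6 := PSum_card (nm Q₀) hQ₀.2 _ h5
      rw [PSum_nm (F := F) Q₀ hQ₀.2, Finset.sum_congr rfl fun Q hQ => by rw [h5 Q hQ], Finset.sum_const, nsmul_eq_mul]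
      exact mul_le_mul_of_nonneg_right (by exact_mod_cast h6) (by positivity)
    have h7 := h1.trans h4
    rw [mul_comm] at h7
    exact le_of_mul_le_mul_left h7 hd

end StarkR
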