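import Pool.Agent.Lib.MP_d9bae3_nt.NA.EvD
import Pool.Agent.Lib.MP_d9bae3_nt.NA.PSum

/-!
# Module SNA-ChebT: almost all tuples are rich

Plan (Chebyshev; the same argument as in SK/Cheb.lean, `few_ev`, which can be adapted).  Fix `v`, `k`, `ε`.  By `pp_sum` and `dl_ge` there is a finite set `A` of primes with `PP` such that
`Δ = ∑_{q ∈ A} dl e (card ι) q` is as large as we like.  For `T ∈ TT` let `N(T)` be the number of the `q ∈ A` with `EvT`.  By `ev_prob` for `Q = {q}` and `Q = {q, q'}` the mean of `N` tends to `Δ` and the mean of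
`N^2` tends to `∑_{q ≠ q'} dl q dl q' + Δ ≤ Δ^2 + Δ`, so the mean of `(N - Δ)^2` has a limit `≤ Δ`, and the proportion of the `T` with `N(T) < k ≤ Δ/2` is at most `5/Δ` for large `X`.
`bad_T`: sum over the finitely many `v`.
-/

namespace StarkR

open NumberField IsDedekindDomain Filter Topology

variable {F : Type} [Field F] [NumberField F] {ι : Type} [Fintype ι]

private theorem chebT_count {s : Set (ι → Ideal (𝓞 F))} (hs : s.Finite) (P : (ι → Ideal (𝓞 F)) → Prop) [DecidablePred P] :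
    (∑ b ∈ hs.toFinset, (if P b then (1 : ℝ) else 0)) = (Set.ncard {b : ι → Ideal (𝓞 F) | b ∈ s ∧ P b} : ℝ) := by
  rw [Finset.sum_boole, ← Set.ncard_coe_finset]
  congr 2
  ext b
  simp

theorem few_evT [Nonempty ι] {e : ℕ} (he : 0 < e) {S : Finset (Prm F)} (hS : GoodS e S) {g : Ideal (𝓞 F) → 𝓞 F} (hg : IsGen S g)
    (v : ι) (k : ℕ) (ε : ℝ) (hε : 0 < ε) :
    ∀ᶠ X : ℝ in atTop, (Set.ncard {T : ι → Ideal (𝓞 F) | T ∈ TT ι S X ∧
      ¬ ∃ A : Finset (Prm F), k ≤ A.card ∧ ∀ q ∈ A, PP e S q ∧ EvT e g v T q} : ℝ) ≤ ε * ((TT ι S X).ncard : ℝ) := by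
  classical
  have he' : (0 : ℝ) < e := by exact_mod_cast he
  set c : ℝ := (1 / (2 * (e : ℝ))) ^ Fintype.card ι / 2 with hc
  have hc0 : 0 < c := by positivity
  obtain ⟨A, hAP, hA⟩ := pp_sum he S (max (2 * (k : ℝ) + 1) (8 / ε) / c)
  let D : Prm F → ℝ := fun q => dl e (Fintype.card ι) q
  set Δ : ℝ := ∑ q ∈ A, D q with hΔdef
  have hΔ : max (2 * (k : ℝ) + 1) (8 / ε) ≤ Δ := by
    have h1 : c * ∑ q ∈ A, 1 / (nm q : ℝ) ≤ Δ := by
      rw [Finset.mul_sum]
      refine Finset.sum_le_sum fun q _ => ?_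
      refine le_trans (le_of_eq ?_) (dl_ge he (Fintype.card ι) q)
      rw [hc]
      ring
    have h2 := (div_le_iff₀ hc0).1 hA
    linarith [mul_comm c (∑ q ∈ A, 1 / (nm q : ℝ))]
  have hΔk : 2 * (k : ℝ) + 1 ≤ Δ := (le_max_left _ _).trans hΔ
  have hΔε : 8 / ε ≤ Δ := (le_max_right _ _).trans hΔ
  have hk0 : (0 : ℝ) ≤ k := Nat.cast_nonneg k
  have hΔ1 : 1 ≤ Δ := by linarith
  have hΔ0 : 0 < Δ := by linarith
  let I : (ι → Ideal (𝓞 F)) → Prm F → ℝ := fun b q => if EvT e g v b q then 1 else 0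
  let n1 : Prm F → ℝ → ℝ := fun q X =>
    (Set.ncard {b : ι → Ideal (𝓞 F) | b ∈ TT ι S X ∧ EvT e g v b q} : ℝ)
  let n2 : Prm F → Prm F → ℝ → ℝ := fun q q' X =>
    (Set.ncard {b : ι → Ideal (𝓞 F) | b ∈ TT ι S X ∧ (EvT e g v b q ∧ EvT e g v b q')} : ℝ)
  let C : ℝ → ℝ := fun X => ((TT ι S X).ncard : ℝ)
  have hCpos : ∀ X, 1 ≤ X → 0 < C X := by
    intro X hX
    have := TT_pos (ι := ι) S hX
    show (0 : ℝ) < ((TT ι S X).ncard : ℝ)
    exact_mod_cast this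
  -- the limits
  have ht1 : ∀ q ∈ A, Tendsto (fun X => n1 q X / C X) atTop (𝓝 (D q)) := by
    intro q hq
    have h := ev_prob he hS hg v {q} (fun q' hq' => by
      rw [Finset.mem_singleton] at hq'
      rw [hq']
      exact hAP q hq)
    rw [Finset.prod_singleton] at h
    refine h.congr fun X => ?_
    simp only [Finset.mem_singleton, forall_eq]
    rfl
  have ht2 : ∀ q ∈ A, ∀ q' ∈ A, Tendsto (fun X => n2 q q' X / C X) atTop
      (𝓝 (if q = q' then D q else D q * D q')) := by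
    intro q hq q' hq'
    by_cases hqq : q = q'
    · subst hqq
      rw [if_pos rfl]
      refine (ht1 q hq).congr fun X => ?_
      have hset : {b : ι → Ideal (𝓞 F) | b ∈ TT ι S X ∧ (EvT e g v b q ∧ EvT e g v b q)} =
          {b : ι → Ideal (𝓞 F) | b ∈ TT ι S X ∧ EvT e g v b q} := by
        ext b
        simp
      show n1 q X / C X = n2 q q X / C X
      simp only [n1, n2, hset]
    · rw [if_neg hqq]
      have h := ev_prob he hS hg v {q, q'} (fun q'' hq'' => by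
        rw [Finset.mem_insert, Finset.mem_singleton] at hq''
        rcases hq'' with h | h
        · rw [h]
          exact hAP q hq
        · rw [h]
          exact hAP q' hq')
      rw [Finset.prod_pair hqq] at h
      refine h.congr fun X => ?_
      have hset : {T : ι → Ideal (𝓞 F) | T ∈ TT ι S X ∧ ∀ q'' ∈ ({q, q'} : Finset (Prm F)), EvT e g v T q''} =
          {b : ι → Ideal (𝓞 F) | b ∈ TT ι S X ∧ (EvT e g v b q ∧ EvT e g v b q')} := by
        ext b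
        simp
      rw [hset]
  set L : ℝ := ∑ q ∈ A, ∑ q' ∈ A, (if q = q' then D q else D q * D q') -
    2 * Δ * ∑ q ∈ A, D q + Δ ^ 2 with hL
  let M2 : ℝ → ℝ := fun X => ∑ q ∈ A, ∑ q' ∈ A, n2 q q' X - 2 * Δ * ∑ q ∈ A, n1 q X + Δ ^ 2 * C X
  have htL : Tendsto (fun X => M2 X / C X) atTop (𝓝 L) := by
    have h1 : Tendsto (fun X => ∑ q ∈ A, ∑ q' ∈ A, n2 q q' X / C X -
        2 * Δ * ∑ q ∈ A, n1 q X / C X + Δ ^ 2) atTop (𝓝 L) := by
      refine Tendsto.add (Tendsto.sub ?_ (Tendsto.const_mul _ ?_)) tendsto_const_nhds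
      · exact tendsto_finsetSum _ fun q hq => tendsto_finsetSum _ fun q' hq' => ht2 q hq q' hq'
      · exact tendsto_finsetSum _ fun q hq => ht1 q hq
    refine h1.congr' ?_
    filter_upwards [eventually_ge_atTop (1 : ℝ)] with X hX
    have hC := (hCpos X hX).ne'
    simp only [← Finset.sum_div]
    show _ = (∑ q ∈ A, ∑ q' ∈ A, n2 q q' X - 2 * Δ * ∑ q ∈ A, n1 q X + Δ ^ 2 * C X) / C X
    field_simp
  have hLle : L ≤ Δ := by
    have h1 : ∑ q ∈ A, ∑ q' ∈ A, (if q = q' then D q else D q * D q') ≤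
        ∑ q ∈ A, ∑ q' ∈ A, ((if q = q' then D q else 0) + D q * D q') := by
      refine Finset.sum_le_sum fun q _ => Finset.sum_le_sum fun q' _ => ?_
      have h0 : ∀ p : Prm F, 0 ≤ D p := fun p => dl_nonneg e _ p
      split_ifs
      · linarith [mul_nonneg (h0 q) (h0 q')]
      · linarith
    have h2 : ∑ q ∈ A, ∑ q' ∈ A, ((if q = q' then D q else 0) + D q * D q') = Δ + Δ ^ 2 := by
      simp only [Finset.sum_add_distrib, Finset.sum_ite_eq]
      rw [← Finset.sum_mul_sum, sq]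
      congr 1
      exact Finset.sum_congr rfl fun q hq => if_pos hq
    rw [hL]
    nlinarith
  have hev : ∀ᶠ X in atTop, M2 X / C X < Δ + 1 := htL.eventually_lt_const (by linarith)
  filter_upwards [hev, eventually_ge_atTop (1 : ℝ)] with X hR hX
  have hC := hCpos X hX
  rw [div_lt_iff₀ hC] at hR
  have hfin : (TT ι S X).Finite := Set.finite_of_ncard_pos (TT_pos (ι := ι) S hX)
  set s : Finset (ι → Ideal (𝓞 F)) := hfin.toFinset with hs
  have hscard : (s.card : ℝ) = C X := by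
    show (s.card : ℝ) = ((TT ι S X).ncard : ℝ)
    rw [Set.ncard_eq_toFinset_card _ hfin]
  have hI1 : ∀ q, ∑ b ∈ s, I b q = n1 q X := fun q => chebT_count hfin _
  have hI2 : ∀ q q', ∑ b ∈ s, I b q * I b q' = n2 q q' X := by
    intro q q'
    refine Eq.trans ?_ (chebT_count hfin (fun b => EvT e g v b q ∧ EvT e g v b q'))
    refine Finset.sum_congr rfl fun b _ => ?_
    by_cases h1 : EvT e g v b q <;> by_cases h2 : EvT e g v b q' <;> simp [I, h1, h2]
  -- the second moment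
  have hmom : ∑ b ∈ s, (∑ q ∈ A, I b q - Δ) ^ 2 = M2 X := by
    have h1 : ∀ b, (∑ q ∈ A, I b q - Δ) ^ 2 =
        ∑ q ∈ A, ∑ q' ∈ A, I b q * I b q' - 2 * Δ * ∑ q ∈ A, I b q + Δ ^ 2 := by
      intro b
      rw [← Finset.sum_mul_sum]
      ring
    show _ = ∑ q ∈ A, ∑ q' ∈ A, n2 q q' X - 2 * Δ * ∑ q ∈ A, n1 q X + Δ ^ 2 * C X
    simp only [h1]
    rw [Finset.sum_add_distrib, Finset.sum_sub_distrib, ← Finset.mul_sum, Finset.sum_const,
      nsmul_eq_mul, Finset.sum_comm, ← hscard]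
    congr 1
    · congr 1
      · refine Finset.sum_congr rfl fun q _ => ?_
        rw [Finset.sum_comm]
        exact Finset.sum_congr rfl fun q' _ => hI2 q q'
      · congr 1
        rw [Finset.sum_comm]
        exact Finset.sum_congr rfl fun q _ => hI1 q
    · ring
  have hsub : {T : ι → Ideal (𝓞 F) | T ∈ TT ι S X ∧
      ¬ ∃ A : Finset (Prm F), k ≤ A.card ∧ ∀ q ∈ A, PP e S q ∧ EvT e g v T q} ⊆
      ((s.filter fun b => ∑ q ∈ A, I b q < (k : ℝ) : Finset (ι → Ideal (𝓞 F))) :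
        Set (ι → Ideal (𝓞 F))) := by
    rintro b ⟨hb, hno⟩
    rw [Finset.mem_coe, Finset.mem_filter]
    refine ⟨(Set.Finite.mem_toFinset _).2 hb, ?_⟩
    by_contra hcon
    rw [not_lt] at hcon
    refine hno ⟨A.filter fun q => EvT e g v b q, ?_, fun q hq => ?_⟩
    · have h1 : ∑ q ∈ A, I b q = ((A.filter fun q => EvT e g v b q).card : ℝ) :=
        Finset.sum_boole _ _
      rw [h1] at hcon
      exact_mod_cast hcon
    · rw [Finset.mem_filter] at hq
      exact ⟨hAP q hq.1, hq.2⟩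
  have hcard : (Set.ncard {T : ι → Ideal (𝓞 F) | T ∈ TT ι S X ∧
      ¬ ∃ A : Finset (Prm F), k ≤ A.card ∧ ∀ q ∈ A, PP e S q ∧ EvT e g v T q} : ℝ) ≤
      ((s.filter fun b => ∑ q ∈ A, I b q < (k : ℝ)).card : ℝ) := by
    have h1 := Set.ncard_le_ncard hsub (Finset.finite_toSet _)
    rw [Set.ncard_coe_finset] at h1
    exact_mod_cast h1
  have hmark : ((s.filter fun b => ∑ q ∈ A, I b q < (k : ℝ)).card : ℝ) * (Δ ^ 2 / 4) ≤
      ∑ b ∈ s, (∑ q ∈ A, I b q - Δ) ^ 2 := by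
    calc ((s.filter fun b => ∑ q ∈ A, I b q < (k : ℝ)).card : ℝ) * (Δ ^ 2 / 4)
        = ∑ b ∈ s.filter (fun b => ∑ q ∈ A, I b q < (k : ℝ)), (Δ ^ 2 / 4) := by
          rw [Finset.sum_const, nsmul_eq_mul]
      _ ≤ ∑ b ∈ s.filter (fun b => ∑ q ∈ A, I b q < (k : ℝ)),
          (∑ q ∈ A, I b q - Δ) ^ 2 := by
          refine Finset.sum_le_sum fun b hb => ?_
          have h1 := (Finset.mem_filter.1 hb).2
          have h2 : Δ / 2 ≤ Δ - ∑ q ∈ A, I b q := by linarith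
          have h3 : (Δ / 2) ^ 2 ≤ (Δ - ∑ q ∈ A, I b q) ^ 2 :=
            pow_le_pow_left₀ (by positivity) h2 2
          nlinarith
      _ ≤ ∑ b ∈ s, (∑ q ∈ A, I b q - Δ) ^ 2 :=
          Finset.sum_le_sum_of_subset_of_nonneg (Finset.filter_subset _ _)
            fun _ _ _ => sq_nonneg _
  refine hcard.trans ?_
  show _ ≤ ε * C X
  have h8 : 8 ≤ ε * Δ := by
    have := (div_le_iff₀ hε).1 hΔε
    linarith [mul_comm Δ ε]
  set x : ℝ := ((s.filter fun b => ∑ q ∈ A, I b q < (k : ℝ)).card : ℝ) with hx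
  have h9 : x * (Δ ^ 2 / 4) ≤ (Δ + 1) * C X := (hmark.trans hmom.le).trans hR.le
  have h10 : x * (Δ ^ 2 / 4) ≤ (ε * C X) * (Δ ^ 2 / 4) := by
    refine h9.trans ?_
    have h11 : (Δ + 1) ≤ ε * (Δ ^ 2 / 4) := by nlinarith
    calc (Δ + 1) * C X ≤ (ε * (Δ ^ 2 / 4)) * C X := mul_le_mul_of_nonneg_right h11 hC.le
      _ = _ := by ring
  exact le_of_mul_le_mul_right h10 (by positivity)

theorem bad_T [Nonempty ι] {e : ℕ} (he : 0 < e) {S : Finset (Prm F)} (hS : GoodS e S) {g : Ideal (𝓞 F) → 𝓞 F} (hg : IsGen S g)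
    (k : ℕ) (ε : ℝ) (hε : 0 < ε) :
    ∀ᶠ X : ℝ in atTop, (Set.ncard {T : ι → Ideal (𝓞 F) | T ∈ TT ι S X ∧ ¬ RichT e S g k T} : ℝ) ≤
      ε * ((TT ι S X).ncard : ℝ) := by
  classical
  have hι : (0 : ℝ) < Fintype.card ι := by exact_mod_cast Fintype.card_pos
  have h1 : ∀ᶠ X : ℝ in atTop, ∀ v : ι, (Set.ncard {T : ι → Ideal (𝓞 F) | T ∈ TT ι S X ∧
      ¬ ∃ A : Finset (Prm F), k ≤ A.card ∧ ∀ q ∈ A, PP e S q ∧ EvT e g v T q} : ℝ) ≤
        (ε / Fintype.card ι) * ((TT ι S X).ncard : ℝ) := by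
    rw [eventually_all]
    exact fun v => few_evT he hS hg v k _ (by positivity)
  filter_upwards [h1, eventually_ge_atTop (1 : ℝ)] with X h2 hX
  have hfin : (TT ι S X).Finite := Set.finite_of_ncard_pos (TT_pos (ι := ι) S hX)
  have hsub : {T : ι → Ideal (𝓞 F) | T ∈ TT ι S X ∧ ¬ RichT e S g k T} ⊆
      ⋃ v ∈ (Finset.univ : Finset ι), {T : ι → Ideal (𝓞 F) | T ∈ TT ι S X ∧
        ¬ ∃ A : Finset (Prm F), k ≤ A.card ∧ ∀ q ∈ A, PP e S q ∧ EvT e g v T q} := by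
    rintro T ⟨hT, hR⟩
    unfold RichT at hR
    push_neg at hR
    obtain ⟨v, hv⟩ := hR
    simp only [Set.mem_iUnion, Finset.mem_univ, exists_true_left]
    refine ⟨v, hT, ?_⟩
    push_neg
    exact hv
  have h3 : (Set.ncard {T : ι → Ideal (𝓞 F) | T ∈ TT ι S X ∧ ¬ RichT e S g k T} : ℝ) ≤
      ∑ v : ι, (Set.ncard {T : ι → Ideal (𝓞 F) | T ∈ TT ι S X ∧
        ¬ ∃ A : Finset (Prm F), k ≤ A.card ∧ ∀ q ∈ A, PP e S q ∧ EvT e g v T q} : ℝ) := by
    have hf : (⋃ v ∈ (Finset.univ : Finset ι), {T : ι → Ideal (𝓞 F) | T ∈ TT ι S X ∧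
        ¬ ∃ A : Finset (Prm F), k ≤ A.card ∧ ∀ q ∈ A, PP e S q ∧ EvT e g v T q}).Finite := by
      refine hfin.subset ?_
      intro T hT
      simp only [Set.mem_iUnion] at hT
      obtain ⟨v, -, hT, -⟩ := hT
      exact hT
    have h4 := Set.ncard_le_ncard hsub hf
    have h5 := Finset.set_ncard_biUnion_le (Finset.univ : Finset ι) (fun v =>
      {T : ι → Ideal (𝓞 F) | T ∈ TT ι S X ∧
        ¬ ∃ A : Finset (Prm F), k ≤ A.card ∧ ∀ q ∈ A, PP e S q ∧ EvT e g v T q})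
    exact_mod_cast h4.trans h5
  refine h3.trans ((Finset.sum_le_sum fun v _ => h2 v).trans (le_of_eq ?_))
  rw [Finset.sum_const, Finset.card_univ, nsmul_eq_mul]
  field_simp

end StarkR
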