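import Pool.Agent.Lib.MP_d9bae3_nt.SK.Base

/-!
# All abelian extensions with a given group: auxiliary definitions

`F` is a number field, `S` a finite set of primes which contains the divisors of `e` and generates the class group, `g` a function which gives
a generator of every ideal up to `S`.  Tuples of ideals `T : ι → Ideal (𝓞 F)`, later `ι` is the set of the nonzero elements of `∏ ℤ/n_i`.
-/

namespace StarkR

open NumberField IsDedekindDomain Filter Topology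

section

variable {F : Type} [Field F] [NumberField F]

/-- `x` is a unit outside `S` -/
def IsSU (S : Finset (Prm F)) (x : 𝓞 F) : Prop := x ≠ 0 ∧ ∀ q : Prm F, q ∉ S → x ∉ q.asIdeal

/-- `I` is not zero and prime to `S` -/
def Cop (S : Finset (Prm F)) (I : Ideal (𝓞 F)) : Prop := I ≠ ⊥ ∧ ∀ q ∈ S, ¬ I ≤ q.asIdeal

/-- `S` contains the primes dividing `e`, and for every ideal `I ≠ 0` there is an ideal `J` with all prime divisors in `S` such that `I J` is principal -/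
structure GoodS (e : ℕ) (S : Finset (Prm F)) : Prop where
  dvd : ∀ q : Prm F, (e : 𝓞 F) ∈ q.asIdeal → q ∈ S
  cls : ∀ I : Ideal (𝓞 F), I ≠ ⊥ → ∃ J : Ideal (𝓞 F), J ≠ ⊥ ∧ (∀ q : Prm F, J ≤ q.asIdeal → q ∈ S) ∧
    ∃ β : 𝓞 F, I * J = Ideal.span {β}

/-- `g I` has the same multiplicity as `I` at all primes outside `S` -/
def IsGen (S : Finset (Prm F)) (g : Ideal (𝓞 F) → 𝓞 F) : Prop :=
  ∀ I : Ideal (𝓞 F), I ≠ ⊥ → g I ≠ 0 ∧ ∀ q : Prm F, q ∉ S → ∀ k : ℕ, g I ∈ q.asIdeal ^ k ↔ I ≤ q.asIdeal ^ k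

/-- `q ∉ S` and all units outside `S` are `e`-th power residues modulo `q` -/
def PP (e : ℕ) (S : Finset (Prm F)) (q : Prm F) : Prop :=
  q ∉ S ∧ ∀ x : 𝓞 F, IsSU S x → ∃ y : 𝓞 F, x - y ^ e ∈ q.asIdeal

/-- `q` does not divide `I` and `g I` is an `e`-th power residue modulo `q` -/
def Res (e : ℕ) (g : Ideal (𝓞 F) → 𝓞 F) (q : Prm F) (I : Ideal (𝓞 F)) : Prop :=
  g I ∉ q.asIdeal ∧ ∃ x : 𝓞 F, g I - x ^ e ∈ q.asIdeal

/-- the number of the nonzero ideals in `B` with norm at most `x` -/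
noncomputable def cnt (B : Set (Ideal (𝓞 F))) (x : ℝ) : ℕ :=
  Set.ncard {I : Ideal (𝓞 F) | I ∈ B ∧ I ≠ ⊥ ∧ (Ideal.absNorm I : ℝ) ≤ x}

/-- the number of the ideals in `B` with norm at most `x` is asymptotic to `κ x` -/
def HasDens (B : Set (Ideal (𝓞 F))) (κ : ℝ) : Prop := Tendsto (fun x : ℝ => (cnt B x : ℝ) / x) atTop (𝓝 κ)

/-- the tuples of nonzero ideals `T i ∈ B i` with product of norms at most `X` -/
def tup {ι : Type} [Fintype ι] (B : ι → Set (Ideal (𝓞 F))) (X : ℝ) : Set (ι → Ideal (𝓞 F)) :=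
  {T | (∀ i, T i ∈ B i ∧ T i ≠ ⊥) ∧ ∏ i, (Ideal.absNorm (T i) : ℝ) ≤ X}

/-- the tuples of ideals prime to `S` with product of norms at most `X` -/
def TT (ι : Type) [Fintype ι] (S : Finset (Prm F)) (X : ℝ) : Set (ι → Ideal (𝓞 F)) := tup (fun _ => {I | Cop S I}) X

/-- `q` divides `T v` exactly once, and the other `T w` are prime to `q` and have `e`-th power residues as generators -/
def EvT {ι : Type} (e : ℕ) (g : Ideal (𝓞 F) → 𝓞 F) (v : ι) (T : ι → Ideal (𝓞 F)) (q : Prm F) : Prop :=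
  T v ≤ q.asIdeal ∧ ¬ T v ≤ q.asIdeal ^ 2 ∧ ∀ w, w ≠ v → Res e g q (T w)

/-- for every `v` there are at least `k` primes with `EvT` -/
def RichT {ι : Type} (e : ℕ) (S : Finset (Prm F)) (g : Ideal (𝓞 F) → 𝓞 F) (k : ℕ) (T : ι → Ideal (𝓞 F)) : Prop :=
  ∀ v : ι, ∃ A : Finset (Prm F), k ≤ A.card ∧ ∀ q ∈ A, PP e S q ∧ EvT e g v T q

/-- squarefree and pairwise coprime -/
def SqT {ι : Type} (T : ι → Ideal (𝓞 F)) : Prop :=
  (∀ (i : ι) (q : Prm F), ¬ T i ≤ q.asIdeal ^ 2) ∧ ∀ i j : ι, i ≠ j → ∀ q : Prm F, T i ≤ q.asIdeal → ¬ T j ≤ q.asIdeal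

end

section

variable {F : Type} [Field F] [NumberField F] {m : ℕ}

/-- the nonzero elements of `∏ ℤ/n_i` -/
abbrev W (n : Fin m → ℕ) : Type := {v : V n // v ≠ 0}

/-- `b_0 = 1`, `b_v = ε_v g(T_v)` for `v ≠ 0` -/
noncomputable def bOf {n : Fin m → ℕ} (g : Ideal (𝓞 F) → 𝓞 F) (ε : V n → 𝓞 F) (T : W n → Ideal (𝓞 F)) : V n → 𝓞 F :=
  fun v => open Classical in if h : v ≠ 0 then ε v * g (T ⟨v, h⟩) else 1

end

end StarkR
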