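import Pool.Agent.Lib.MP_d9bae3_nt.NA.Coset
import Pool.Agent.Lib.MP_d9bae3_nt.NA.NBase

/-!
# Module SNA-Cone: integers in the fundamental cone with prescribed residues

Plan.  As in the proof of `NumberField.Ideal.tendsto_norm_le_and_mk_eq_div_atTop` (Mathlib/NumberTheory/NumberField/Ideal/Asymptotics.lean), with the lattice
`ZLattice.comap ℝ (mixedEmbedding.idealLattice F (FractionalIdeal.mk0 F 𝔫)) (toMixed F)` of covolume `N(𝔫) · covolume(𝓞 F)` (`covolume_idealLattice`) and `coset_count` for the translate by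
the image of a representative of each residue class `r ∈ R` (a finite set); `κ = vol (normLeOne F) / covolume`, which does not depend on `𝔫` and is positive (`volume_normLeOne`, regulator > 0).
`mixedEmbedding.norm (mixedEmbedding F β) = |N(β)| = absNorm (span {β})`.
-/

namespace StarkR

open NumberField IsDedekindDomain Filter Topology

section aux

open InfinitePlace mixedEmbedding euclidean fundamentalCone Submodule MeasureTheory Module
open scoped nonZeroDivisors Real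

private theorem Cone_norm (F : Type) [Field F] [NumberField F] (β : 𝓞 F) :
    mixedEmbedding.norm (mixedEmbedding F (β : F)) = (Ideal.absNorm (Ideal.span {β}) : ℝ) := by
  rw [mixedEmbedding.norm_eq_norm, Ideal.absNorm_span_singleton, ← Algebra.coe_norm_int, Nat.cast_natAbs]
  push_cast
  rfl

private noncomputable def coneK (F : Type) [Field F] [NumberField F] : ℝ :=
  (2 ^ nrRealPlaces F * Real.pi ^ nrComplexPlaces F * Units.regulator F) /
    ((2 : ℝ)⁻¹ ^ nrComplexPlaces F * Real.sqrt |(discr F : ℝ)|)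

private theorem coneK_pos (F : Type) [Field F] [NumberField F] : 0 < coneK F := by
  have h3 : 0 < |(discr F : ℝ)| := by
    rw [abs_pos]
    exact_mod_cast discr_ne_zero F
  have h4 := Real.sqrt_pos.2 h3
  have h2 := Units.regulator_pos F
  have h5 := Real.pi_pos
  unfold coneK
  positivity

private theorem Cone_class (F : Type) [Field F] [NumberField F] (𝔫 : Ideal (𝓞 F)) (h𝔫 : 𝔫 ≠ ⊥) (b : 𝓞 F) :
    Tendsto (fun s : ℝ => (Nat.card {β : 𝓞 F // (mixedEmbedding F (β : F) ∈ fundamentalCone F ∧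
        (Ideal.absNorm (Ideal.span {β}) : ℝ) ≤ s) ∧ β - b ∈ 𝔫} : ℝ) / s) atTop
        (𝓝 (coneK F / (Ideal.absNorm 𝔫 : ℝ))) := by
  classical
  set J : (Ideal (𝓞 F))⁰ := ⟨𝔫, mem_nonZeroDivisors_of_ne_zero h𝔫⟩ with hJ
  have h₁ : ∀ s : ℝ,
    {x | x ∈ toMixed F ⁻¹' fundamentalCone F ∧ mixedEmbedding.norm (toMixed F x) ≤ s} =
      toMixed F ⁻¹' {x | x ∈ fundamentalCone F ∧ mixedEmbedding.norm x ≤ s} := fun _ ↦ rfl
  have h₂ : {x | x ∈ fundamentalCone F ∧ mixedEmbedding.norm x ≤ 1} = normLeOne F := by ext; simp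
  have key := coset_count
    (ZLattice.comap ℝ (mixedEmbedding.idealLattice F (FractionalIdeal.mk0 F J)) (toMixed F).toLinearMap)
    (f := fun x ↦ mixedEmbedding.norm (toMixed F x)) (X := (toMixed F) ⁻¹' (fundamentalCone F))
    (fun x r hx h ↦ by rwa [Set.mem_preimage, map_smul, smul_mem_iff_mem h.ne'])
    (fun x r h ↦ by rw [map_smul, mixedEmbedding.norm_smul, euclidean.finrank, abs_of_nonneg h])
    ((toMixed F).antilipschitz.isBounded_preimage (isBounded_normLeOne F) |>.subset (by rw [h₁, h₂]))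
    (by rw [h₁, h₂]; exact (toMixed F).continuous.measurable (measurableSet_normLeOne F))
    (by rw [h₁, ← (toMixed F).coe_toHomeomorph, ← Homeomorph.preimage_frontier,
      (toMixed F).coe_toHomeomorph, (volumePreserving_toMixed F).measure_preimage
      measurableSet_frontier.nullMeasurableSet, h₂, volume_frontier_normLeOne])
    ((toMixed F).symm (mixedEmbedding F (b : F)))
  have hval : volume.real {x | x ∈ toMixed F ⁻¹' fundamentalCone F ∧ mixedEmbedding.norm (toMixed F x) ≤ 1} /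
      ZLattice.covolume (ZLattice.comap ℝ (mixedEmbedding.idealLattice F (FractionalIdeal.mk0 F J)) (toMixed F).toLinearMap) =
        coneK F / (Ideal.absNorm 𝔫 : ℝ) := by
    rw [h₁, h₂, MeasureTheory.measureReal_def, (volumePreserving_toMixed F).measure_preimage
      (measurableSet_normLeOne F).nullMeasurableSet, volume_normLeOne, ZLattice.covolume_comap
      _ _ _ (volumePreserving_toMixed F), covolume_idealLattice, ENNReal.toReal_mul,
      ENNReal.toReal_mul, ENNReal.toReal_pow, ENNReal.toReal_pow, ENNReal.toReal_ofNat,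
      ENNReal.coe_toReal, NNReal.coe_real_pi, ENNReal.toReal_ofReal (Units.regulator_pos F).le,
      FractionalIdeal.coe_mk0, FractionalIdeal.coeIdeal_absNorm, Rat.cast_natCast, coneK, div_div]
    congr 1
    simp only [hJ]
    ring
  rw [hval] at key
  refine key.congr fun s => ?_
  have hmem : ∀ β : {β : 𝓞 F // (mixedEmbedding F (β : F) ∈ fundamentalCone F ∧
        (Ideal.absNorm (Ideal.span {β}) : ℝ) ≤ s) ∧ β - b ∈ 𝔫}, (toMixed F).symm (mixedEmbedding F (β.1 : F)) ∈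
        ({x | x ∈ toMixed F ⁻¹' fundamentalCone F ∧ mixedEmbedding.norm (toMixed F x) ≤ s} ∩
          {x | x - (toMixed F).symm (mixedEmbedding F (b : F)) ∈
            ZLattice.comap ℝ (mixedEmbedding.idealLattice F (FractionalIdeal.mk0 F J)) (toMixed F).toLinearMap}) := by
    rintro ⟨β, ⟨hβ1, hβ2⟩, hβ3⟩
    refine ⟨⟨?_, ?_⟩, ?_⟩
    · simpa using hβ1
    · rw [ContinuousLinearEquiv.apply_symm_apply, Cone_norm]
      exact hβ2
    · rw [Set.mem_ofPred_eq, ← map_sub, ← map_sub]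
      change (toMixed F) ((toMixed F).symm (mixedEmbedding F ((β : F) - (b : F)))) ∈
        mixedEmbedding.idealLattice F (FractionalIdeal.mk0 F J)
      rw [ContinuousLinearEquiv.apply_symm_apply, mem_idealLattice]
      refine ⟨(β : F) - (b : F), ?_, rfl⟩
      rw [FractionalIdeal.coe_mk0]
      exact (FractionalIdeal.mem_coeIdeal _).2 ⟨β - b, hβ3, by simp⟩
  congr 2
  refine (Nat.card_congr (Equiv.ofBijective (fun β => ⟨(toMixed F).symm (mixedEmbedding F (β.1 : F)), hmem β⟩) ⟨?_, ?_⟩)).symm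
  · rintro ⟨β, hβ⟩ ⟨β', hβ'⟩ h
    have h1 := (toMixed F).symm.injective (Subtype.ext_iff.1 h)
    have h2 := mixedEmbedding_injective F h1
    exact Subtype.ext (RingOfIntegers.ext h2)
  · rintro ⟨x, ⟨hx1, hx2⟩, hx3⟩
    have hx4 : (toMixed F) (x - (toMixed F).symm (mixedEmbedding F (b : F))) ∈
      mixedEmbedding.idealLattice F (FractionalIdeal.mk0 F J) := hx3
    rw [map_sub, ContinuousLinearEquiv.apply_symm_apply, mem_idealLattice] at hx4
    obtain ⟨y, hy, hy2⟩ := hx4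
    rw [FractionalIdeal.coe_mk0] at hy
    obtain ⟨a, ha, rfl⟩ := (FractionalIdeal.mem_coeIdeal _).1 hy
    have hx5 : toMixed F x = mixedEmbedding F (((b + a : 𝓞 F)) : F) := by
      have e : ((b + a : 𝓞 F) : F) = algebraMap (𝓞 F) F a + (b : F) := by
        rw [add_comm]
        exact map_add (algebraMap (𝓞 F) F) a b
      rw [e, map_add]
      exact eq_add_of_sub_eq hy2.symm
    refine ⟨⟨b + a, ⟨?_, ?_⟩, ?_⟩, ?_⟩
    · rw [← hx5]
      exact hx1
    · rw [← Cone_norm, ← hx5]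
      exact hx2
    · rw [add_sub_cancel_left]
      exact ha
    · apply Subtype.ext
      change (toMixed F).symm (mixedEmbedding F ((b + a : 𝓞 F) : F)) = x
      rw [← hx5, ContinuousLinearEquiv.symm_apply_apply]

end aux

theorem cone_count (F : Type) [Field F] [NumberField F] : ∃ κ : ℝ, 0 < κ ∧
    ∀ (𝔫 : Ideal (𝓞 F)), 𝔫 ≠ ⊥ → ∀ R : Set (𝓞 F ⧸ 𝔫),
      Tendsto (fun s : ℝ => (Nat.card {β : 𝓞 F // mixedEmbedding F (β : F) ∈ mixedEmbedding.fundamentalCone F ∧
        (Ideal.absNorm (Ideal.span {β}) : ℝ) ≤ s ∧ Ideal.Quotient.mk 𝔫 β ∈ R} : ℝ) / s) atTop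
        (𝓝 (κ * (R.ncard : ℝ) / (Ideal.absNorm 𝔫 : ℝ))) := by
  classical
  refine ⟨coneK F, coneK_pos F, ?_⟩
  intro 𝔫 h𝔫 R
  have hfin : Finite (𝓞 F ⧸ 𝔫) := Ideal.finiteQuotientOfFreeOfNeBot 𝔫 h𝔫
  have hfR : Fintype R := Fintype.ofFinite R
  have hN : 0 < (Ideal.absNorm 𝔫 : ℝ) := by
    exact_mod_cast Nat.pos_of_ne_zero (mt Ideal.absNorm_eq_zero_iff.1 h𝔫)
  let ρ : 𝓞 F ⧸ 𝔫 → 𝓞 F := fun r => (Ideal.Quotient.mk_surjective r).choose
  have hρ : ∀ r, Ideal.Quotient.mk 𝔫 (ρ r) = r := fun r => (Ideal.Quotient.mk_surjective r).choose_spec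
  have hev : ∀ r : R, ∀ᶠ s : ℝ in atTop, Finite {β : 𝓞 F // (mixedEmbedding F (β : F) ∈ mixedEmbedding.fundamentalCone F ∧
        (Ideal.absNorm (Ideal.span {β}) : ℝ) ≤ s) ∧ β - ρ r ∈ 𝔫} := by
    intro r
    have h := Cone_class F 𝔫 h𝔫 (ρ r)
    filter_upwards [h.eventually (lt_mem_nhds (div_pos (coneK_pos F) hN))] with s hs
    apply Nat.finite_of_card_ne_zero
    intro h0
    rw [h0] at hs
    simp at hs
  have hsum := tendsto_finsetSum (Finset.univ : Finset R) (fun r _ => Cone_class F 𝔫 h𝔫 (ρ r))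
  have hR : (R.ncard : ℝ) = (Finset.univ : Finset R).card := by
    rw [Finset.card_univ, ← Nat.card_eq_fintype_card]
    rfl
  have hval : coneK F * (R.ncard : ℝ) / (Ideal.absNorm 𝔫 : ℝ) =
      ∑ _r : R, coneK F / (Ideal.absNorm 𝔫 : ℝ) := by
    rw [Finset.sum_const, nsmul_eq_mul, ← hR]
    ring
  rw [hval]
  refine hsum.congr' ?_
  filter_upwards [Filter.eventually_all.2 hev] with s hs
  rw [← Finset.sum_div, ← Nat.cast_sum]
  congr 2
  have hs' : ∀ r : R, Finite {β : 𝓞 F // (mixedEmbedding F (β : F) ∈ mixedEmbedding.fundamentalCone F ∧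
        (Ideal.absNorm (Ideal.span {β}) : ℝ) ≤ s) ∧ β - ρ r ∈ 𝔫} := hs
  rw [← Nat.card_sigma]
  refine Nat.card_congr ?_
  refine
    { toFun := fun x => ⟨x.2.1, x.2.2.1.1, x.2.2.1.2, ?_⟩
      invFun := fun x => ⟨⟨Ideal.Quotient.mk 𝔫 x.1, x.2.2.2⟩, ⟨x.1, ⟨x.2.1, x.2.2.1⟩, ?_⟩⟩
      left_inv := ?_
      right_inv := ?_ }
  · have h := (Ideal.Quotient.eq (I := 𝔫)).2 x.2.2.2
    rw [h, hρ]
    exact x.1.2
  · exact (Ideal.Quotient.eq (I := 𝔫)).1 (hρ _).symm
  · rintro ⟨⟨r, hr⟩, ⟨β, ⟨h1, h2⟩, h3⟩⟩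
    have h : Ideal.Quotient.mk 𝔫 β = r := by
      have h := (Ideal.Quotient.eq (I := 𝔫)).2 h3
      rw [h, hρ]
    subst h
    rfl
  · rintro ⟨β, h1, h2, h3⟩
    rfl

end StarkR
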