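import Mathlib

/-!
# Module SNA-Conv: convolution of counting functions (pure real analysis)

`G(x) = ∑_{1 ≤ d ≤ x} f(d) ~ κ x` and `H(y) ~ c y (log y)^j`, `H` nonnegative and monotone, `f ≥ 0`.  Then `∑_{1 ≤ d ≤ x} f(d) H(x/d) ~ (κ c/(j+1)) x (log x)^(j+1)`.
Plan A.  Fix `λ > 1` close to `1`; split `[1, x]` into the blocks `(x λ^(-i-1), x λ^(-i)]`, `0 ≤ i < I ≈ log x / log λ`.  On a block `H(λ^i) ≤ H(x/d) ≤ H(λ^(i+1))` and the sum of the `f(d)`
is `G(x λ^(-i)) - G(x λ^(-i-1)) = κ (1 - 1/λ) x λ^(-i) + o(x λ^(-i))` when `x λ^(-i)` is large; so the total is between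
`(1 ∓ ε) κ c (1 - 1/λ) λ^(±1) x ∑_{i ≤ I} (i log λ)^j`, and `∑_{i ≤ I} i^j ~ I^(j+1)/(j+1)`, `(1 - 1/λ)/log λ → 1` as `λ → 1`.  The boundedly many blocks with `i` small or `x λ^(-i)` small contribute `O(x (log x)^j)`
(`H(y) ≤ C y (1 + log y)^j` for `y ≥ 1`, `G(x) ≤ C x`).
Plan B.  (1) by Abel summation `∑_{d ≤ x} (f(d)/d) (log(x/d))^j ~ κ (log x)^(j+1)/(j+1)` (it is `∫_1^x G(t) t^(-2) (log(x/t))^j (1 + j/log(x/t)) dt` plus a boundary term); (2) replace `H(x/d)` by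
`c (x/d) (log(x/d))^j` with relative error `ε` for `x/d ≥ Y`, and bound the terms with `x/d < Y` by `H(Y) G(x) = O(x)`, `(log x)^(j+1) → ∞`.
-/

namespace StarkR

open Filter Topology

/-- `∑_{1 ≤ n ≤ x} f n` -/
noncomputable def ssum (f : ℕ → ℝ) (x : ℝ) : ℝ := ∑ n ∈ Finset.Icc 1 ⌊x⌋₊, f n

private theorem conv_err {D A B : ℝ → ℝ} {a : ℝ} (hA : Tendsto A atTop (𝓝 a)) (hB : Tendsto B atTop (𝓝 0))
    (h : ∀ ε : ℝ, 0 < ε → ∃ C : ℝ, ∀ᶠ x in atTop, |D x| ≤ ε * A x + C * B x) : Tendsto D atTop (𝓝 0) := by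
  rw [Metric.tendsto_nhds]
  intro η hη
  have ha : 0 < |a| + 1 := by positivity
  obtain ⟨C, hC⟩ := h (η / (2 * (|a| + 1))) (by positivity)
  have hlim : Tendsto (fun x => η / (2 * (|a| + 1)) * A x + C * B x) atTop
      (𝓝 (η / (2 * (|a| + 1)) * a + C * 0)) := (hA.const_mul _).add (hB.const_mul _)
  have hlt : η / (2 * (|a| + 1)) * a + C * 0 < η := by
    have h1 : η / (2 * (|a| + 1)) * a ≤ η / (2 * (|a| + 1)) * (|a| + 1) := by
      apply mul_le_mul_of_nonneg_left _ (by positivity)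
      linarith [le_abs_self a]
    have h2 : η / (2 * (|a| + 1)) * (|a| + 1) = η / 2 := by
      field_simp
    linarith
  filter_upwards [hC, hlim.eventually_lt_const hlt] with x h1 h2
  rw [Real.dist_eq, sub_zero]
  linarith

private theorem conv_abel {N : ℕ} {s φ : ℕ → ℝ} (hs : ∀ n ≤ N, 0 ≤ ∑ k ∈ Finset.Icc 1 n, s k)
    (hφ : ∀ k, 1 ≤ k → k + 1 ≤ N → φ (k + 1) ≤ φ k) (h0 : ∀ k, 0 ≤ φ k) :
    0 ≤ ∑ k ∈ Finset.Icc 1 N, s k * φ k := by
  have key : ∀ n ≤ N, (∑ k ∈ Finset.Icc 1 n, s k) * φ n ≤ ∑ k ∈ Finset.Icc 1 n, s k * φ k := by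
    intro n
    induction n with
    | zero => intro _; simp
    | succ n ih =>
      intro hn
      rw [Finset.sum_Icc_succ_top (by omega), Finset.sum_Icc_succ_top (by omega), add_mul]
      have h1 : (∑ k ∈ Finset.Icc 1 n, s k) * φ (n + 1) ≤ (∑ k ∈ Finset.Icc 1 n, s k) * φ n := by
        rcases Nat.eq_zero_or_pos n with h | h
        · subst h; simp
        · exact mul_le_mul_of_nonneg_left (hφ n h hn) (hs n (by omega))
      linarith [ih (by omega)]
  exact le_trans (mul_nonneg (hs N le_rfl) (h0 N)) (key N le_rfl)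

private theorem conv_pow_le {a b : ℝ} (hb : 0 ≤ b) (hab : b ≤ a) (j : ℕ) :
    ((j : ℝ) + 1) * b ^ j * (a - b) ≤ a ^ (j + 1) - b ^ (j + 1) ∧
      a ^ (j + 1) - b ^ (j + 1) ≤ ((j : ℝ) + 1) * a ^ j * (a - b) := by
  have ha : 0 ≤ a := hb.trans hab
  have hd : 0 ≤ a - b := by linarith
  induction j with
  | zero => simp
  | succ j ih =>
    have e : a ^ (j + 1 + 1) - b ^ (j + 1 + 1) = a * (a ^ (j + 1) - b ^ (j + 1)) + b ^ (j + 1) * (a - b) := by ring
    have hp : b ^ (j + 1) ≤ a ^ (j + 1) := pow_le_pow_left₀ hb hab _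
    constructor
    · rw [e]
      have h1 : b * (a ^ (j + 1) - b ^ (j + 1)) ≤ a * (a ^ (j + 1) - b ^ (j + 1)) :=
        mul_le_mul_of_nonneg_right hab (by linarith)
      have h2 : b * (((j : ℝ) + 1) * b ^ j * (a - b)) ≤ b * (a ^ (j + 1) - b ^ (j + 1)) :=
        mul_le_mul_of_nonneg_left ih.1 hb
      push_cast
      calc ((j : ℝ) + 1 + 1) * b ^ (j + 1) * (a - b)
          = b * (((j : ℝ) + 1) * b ^ j * (a - b)) + b ^ (j + 1) * (a - b) := by ring
        _ ≤ _ := by linarith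
    · rw [e]
      have h1 : a * (a ^ (j + 1) - b ^ (j + 1)) ≤ a * (((j : ℝ) + 1) * a ^ j * (a - b)) :=
        mul_le_mul_of_nonneg_left ih.2 ha
      have h2 : b ^ (j + 1) * (a - b) ≤ a ^ (j + 1) * (a - b) := mul_le_mul_of_nonneg_right hp hd
      push_cast
      calc _ ≤ a * (((j : ℝ) + 1) * a ^ j * (a - b)) + a ^ (j + 1) * (a - b) := by linarith
        _ = ((j : ℝ) + 1 + 1) * a ^ (j + 1) * (a - b) := by ring

private theorem conv_log_step {x : ℝ} (hx : 1 ≤ x) {n : ℕ} (hn : 1 ≤ n) :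
    1 / ((n : ℝ) + 1) ≤ Real.log (x / n) - Real.log (x / (n + 1)) ∧
      Real.log (x / n) - Real.log (x / (n + 1)) ≤ 1 / (n : ℝ) := by
  have hn0 : (0 : ℝ) < n := by exact_mod_cast hn
  have hx0 : 0 < x := by linarith
  have e : Real.log (x / n) - Real.log (x / (n + 1)) = Real.log (((n : ℝ) + 1) / n) := by
    rw [Real.log_div hx0.ne' hn0.ne', Real.log_div hx0.ne' (by positivity),
      Real.log_div (by positivity) hn0.ne']
    ring
  rw [e]
  constructor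
  · have h := Real.one_sub_inv_le_log_of_pos (x := ((n : ℝ) + 1) / n) (by positivity)
    refine le_trans (le_of_eq ?_) h
    field_simp
    ring
  · have h := Real.log_le_sub_one_of_pos (x := ((n : ℝ) + 1) / n) (by positivity)
    refine le_trans h (le_of_eq ?_)
    field_simp
    ring

/-- `∑_{1 ≤ n ≤ x} (log (x/n))^j / n` -/
private noncomputable def tsumL (j : ℕ) (x : ℝ) : ℝ := ∑ n ∈ Finset.Icc 1 ⌊x⌋₊, Real.log (x / n) ^ j / n

private theorem tsumL_bounds (j : ℕ) {x : ℝ} (hx : 1 ≤ x) :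
    (Real.log x ^ (j + 1) - 1) / ((j : ℝ) + 1) ≤ tsumL j x ∧
      tsumL j x ≤ Real.log x ^ j + Real.log x ^ (j + 1) / ((j : ℝ) + 1) := by
  have hx0 : 0 < x := by linarith
  have hj : (0 : ℝ) < (j : ℝ) + 1 := by positivity
  have hlog : ∀ n : ℕ, 1 ≤ n → (n : ℝ) ≤ x → 0 ≤ Real.log (x / n) := by
    intro n hn hnx
    have hn0 : (0 : ℝ) < n := by exact_mod_cast hn
    apply Real.log_nonneg
    rw [le_div_iff₀ hn0]
    linarith
  have key : ∀ n : ℕ, 1 ≤ n → (n : ℝ) ≤ x →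
      (Real.log x ^ (j + 1) - Real.log (x / n) ^ (j + 1)) / ((j : ℝ) + 1) + Real.log (x / n) ^ j / n ≤
        ∑ k ∈ Finset.Icc 1 n, Real.log (x / k) ^ j / k ∧
      ∑ k ∈ Finset.Icc 1 n, Real.log (x / k) ^ j / k ≤
        Real.log x ^ j + (Real.log x ^ (j + 1) - Real.log (x / n) ^ (j + 1)) / ((j : ℝ) + 1) := by
    intro n hn
    induction n, hn using Nat.le_induction with
    | base =>
      intro _
      simp
    | succ n hn ih =>
      intro hnx
      push_cast at hnx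
      have hn0 : (0 : ℝ) < n := by exact_mod_cast hn
      obtain ⟨i1, i2⟩ := ih (by linarith)
      rw [Finset.sum_Icc_succ_top (by omega)]
      push_cast
      have hb : 0 ≤ Real.log (x / ((n : ℝ) + 1)) := by
        have := hlog (n + 1) (by omega) (by push_cast; exact hnx)
        push_cast at this
        exact this
      obtain ⟨s1, s2⟩ := conv_log_step hx hn
      have hab : Real.log (x / ((n : ℝ) + 1)) ≤ Real.log (x / n) := by
        have : 0 ≤ 1 / ((n : ℝ) + 1) := by positivity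
        linarith
      have ha : 0 ≤ Real.log (x / n) := hb.trans hab
      obtain ⟨p1, p2⟩ := conv_pow_le hb hab j
      set a := Real.log (x / n) with hadef
      set b := Real.log (x / ((n : ℝ) + 1)) with hbdef
      have q1 : b ^ j / ((n : ℝ) + 1) ≤ (a ^ (j + 1) - b ^ (j + 1)) / ((j : ℝ) + 1) := by
        rw [le_div_iff₀ hj]
        refine le_trans ?_ p1
        have : b ^ j * (1 / ((n : ℝ) + 1)) ≤ b ^ j * (a - b) := mul_le_mul_of_nonneg_left s1 (by positivity)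
        calc b ^ j / ((n : ℝ) + 1) * ((j : ℝ) + 1) = ((j : ℝ) + 1) * (b ^ j * (1 / ((n : ℝ) + 1))) := by ring
          _ ≤ ((j : ℝ) + 1) * (b ^ j * (a - b)) := mul_le_mul_of_nonneg_left this hj.le
          _ = _ := by ring
      have q2 : (a ^ (j + 1) - b ^ (j + 1)) / ((j : ℝ) + 1) ≤ a ^ j / (n : ℝ) := by
        rw [div_le_iff₀ hj]
        refine le_trans p2 ?_
        have : a ^ j * (a - b) ≤ a ^ j * (1 / (n : ℝ)) := mul_le_mul_of_nonneg_left s2 (by positivity)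
        calc ((j : ℝ) + 1) * a ^ j * (a - b) = ((j : ℝ) + 1) * (a ^ j * (a - b)) := by ring
          _ ≤ ((j : ℝ) + 1) * (a ^ j * (1 / (n : ℝ))) := mul_le_mul_of_nonneg_left this hj.le
          _ = _ := by ring
      have e1 : (Real.log x ^ (j + 1) - b ^ (j + 1)) / ((j : ℝ) + 1) =
          (Real.log x ^ (j + 1) - a ^ (j + 1)) / ((j : ℝ) + 1) + (a ^ (j + 1) - b ^ (j + 1)) / ((j : ℝ) + 1) := by
        ring
      constructor
      · rw [e1]
        linarith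
      · rw [e1]
        linarith
  have hN1 : 1 ≤ ⌊x⌋₊ := Nat.le_floor (by rw [Nat.cast_one]; exact hx)
  have hNx : ((⌊x⌋₊ : ℕ) : ℝ) ≤ x := Nat.floor_le hx0.le
  obtain ⟨k1, k2⟩ := key ⌊x⌋₊ hN1 hNx
  have hN0 : (0 : ℝ) < ((⌊x⌋₊ : ℕ) : ℝ) := by exact_mod_cast hN1
  have hlN : 0 ≤ Real.log (x / ((⌊x⌋₊ : ℕ) : ℝ)) := hlog _ hN1 hNx
  have hlN1 : Real.log (x / ((⌊x⌋₊ : ℕ) : ℝ)) ≤ 1 := by
    have h1 : x / ((⌊x⌋₊ : ℕ) : ℝ) ≤ 2 := by
      rw [div_le_iff₀ hN0]
      have h2 := Nat.lt_floor_add_one x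
      have h3 : (1 : ℝ) ≤ ((⌊x⌋₊ : ℕ) : ℝ) := by exact_mod_cast hN1
      linarith
    have h2 := Real.log_le_sub_one_of_pos (x := x / ((⌊x⌋₊ : ℕ) : ℝ)) (by positivity)
    linarith
  have hp1 : Real.log (x / ((⌊x⌋₊ : ℕ) : ℝ)) ^ (j + 1) ≤ 1 := pow_le_one₀ hlN hlN1
  have hp0 : 0 ≤ Real.log (x / ((⌊x⌋₊ : ℕ) : ℝ)) ^ (j + 1) := by positivity
  constructor
  · refine le_trans ?_ k1
    have h1 : (Real.log x ^ (j + 1) - 1) / ((j : ℝ) + 1) ≤
        (Real.log x ^ (j + 1) - Real.log (x / ((⌊x⌋₊ : ℕ) : ℝ)) ^ (j + 1)) / ((j : ℝ) + 1) := by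
      apply div_le_div_of_nonneg_right _ hj.le
      linarith
    have h2 : 0 ≤ Real.log (x / ((⌊x⌋₊ : ℕ) : ℝ)) ^ j / ((⌊x⌋₊ : ℕ) : ℝ) := by positivity
    linarith
  · refine le_trans k2 ?_
    have h1 : (Real.log x ^ (j + 1) - Real.log (x / ((⌊x⌋₊ : ℕ) : ℝ)) ^ (j + 1)) / ((j : ℝ) + 1) ≤
        Real.log x ^ (j + 1) / ((j : ℝ) + 1) := by
      apply div_le_div_of_nonneg_right _ hj.le
      linarith
    linarith

private theorem tsumL_tendsto (j : ℕ) :
    Tendsto (fun x : ℝ => tsumL j x / Real.log x ^ (j + 1)) atTop (𝓝 (1 / ((j : ℝ) + 1))) := by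
  have hlog : Tendsto (fun x : ℝ => (Real.log x)⁻¹) atTop (𝓝 0) := tendsto_inv_atTop_zero.comp Real.tendsto_log_atTop
  have hj : (0 : ℝ) < (j : ℝ) + 1 := by positivity
  have hlo : Tendsto (fun x : ℝ => (1 - (Real.log x)⁻¹ ^ (j + 1)) / ((j : ℝ) + 1)) atTop (𝓝 (1 / ((j : ℝ) + 1))) := by
    have h := ((tendsto_const_nhds (x := (1 : ℝ))).sub (hlog.pow (j + 1))).div_const ((j : ℝ) + 1)
    simpa using h
  have hhi : Tendsto (fun x : ℝ => (Real.log x)⁻¹ + 1 / ((j : ℝ) + 1)) atTop (𝓝 (1 / ((j : ℝ) + 1))) := by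
    have h := hlog.add (tendsto_const_nhds (x := 1 / ((j : ℝ) + 1)))
    simpa using h
  refine tendsto_of_tendsto_of_tendsto_of_le_of_le' hlo hhi ?_ ?_
  · filter_upwards [eventually_gt_atTop (1 : ℝ)] with x hx
    have hL : 0 < Real.log x := Real.log_pos hx
    rw [le_div_iff₀ (by positivity)]
    refine le_trans (le_of_eq ?_) (tsumL_bounds j hx.le).1
    rw [inv_pow]
    field_simp
  · filter_upwards [eventually_gt_atTop (1 : ℝ)] with x hx
    have hL : 0 < Real.log x := Real.log_pos hx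
    rw [div_le_iff₀ (by positivity)]
    refine le_trans (tsumL_bounds j hx.le).2 (le_of_eq ?_)
    field_simp
    ring

/-- the bound for `H` -/
private theorem conv_H {H : ℝ → ℝ} (hH0 : ∀ y, 0 ≤ H y) (hHm : Monotone H) {c : ℝ} {j : ℕ}
    (h2 : Tendsto (fun x : ℝ => H x / (x * Real.log x ^ j)) atTop (𝓝 c)) {ε : ℝ} (hε : 0 < ε) :
    ∃ C : ℝ, 0 ≤ C ∧ ∀ y : ℝ, 1 ≤ y → |H y - c * (y * Real.log y ^ j)| ≤ ε * (y * Real.log y ^ j) + C := by
  have h3 := (Metric.tendsto_nhds.1 h2 ε hε).and (eventually_gt_atTop (1 : ℝ))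
  obtain ⟨Y, hY⟩ := eventually_atTop.1 h3
  have hY1 : 1 < max Y 2 := lt_of_lt_of_le one_lt_two (le_max_right _ _)
  have hLY : 0 < Real.log (max Y 2) := Real.log_pos hY1
  refine ⟨H (max Y 2) + |c| * (max Y 2 * Real.log (max Y 2) ^ j), ?_, ?_⟩
  · have := hH0 (max Y 2)
    have h4 : 0 < max Y 2 := by linarith
    positivity
  · intro y hy
    have hLy : 0 ≤ Real.log y := Real.log_nonneg hy
    have hy0 : 0 < y := by linarith
    rcases le_or_gt (max Y 2) y with hle | hlt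
    · obtain ⟨hd, hy1⟩ := hY y ((le_max_left _ _).trans hle)
      rw [Real.dist_eq] at hd
      have hL : 0 < Real.log y := Real.log_pos hy1
      have hp : 0 < y * Real.log y ^ j := by positivity
      have e : H y - c * (y * Real.log y ^ j) = (H y / (y * Real.log y ^ j) - c) * (y * Real.log y ^ j) := by
        field_simp
      rw [e, abs_mul, abs_of_pos hp]
      have h4 : |H y / (y * Real.log y ^ j) - c| * (y * Real.log y ^ j) ≤ ε * (y * Real.log y ^ j) :=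
        mul_le_mul_of_nonneg_right hd.le hp.le
      have h5 := hH0 (max Y 2)
      have h6 : 0 ≤ |c| * (max Y 2 * Real.log (max Y 2) ^ j) := by
        have h7 : 0 < max Y 2 := by linarith
        positivity
      linarith
    · have h4 : |H y - c * (y * Real.log y ^ j)| ≤ H y + |c| * (y * Real.log y ^ j) := by
        refine le_trans (abs_sub _ _) ?_
        rw [abs_of_nonneg (hH0 y), abs_mul, abs_of_nonneg (by positivity : 0 ≤ y * Real.log y ^ j)]
      have h5 : H y ≤ H (max Y 2) := hHm hlt.le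
      have h6 : y * Real.log y ^ j ≤ max Y 2 * Real.log (max Y 2) ^ j := by
        apply mul_le_mul hlt.le _ (by positivity) (by linarith)
        exact pow_le_pow_left₀ hLy (Real.log_le_log hy0 hlt.le) j
      have h7 : |c| * (y * Real.log y ^ j) ≤ |c| * (max Y 2 * Real.log (max Y 2) ^ j) :=
        mul_le_mul_of_nonneg_left h6 (abs_nonneg c)
      have h8 : 0 ≤ ε * (y * Real.log y ^ j) := by positivity
      linarith

/-- the case `f = 1` -/
private theorem conv_one {H : ℝ → ℝ} (hH0 : ∀ y, 0 ≤ H y) (hHm : Monotone H) {c : ℝ} {j : ℕ}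
    (h2 : Tendsto (fun x : ℝ => H x / (x * Real.log x ^ j)) atTop (𝓝 c)) :
    Tendsto (fun x : ℝ => (∑ d ∈ Finset.Icc 1 ⌊x⌋₊, H (x / d)) / (x * Real.log x ^ (j + 1))) atTop
      (𝓝 (c / ((j : ℝ) + 1))) := by
  have hT := tsumL_tendsto j
  have hB : Tendsto (fun x : ℝ => ((Real.log x) ^ (j + 1))⁻¹) atTop (𝓝 0) :=
    tendsto_inv_atTop_zero.comp ((tendsto_pow_atTop (by omega)).comp Real.tendsto_log_atTop)
  have hD : Tendsto (fun x : ℝ => (∑ d ∈ Finset.Icc 1 ⌊x⌋₊, H (x / d)) / (x * Real.log x ^ (j + 1)) -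
      c * (tsumL j x / Real.log x ^ (j + 1))) atTop (𝓝 0) := by
    refine conv_err hT hB fun ε hε => ?_
    obtain ⟨C, hC0, hC⟩ := conv_H hH0 hHm h2 hε
    refine ⟨C, ?_⟩
    filter_upwards [eventually_gt_atTop (1 : ℝ)] with x hx
    have hL : 0 < Real.log x := Real.log_pos hx
    have hx0 : 0 < x := by linarith
    have hp : 0 < x * Real.log x ^ (j + 1) := by positivity
    have e : (∑ d ∈ Finset.Icc 1 ⌊x⌋₊, H (x / d)) / (x * Real.log x ^ (j + 1)) -
        c * (tsumL j x / Real.log x ^ (j + 1)) =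
        ((∑ d ∈ Finset.Icc 1 ⌊x⌋₊, H (x / d)) - c * (x * tsumL j x)) / (x * Real.log x ^ (j + 1)) := by
      field_simp
    have h1 : |(∑ d ∈ Finset.Icc 1 ⌊x⌋₊, H (x / d)) - c * (x * tsumL j x)| ≤ ε * (x * tsumL j x) + C * x := by
      unfold tsumL
      rw [Finset.mul_sum, Finset.mul_sum, ← Finset.sum_sub_distrib, Finset.mul_sum]
      refine le_trans (Finset.abs_sum_le_sum_abs _ _) ?_
      have h3 : ∀ d ∈ Finset.Icc 1 ⌊x⌋₊, |H (x / d) - c * (x * (Real.log (x / d) ^ j / d))| ≤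
          ε * (x * (Real.log (x / d) ^ j / d)) + C := by
        intro d hd
        obtain ⟨hd1, hd2⟩ := Finset.mem_Icc.1 hd
        have hd0 : (0 : ℝ) < d := by exact_mod_cast hd1
        have hdx : (d : ℝ) ≤ x := le_trans (by exact_mod_cast hd2) (Nat.floor_le hx0.le)
        have h4 := hC (x / d) (by rw [le_div_iff₀ hd0]; linarith)
        have e4 : x / d * Real.log (x / d) ^ j = x * (Real.log (x / d) ^ j / d) := by ring
        rw [e4] at h4
        exact h4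
      refine le_trans (Finset.sum_le_sum h3) ?_
      rw [Finset.sum_add_distrib, Finset.sum_const, Nat.card_Icc, add_tsub_cancel_right, nsmul_eq_mul]
      have h5 : ((⌊x⌋₊ : ℕ) : ℝ) * C ≤ C * x := by
        rw [mul_comm]
        exact mul_le_mul_of_nonneg_left (Nat.floor_le hx0.le) hC0
      have h6 : ∑ d ∈ Finset.Icc 1 ⌊x⌋₊, ε * (x * (Real.log (x / d) ^ j / d)) =
          ε * ∑ d ∈ Finset.Icc 1 ⌊x⌋₊, x * (Real.log (x / d) ^ j / d) := by
        rw [Finset.mul_sum]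
      linarith
    rw [e, abs_div, abs_of_pos hp, div_le_iff₀ hp]
    refine le_trans h1 (le_of_eq ?_)
    field_simp
  have h := hD.add (hT.const_mul c)
  have e0 : 0 + c * (1 / ((j : ℝ) + 1)) = c / ((j : ℝ) + 1) := by ring
  rw [e0] at h
  refine h.congr fun x => ?_
  ring

/-- the bound for the partial sums of `f` -/
private theorem conv_f {f : ℕ → ℝ} {κ : ℝ} (h1 : Tendsto (fun x : ℝ => ssum f x / x) atTop (𝓝 κ)) {ε : ℝ}
    (hε : 0 < ε) : ∃ C : ℝ, 0 ≤ C ∧ ∀ n : ℕ, |(∑ k ∈ Finset.Icc 1 n, f k) - κ * n| ≤ ε * n + C := by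
  have h3 := (Metric.tendsto_nhds.1 h1 ε hε).and (eventually_gt_atTop (0 : ℝ))
  obtain ⟨Y, hY⟩ := eventually_atTop.1 h3
  obtain ⟨N0, hN0⟩ := exists_nat_ge Y
  refine ⟨∑ n ∈ Finset.range N0, |(∑ k ∈ Finset.Icc 1 n, f k) - κ * n|,
    Finset.sum_nonneg fun _ _ => abs_nonneg _, ?_⟩
  intro n
  rcases lt_or_ge n N0 with hlt | hge
  · have h4 := Finset.single_le_sum (f := fun n : ℕ => |(∑ k ∈ Finset.Icc 1 n, f k) - κ * n|)
      (fun i _ => abs_nonneg _) (Finset.mem_range.2 hlt)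
    have h5 : 0 ≤ ε * n := by positivity
    linarith
  · have h4 : Y ≤ (n : ℝ) := hN0.trans (by exact_mod_cast hge)
    obtain ⟨hd, hn⟩ := hY n h4
    rw [Real.dist_eq] at hd
    have e : (∑ k ∈ Finset.Icc 1 n, f k) - κ * n = (ssum f (n : ℝ) / n - κ) * n := by
      unfold ssum
      rw [Nat.floor_natCast]
      field_simp
    rw [e, abs_mul, abs_of_pos hn]
    have h5 : |ssum f (n : ℝ) / n - κ| * n ≤ ε * n := mul_le_mul_of_nonneg_right hd.le hn.le
    have h6 : 0 ≤ ∑ n ∈ Finset.range N0, |(∑ k ∈ Finset.Icc 1 n, f k) - κ * n| :=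
      Finset.sum_nonneg fun _ _ => abs_nonneg _
    linarith

/-- comparison of the weighted sums -/
private theorem conv_cmp {f : ℕ → ℝ} {κ ε C : ℝ} (hC0 : 0 ≤ C)
    (hC : ∀ n : ℕ, |(∑ k ∈ Finset.Icc 1 n, f k) - κ * n| ≤ ε * n + C) {N : ℕ} {φ : ℕ → ℝ}
    (hφ : ∀ k, 1 ≤ k → k + 1 ≤ N → φ (k + 1) ≤ φ k) (h0 : ∀ k, 0 ≤ φ k) :
    |(∑ k ∈ Finset.Icc 1 N, f k * φ k) - κ * ∑ k ∈ Finset.Icc 1 N, φ k| ≤
      ε * (∑ k ∈ Finset.Icc 1 N, φ k) + C * φ 1 := by
  have hind : ∀ n : ℕ, ∑ k ∈ Finset.Icc 1 n, (if k = 1 then C else 0) = if 1 ≤ n then C else 0 := by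
    intro n
    rw [Finset.sum_ite_eq' (Finset.Icc 1 n) 1]
    simp
  have hindφ : ∑ k ∈ Finset.Icc 1 N, (if k = 1 then C else 0) * φ k ≤ C * φ 1 := by
    have e : ∀ k, (if k = 1 then C else 0) * φ k = if k = 1 then C * φ 1 else 0 := by
      intro k
      split_ifs with h
      · rw [h]
      · rw [zero_mul]
    rw [Finset.sum_congr rfl fun k _ => e k, Finset.sum_ite_eq' (Finset.Icc 1 N) 1]
    split_ifs
    · exact le_rfl
    · exact mul_nonneg hC0 (h0 1)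
  have hpart : ∀ (σ : ℝ), (σ = 1 ∨ σ = -1) → ∀ n ≤ N,
      0 ≤ ∑ k ∈ Finset.Icc 1 n, (ε + σ * (f k - κ) + (if k = 1 then C else 0)) := by
    intro σ hσ n _
    rw [Finset.sum_add_distrib, Finset.sum_add_distrib, hind, ← Finset.mul_sum, Finset.sum_sub_distrib,
      Finset.sum_const, Finset.sum_const, Nat.card_Icc, add_tsub_cancel_right, nsmul_eq_mul, nsmul_eq_mul]
    rcases Nat.eq_zero_or_pos n with h | h
    · subst h
      simp
    · rw [if_pos (show 1 ≤ n from h)]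
      have h4 := hC n
      rw [abs_le] at h4
      rcases hσ with rfl | rfl
      · linarith [h4.1]
      · linarith [h4.2]
  have key : ∀ (σ : ℝ), (σ = 1 ∨ σ = -1) →
      0 ≤ ε * (∑ k ∈ Finset.Icc 1 N, φ k) +
        σ * ((∑ k ∈ Finset.Icc 1 N, f k * φ k) - κ * ∑ k ∈ Finset.Icc 1 N, φ k) + C * φ 1 := by
    intro σ hσ
    have h := conv_abel (hpart σ hσ) hφ h0
    have e : ∑ k ∈ Finset.Icc 1 N, (ε + σ * (f k - κ) + (if k = 1 then C else 0)) * φ k =
        ε * (∑ k ∈ Finset.Icc 1 N, φ k) +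
        σ * ((∑ k ∈ Finset.Icc 1 N, f k * φ k) - κ * ∑ k ∈ Finset.Icc 1 N, φ k) +
        ∑ k ∈ Finset.Icc 1 N, (if k = 1 then C else 0) * φ k := by
      rw [Finset.mul_sum, Finset.mul_sum, ← Finset.sum_sub_distrib, Finset.mul_sum, ← Finset.sum_add_distrib,
        ← Finset.sum_add_distrib]
      refine Finset.sum_congr rfl fun k _ => ?_
      ring
    rw [e] at h
    linarith
  rw [abs_le]
  constructor
  · linarith [key 1 (Or.inl rfl)]
  · linarith [key (-1) (Or.inr rfl)]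

theorem conv_asymp {f : ℕ → ℝ} (hf : ∀ n, 0 ≤ f n) {H : ℝ → ℝ} (hH0 : ∀ y, 0 ≤ H y) (hHm : Monotone H) {κ c : ℝ} {j : ℕ}
    (h1 : Tendsto (fun x : ℝ => ssum f x / x) atTop (𝓝 κ))
    (h2 : Tendsto (fun x : ℝ => H x / (x * Real.log x ^ j)) atTop (𝓝 c)) :
    Tendsto (fun x : ℝ => (∑ d ∈ Finset.Icc 1 ⌊x⌋₊, f d * H (x / d)) / (x * Real.log x ^ (j + 1))) atTop
      (𝓝 (κ * c / (j + 1))) := by
  have hU := conv_one hH0 hHm h2
  have hB : Tendsto (fun x : ℝ => H x / (x * Real.log x ^ (j + 1))) atTop (𝓝 0) := by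
    have hlog : Tendsto (fun x : ℝ => (Real.log x)⁻¹) atTop (𝓝 0) := tendsto_inv_atTop_zero.comp Real.tendsto_log_atTop
    have h := h2.mul hlog
    rw [mul_zero] at h
    refine h.congr fun x => ?_
    rw [pow_succ, ← mul_assoc, div_eq_mul_inv, div_eq_mul_inv, mul_inv, mul_inv, mul_inv]
    ring
  have hD : Tendsto (fun x : ℝ => (∑ d ∈ Finset.Icc 1 ⌊x⌋₊, f d * H (x / d)) / (x * Real.log x ^ (j + 1)) -
      κ * ((∑ d ∈ Finset.Icc 1 ⌊x⌋₊, H (x / d)) / (x * Real.log x ^ (j + 1)))) atTop (𝓝 0) := by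
    refine conv_err hU hB fun ε hε => ?_
    obtain ⟨C, hC0, hC⟩ := conv_f h1 hε
    refine ⟨C, ?_⟩
    filter_upwards [eventually_gt_atTop (1 : ℝ)] with x hx
    have hL : 0 < Real.log x := Real.log_pos hx
    have hx0 : 0 < x := by linarith
    have hp : 0 < x * Real.log x ^ (j + 1) := by positivity
    have h3 := conv_cmp (N := ⌊x⌋₊) (φ := fun k => H (x / k)) hC0 hC (fun k hk _ => by
      apply hHm
      have hk0 : (0 : ℝ) < k := by exact_mod_cast hk
      push_cast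
      apply div_le_div_of_nonneg_left hx0.le hk0
      linarith) (fun k => hH0 _)
    simp only [Nat.cast_one, div_one] at h3
    have e : (∑ d ∈ Finset.Icc 1 ⌊x⌋₊, f d * H (x / d)) / (x * Real.log x ^ (j + 1)) -
        κ * ((∑ d ∈ Finset.Icc 1 ⌊x⌋₊, H (x / d)) / (x * Real.log x ^ (j + 1))) =
        ((∑ d ∈ Finset.Icc 1 ⌊x⌋₊, f d * H (x / d)) - κ * ∑ d ∈ Finset.Icc 1 ⌊x⌋₊, H (x / d)) /
          (x * Real.log x ^ (j + 1)) := by
      ring
    rw [e, abs_div, abs_of_pos hp, div_le_iff₀ hp]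
    refine le_trans h3 (le_of_eq ?_)
    field_simp
  have h := hD.add (hU.const_mul κ)
  have e0 : 0 + κ * (c / ((j : ℝ) + 1)) = κ * c / (j + 1) := by ring
  rw [e0] at h
  refine h.congr fun x => ?_
  ring

end StarkR
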