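import Mathlib

/-!
# Module SNA-Coset: counting the points of a translate of a lattice in a cone

The case `x₀ = 0` is Mathlib's `ZLattice.covolume.tendsto_card_le_div'`. Let `D = {x ∈ X | F x ≤ 1}`
(bounded, measurable, frontier of measure zero), so `{x ∈ X | F x ≤ c} = t • D` with
`t = c^(1/dim)`. Let `P` be a bounded fundamental domain of `L`, contained in the ball of radius
`ρ`. The translates `x + P`, `x ∈ x₀ + L`, are disjoint and cover `E`. So, if `N` is the number of
the points in question, `N vol P ≤ t ^ dim vol (cthickening (ρ / t) D)` and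
`N vol P ≥ t ^ dim (vol D - vol (cthickening (ρ / t) (frontier D)))`.
-/

namespace StarkR

open Filter Topology Bornology MeasureTheory Module
open scoped Pointwise

theorem Coset_near {E : Type} [NormedAddCommGroup E] [NormedSpace ℝ E] (D : Set E) (δ : ℝ)
    (z z' : E) (hz : z ∈ D) (h : z ∉ Metric.cthickening δ (frontier D)) (hd : dist z z' ≤ δ) :
    z' ∈ D := by
  by_contra hz'
  have hpre : IsPreconnected (segment ℝ z z') := (convex_segment z z').isPreconnected
  have hno : ∀ w ∈ segment ℝ z z', w ∉ frontier D := by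
    intro w hw1 hw2
    apply h
    refine Metric.mem_cthickening_of_dist_le z w δ _ hw2 ?_
    have h1 := segment_subset_closedBall_left z z' hw1
    rw [Metric.mem_closedBall, dist_comm] at h1
    exact h1.trans hd
  have hcov : segment ℝ z z' ⊆ interior D ∪ (closure D)ᶜ := by
    intro w hw
    by_contra hcon
    rw [Set.mem_union, not_or, Set.mem_compl_iff, not_not] at hcon
    exact hno w hw ⟨hcon.2, hcon.1⟩
  obtain ⟨w, -, hw1, hw2⟩ := hpre _ _ isOpen_interior isClosed_closure.isOpen_compl hcov
    ⟨z, left_mem_segment ℝ z z', by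
      by_contra hcon
      exact hno z (left_mem_segment ℝ z z') ⟨subset_closure hz, hcon⟩⟩
    ⟨z', right_mem_segment ℝ z z', fun hcon =>
      hno z' (right_mem_segment ℝ z z') ⟨hcon, fun h1 => hz' (interior_subset h1)⟩⟩
  exact hw2 (subset_closure (interior_subset hw1))

theorem Coset_bounds {E : Type} [NormedAddCommGroup E] [InnerProductSpace ℝ E]
    [FiniteDimensional ℝ E] [MeasurableSpace E] [BorelSpace E] (L : Submodule ℤ E)
    [DiscreteTopology L] [IsZLattice ℝ L] (D : Set E) (hb : IsBounded D) (hm : MeasurableSet D)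
    (x₀ : E) : ∃ ρ : ℝ, 0 ≤ ρ ∧ ∀ t : ℝ, 0 < t →
      t ^ finrank ℝ E * (volume.real D - volume.real (Metric.cthickening (ρ / t) (frontier D))) ≤
        (Nat.card ({x | t⁻¹ • x ∈ D} ∩ {x | x - x₀ ∈ L} : Set E) : ℝ) * ZLattice.covolume L ∧
      (Nat.card ({x | t⁻¹ • x ∈ D} ∩ {x | x - x₀ ∈ L} : Set E) : ℝ) * ZLattice.covolume L ≤
        t ^ finrank ℝ E * volume.real (Metric.cthickening (ρ / t) D) := by
  classical
  set b := (Free.chooseBasis ℤ L).ofZLatticeBasis ℝ L with hbdef
  set P : Set E := ZSpan.fundamentalDomain b with hP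
  have hspan : Submodule.span ℤ (Set.range b) = L := (Free.chooseBasis ℤ L).ofZLatticeBasis_span ℝ L
  have hPb : IsBounded P := ZSpan.fundamentalDomain_isBounded b
  have hPm : MeasurableSet P := ZSpan.fundamentalDomain_measurableSet b
  have hcov : ZLattice.covolume L = volume.real P :=
    ZLattice.covolume_eq_measure_fundamentalDomain L volume
      (ZLattice.isAddFundamentalDomain (Free.chooseBasis ℤ L) volume)
  obtain ⟨ρ, hρ0, hρ⟩ : ∃ ρ : ℝ, 0 ≤ ρ ∧ ∀ p ∈ P, ‖p‖ ≤ ρ := by
    obtain ⟨R, hR⟩ := isBounded_iff_forall_norm_le.1 hPb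
    exact ⟨max R 0, le_max_right _ _, fun p hp => (hR p hp).trans (le_max_left _ _)⟩
  refine ⟨ρ, hρ0, fun t ht => ?_⟩
  have ht0 : t ≠ 0 := ht.ne'
  set S : Set E := {x | t⁻¹ • x ∈ D} ∩ {x | x - x₀ ∈ L} with hS
  have hA : {x : E | t⁻¹ • x ∈ D} = t • D := by
    ext x
    rw [Set.mem_smul_set_iff_inv_smul_mem₀ ht0, Set.mem_ofPred_eq]
  have hSfin : S.Finite := by
    have h1 : IsBounded ((fun x => x - x₀) '' {x : E | t⁻¹ • x ∈ D}) := by
      rw [hA]
      have h2 : IsBounded (t • D) := hb.smul₀ t
      have h3 := h2.vadd (-x₀)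
      refine h3.subset ?_
      rintro _ ⟨x, hx, rfl⟩
      exact ⟨x, hx, by simp [sub_eq_neg_add]⟩
    have h2 := ZSpan.setFinite_inter b h1
    refine Set.Finite.of_finite_image (f := fun x => x - x₀) (h2.subset ?_)
      (sub_left_injective.injOn)
    rintro _ ⟨x, hx, rfl⟩
    refine ⟨⟨x, hx.1, rfl⟩, ?_⟩
    rw [hspan]
    exact hx.2
  -- the union of the translates
  set U : Set E := ⋃ x ∈ hSfin.toFinset, (fun y => y + -x) ⁻¹' P with hU
  have hUm : volume.real U = (Nat.card S : ℝ) * ZLattice.covolume L := by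
    have hdis : Set.PairwiseDisjoint (↑hSfin.toFinset) fun x => (fun y : E => y + -x) ⁻¹' P := by
      intro x hx x' hx' hne
      rw [Function.onFun, Set.disjoint_left]
      intro y hy hy'
      apply hne
      have hxL : x - x₀ ∈ L := (hSfin.mem_toFinset.1 hx).2
      have hxL' : x' - x₀ ∈ L := (hSfin.mem_toFinset.1 hx').2
      have e1 : ZSpan.fract b (y + -x) = y + -x := ZSpan.fract_eq_self.2 hy
      have e2 : ZSpan.fract b (y + -x') = y + -x' := ZSpan.fract_eq_self.2 hy'
      have e3 : ZSpan.fract b (y + -x) = ZSpan.fract b (y + -x') := by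
        rw [ZSpan.fract_eq_fract, hspan]
        have h1 := L.sub_mem hxL hxL'
        have h2 : -(y + -x) + (y + -x') = x - x₀ - (x' - x₀) := by abel
        rw [h2]
        exact h1
      rw [e1, e2] at e3
      have := add_left_cancel e3
      exact neg_injective this
    have hmeas : ∀ x : E, MeasurableSet ((fun y : E => y + -x) ⁻¹' P) := fun x =>
      hPm.preimage (measurable_add_const (-x))
    rw [hU, measureReal_def, measure_biUnion_finset hdis fun x _ => hmeas x]
    simp only [measure_preimage_add_right]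
    rw [Finset.sum_const, nsmul_eq_mul, ENNReal.toReal_mul, ENNReal.toReal_natCast, hcov,
      measureReal_def, Nat.card_coe_set_eq, Set.ncard_eq_toFinset_card S hSfin]
  have hthick : ∀ A : Set E, IsBounded A → IsBounded (Metric.cthickening (ρ / t) A) := fun A hA =>
    hA.cthickening
  have hscale : ∀ A : Set E, volume.real (t • A) = t ^ finrank ℝ E * volume.real A := by
    intro A
    rw [measureReal_def, Measure.addHaar_smul_of_nonneg _ ht.le, ENNReal.toReal_mul,
      ENNReal.toReal_ofReal (by positivity), measureReal_def]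
  constructor
  · rw [← hUm]
    have hsub : t • (D \ Metric.cthickening (ρ / t) (frontier D)) ⊆ U := by
      rintro _ ⟨z, ⟨hzD, hzf⟩, rfl⟩
      have hw := ZSpan.fract_mem_fundamentalDomain b (t • z - x₀)
      rw [hU, Set.mem_iUnion₂]
      have hfl : (ZSpan.floor b (t • z - x₀) : E) ∈ L :=
        hspan.le (ZSpan.floor b (t • z - x₀)).2
      set x : E := x₀ + (ZSpan.floor b (t • z - x₀) : E) with hx
      have hxz : t • z + -x = ZSpan.fract b (t • z - x₀) := by
        rw [ZSpan.fract_apply, hx]
        abel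
      have hnorm : ‖t • z - x‖ ≤ ρ := by
        rw [sub_eq_add_neg, hxz]
        exact hρ _ hw
      refine ⟨x, hSfin.mem_toFinset.2 ⟨?_, ?_⟩, ?_⟩
      · refine Coset_near D (ρ / t) z _ hzD hzf ?_
        rw [dist_eq_norm]
        have e : z - t⁻¹ • x = t⁻¹ • (t • z - x) := by
          rw [smul_sub, smul_smul, inv_mul_cancel₀ ht0, one_smul]
        rw [e, norm_smul, norm_inv, Real.norm_of_nonneg ht.le, div_eq_inv_mul]
        gcongr
      · rw [Set.mem_ofPred_eq, hx, add_sub_cancel_left]
        exact hfl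
      · rw [Set.mem_preimage, hxz]
        exact hw
    have hUb : volume U ≠ ⊤ := by
      have h1 : volume U ≤ ∑ x ∈ hSfin.toFinset, volume ((fun y : E => y + -x) ⁻¹' P) :=
        measure_biUnion_finset_le _ _
      refine ne_top_of_le_ne_top ?_ h1
      refine ENNReal.sum_ne_top.2 fun x _ => ?_
      rw [measure_preimage_add_right]
      exact hPb.measure_lt_top.ne
    calc t ^ finrank ℝ E * (volume.real D - volume.real (Metric.cthickening (ρ / t) (frontier D)))
        ≤ t ^ finrank ℝ E * volume.real (D \ Metric.cthickening (ρ / t) (frontier D)) := by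
          gcongr
          have h1 : volume.real D ≤ volume.real (D \ Metric.cthickening (ρ / t) (frontier D)) +
              volume.real (Metric.cthickening (ρ / t) (frontier D)) := by
            refine (measureReal_mono (s₂ := (D \ Metric.cthickening (ρ / t) (frontier D)) ∪
              Metric.cthickening (ρ / t) (frontier D)) ?_ ?_).trans (measureReal_union_le _ _)
            · rw [Set.diff_union_self]
              exact Set.subset_union_left
            · refine (IsBounded.measure_lt_top ?_).ne
              exact (hb.subset Set.diff_subset).union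
                (hthick _ (hb.closure.subset frontier_subset_closure))
          linarith
      _ = volume.real (t • (D \ Metric.cthickening (ρ / t) (frontier D))) := (hscale _).symm
      _ ≤ volume.real U := measureReal_mono hsub hUb
  · rw [← hUm, ← hscale]
    refine measureReal_mono ?_ ?_
    · intro y hy
      rw [hU, Set.mem_iUnion₂] at hy
      obtain ⟨x, hx, hy⟩ := hy
      rw [Set.mem_smul_set_iff_inv_smul_mem₀ ht0]
      have hxD : t⁻¹ • x ∈ D := (hSfin.mem_toFinset.1 hx).1
      refine Metric.mem_cthickening_of_dist_le _ _ _ _ hxD ?_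
      have e : t⁻¹ • y - t⁻¹ • x = t⁻¹ • (y + -x) := by
        rw [smul_add, smul_neg, sub_eq_add_neg]
      rw [dist_eq_norm, e, norm_smul, norm_inv, Real.norm_of_nonneg ht.le, div_eq_inv_mul]
      gcongr
      exact hρ _ hy
    · exact ((hthick _ hb).smul₀ t).measure_lt_top.ne

theorem coset_count {E : Type} [NormedAddCommGroup E] [InnerProductSpace ℝ E] [FiniteDimensional ℝ E]
    [MeasurableSpace E] [BorelSpace E] [Nontrivial E] (L : Submodule ℤ E) [DiscreteTopology L] [IsZLattice ℝ L]
    {X : Set E} {f : E → ℝ} (hX : ∀ ⦃x⦄ ⦃r : ℝ⦄, x ∈ X → 0 < r → r • x ∈ X)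
    (h₁ : ∀ x ⦃r : ℝ⦄, 0 ≤ r → f (r • x) = r ^ finrank ℝ E * (f x))
    (h₂ : IsBounded {x ∈ X | f x ≤ 1}) (h₃ : MeasurableSet {x ∈ X | f x ≤ 1})
    (h₄ : volume (frontier {x ∈ X | f x ≤ 1}) = 0) (x₀ : E) :
    Tendsto (fun c : ℝ => (Nat.card ({x ∈ X | f x ≤ c} ∩ {x | x - x₀ ∈ L} : Set E) : ℝ) / c) atTop
      (𝓝 (volume.real {x ∈ X | f x ≤ 1} / ZLattice.covolume L)) := by
  set D : Set E := {x ∈ X | f x ≤ 1} with hD
  obtain ⟨ρ, hρ0, hρ⟩ := Coset_bounds L D h₂ h₃ x₀
  set n := finrank ℝ E with hn
  have hn0 : n ≠ 0 := finrank_pos.ne'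
  have hcov : 0 < ZLattice.covolume L := ZLattice.covolume_pos L volume
  -- the scale
  set τ : ℝ → ℝ := fun c => c ^ ((n : ℝ)⁻¹) with hτ
  have hτt : Tendsto τ atTop atTop := tendsto_rpow_atTop (by positivity)
  have hτ0 : Tendsto (fun c => ρ / τ c) atTop (𝓝 0) := hτt.const_div_atTop ρ
  have hvD : volume (closure D) = volume D := measure_closure_of_null_frontier h₄
  have hfin : ∀ A : Set E, IsBounded A → ∃ R > 0, volume (Metric.cthickening R A) ≠ ⊤ := fun A hA =>
    ⟨1, one_pos, hA.cthickening.measure_lt_top.ne⟩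
  have hfb : IsBounded (frontier D) := h₂.closure.subset frontier_subset_closure
  have hup : Tendsto (fun c => volume.real (Metric.cthickening (ρ / τ c) D)) atTop
      (𝓝 (volume.real D)) := by
    have h1 := (tendsto_measure_cthickening (μ := volume) (hfin D h₂)).comp hτ0
    rw [hvD] at h1
    exact (ENNReal.tendsto_toReal h₂.measure_lt_top.ne).comp h1
  have hlow : Tendsto (fun c => volume.real D -
      volume.real (Metric.cthickening (ρ / τ c) (frontier D))) atTop (𝓝 (volume.real D)) := by
    have h1 := (tendsto_measure_cthickening (μ := volume) (hfin _ hfb)).comp hτ0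
    rw [isClosed_frontier.closure_eq, h₄] at h1
    have h2 := (ENNReal.tendsto_toReal (by simp : (0 : ENNReal) ≠ ⊤)).comp h1
    have h3 := (tendsto_const_nhds (x := volume.real D)).sub h2
    rw [ENNReal.toReal_zero, sub_zero] at h3
    exact h3
  refine tendsto_of_tendsto_of_tendsto_of_le_of_le' (hlow.div_const _) (hup.div_const _) ?_ ?_
  all_goals
    filter_upwards [eventually_gt_atTop 0] with c hc
    have hτc : 0 < τ c := Real.rpow_pos_of_pos hc _
    have hτn : τ c ^ n = c := by
      rw [hτ]
      exact Real.rpow_inv_natCast_pow hc.le hn0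
    have hset : {x ∈ X | f x ≤ c} = {x : E | (τ c)⁻¹ • x ∈ D} := by
      ext x
      rw [Set.mem_ofPred_eq, Set.mem_ofPred_eq, hD, Set.mem_ofPred_eq, h₁ x (by positivity), inv_pow,
        hτn, inv_mul_le_iff₀ hc, mul_one]
      refine and_congr_left fun _ => ⟨fun h => hX h (by positivity), fun h => ?_⟩
      have := hX h hτc
      rwa [smul_smul, mul_inv_cancel₀ hτc.ne', one_smul] at this
    obtain ⟨g1, g2⟩ := hρ (τ c) hτc
    rw [hτn] at g1 g2
    rw [hset]
  · rw [div_le_div_iff₀ hcov hc]
    linarith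
  · rw [div_le_div_iff₀ hc hcov]
    linarith

end StarkR
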