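import Pool.Agent.Lib.MP_d9bae3_nt.NA.OrdQ

/-!
# Module SNA-DecT: the tuple of ideals of an extension

* `dec_T`.  For `q ∉ S` let `v_q ∈ V n` be the vector of the residues of `ordQ q (x i)` modulo `n i`; `v_q = 0` for almost all `q`.  `T v = ∏_{q ∉ S, v_q = v} q` for `v ≠ 0` (a finite product of distinct primes): prime to `S`, squarefree, pairwise
  coprime.  `ordQ q (∏_v g(T v)^(v i)) = ∑_v (v i).val [v_q = v]`, which is `(v_q i).val` (also if `v_q = 0`).
* `decomp`.  Let `ε_i ∈ E`, `y_i`, `z_i` be as in `pow_unit` for `a = x i`, `b = ∏_v g(T v)^(v i)`, `N = n i`.  Put `ε v = ε_i` if `v` is the unit vector at `i` and `n i ≠ 1` (`i` is then unique), and `ε v = 1` otherwise.  Then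
  `rad (bOf g ε T) i = ε_i ∏_{v ≠ 0} g(T v)^(v i)` if `n i ≠ 1` (the unit vector at `i` has `i`-th coordinate `1` of value `1`, the one at `j ≠ i` has `i`-th coordinate `0`), and
  `rad = 1` if `n i = 1` (all values are `0`), where one takes `y = 1`, `z = x i`.
-/

namespace StarkR

open NumberField IsDedekindDomain

variable {F : Type} [Field F] [NumberField F] {m : ℕ} {n : Fin m → ℕ} [∀ i, NeZero (n i)]

private theorem DecT_prod_le (A : Finset (Prm F)) (p : Prm F) : (∏ q ∈ A, q.asIdeal) ≤ p.asIdeal ↔ p ∈ A := by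
  rw [Ideal.IsPrime.prod_le p.isPrime]
  constructor
  · rintro ⟨q, hq, h⟩
    have h1 : q.asIdeal = p.asIdeal := q.isMaximal.eq_of_le p.isPrime.ne_top h
    have h2 : q = p := HeightOneSpectrum.ext h1
    rwa [← h2]
  · intro h
    exact ⟨p, h, le_rfl⟩

private theorem DecT_prod_ne (A : Finset (Prm F)) : (∏ q ∈ A, q.asIdeal) ≠ ⊥ := by
  rw [← Ideal.zero_eq_bot]
  exact Finset.prod_ne_zero_iff.2 fun q _ => q.ne_bot

private theorem DecT_prod_sq (A : Finset (Prm F)) (p : Prm F) : ¬ (∏ q ∈ A, q.asIdeal) ≤ p.asIdeal ^ 2 := by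
  classical
  intro h
  have h1 : p ∈ A := (DecT_prod_le A p).1 (h.trans (Ideal.pow_le_self (by norm_num)))
  rw [← Finset.mul_prod_erase A _ h1, ← Ideal.dvd_iff_le, pow_two] at h
  have h2 : p.asIdeal ∣ ∏ q ∈ A.erase p, q.asIdeal := (mul_dvd_mul_iff_left (a := p.asIdeal) p.ne_bot).1 h
  rw [Ideal.dvd_iff_le, DecT_prod_le] at h2
  exact absurd rfl (Finset.mem_erase.1 h2).1

private theorem DecT_ord_prod {ι : Type} (q : Prm F) (t : Finset ι) (f : ι → 𝓞 F) (k : ι → ℕ) (hf : ∀ i, f i ≠ 0) :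
    ordQ q (∏ i ∈ t, f i ^ k i) = ∑ i ∈ t, k i * ordQ q (f i) := by
  classical
  induction t using Finset.induction_on with
  | empty =>
    rw [Finset.prod_empty, Finset.sum_empty]
    by_contra h
    have h1 : 1 ≤ ordQ q (1 : 𝓞 F) := Nat.one_le_iff_ne_zero.2 h
    rw [← mem_pow_iff q one_ne_zero, pow_one] at h1
    exact q.isPrime.ne_top ((Ideal.eq_top_iff_one _).2 h1)
  | insert a t ha ih =>
    rw [Finset.prod_insert ha, Finset.sum_insert ha, ordQ_mul q (pow_ne_zero _ (hf a))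
      (Finset.prod_ne_zero_iff.2 fun i _ => pow_ne_zero _ (hf i)), ordQ_pow q (hf a), ih]

theorem dec_T {S : Finset (Prm F)} {g : Ideal (𝓞 F) → 𝓞 F} (hg : IsGen S g) (x : Fin m → 𝓞 F) (hx : ∀ i, x i ≠ 0) :
    ∃ T : W n → Ideal (𝓞 F), (∀ v, Cop S (T v)) ∧ SqT T ∧ ∀ (i : Fin m) (q : Prm F), q ∉ S →
      ordQ q (x i) % n i = ordQ q (∏ v : W n, g (T v) ^ ((v : V n) i).val) % n i := by
  classical
  have hfin : (⋃ i, {q : Prm F | ordQ q (x i) ≠ 0}).Finite := Set.finite_iUnion fun i => ordQ_finite (hx i)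
  obtain ⟨Q, hQ⟩ : ∃ Q : Finset (Prm F), ∀ q, q ∈ Q ↔ ∃ i, ordQ q (x i) ≠ 0 :=
    ⟨hfin.toFinset, fun q => by simp⟩
  obtain ⟨vq, hvq⟩ : ∃ vq : Prm F → V n, ∀ q i, vq q i = ((ordQ q (x i) : ℕ) : ZMod (n i)) :=
    ⟨fun q i => ((ordQ q (x i) : ℕ) : ZMod (n i)), fun _ _ => rfl⟩
  obtain ⟨A, hA⟩ : ∃ A : W n → Finset (Prm F), ∀ v q, q ∈ A v ↔ q ∉ S ∧ vq q = v := by
    refine ⟨fun v => Q.filter fun q => q ∉ S ∧ vq q = v, fun v q => ?_⟩
    rw [Finset.mem_filter]
    constructor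
    · exact fun h => h.2
    · intro h
      refine ⟨?_, h⟩
      rw [hQ]
      by_contra hcon
      push Not at hcon
      apply v.2
      rw [← h.2]
      funext i
      rw [hvq, hcon i]
      simp
  refine ⟨fun v => ∏ q ∈ A v, q.asIdeal, fun v => ⟨DecT_prod_ne _, fun q hq h => ?_⟩, ⟨fun v q => DecT_prod_sq _ _, ?_⟩, ?_⟩
  · rw [DecT_prod_le, hA] at h
    exact h.1 hq
  · intro v w hvw q h1 h2
    rw [DecT_prod_le, hA] at h1 h2
    exact hvw (Subtype.ext (h1.2.symm.trans h2.2))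
  · intro i q hqS
    have hg0 : ∀ v : W n, g (∏ q ∈ A v, q.asIdeal) ≠ 0 := fun v => (hg _ (DecT_prod_ne _)).1
    have hord : ∀ v : W n, ordQ q (g (∏ q ∈ A v, q.asIdeal)) = if vq q = v then 1 else 0 := by
      intro v
      have h1 : ∀ k, k ≤ ordQ q (g (∏ q ∈ A v, q.asIdeal)) ↔ (∏ q ∈ A v, q.asIdeal) ≤ q.asIdeal ^ k := fun k => by
        rw [← mem_pow_iff q (hg0 v), (hg _ (DecT_prod_ne _)).2 q hqS k]
      have h2 : ¬ 2 ≤ ordQ q (g (∏ q ∈ A v, q.asIdeal)) := fun h => DecT_prod_sq _ _ ((h1 2).1 h)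
      have h3 : 1 ≤ ordQ q (g (∏ q ∈ A v, q.asIdeal)) ↔ vq q = v := by
        rw [h1, pow_one, DecT_prod_le, hA]
        exact ⟨fun h => h.2, fun h => ⟨hqS, h⟩⟩
      by_cases hv : vq q = v
      · rw [if_pos hv]
        have := h3.2 hv
        omega
      · rw [if_neg hv]
        have h4 : ¬ 1 ≤ ordQ q (g (∏ q ∈ A v, q.asIdeal)) := fun h => hv (h3.1 h)
        omega
    rw [DecT_ord_prod q _ _ _ hg0]
    have hsum : ∑ v : W n, ((v : V n) i).val * ordQ q (g (∏ q ∈ A v, q.asIdeal)) = (vq q i).val := by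
      by_cases h0 : vq q = 0
      · rw [h0, Finset.sum_eq_zero]
        · simp
        · intro v _
          rw [hord, if_neg, mul_zero]
          rw [h0]
          exact fun h => v.2 h.symm
      · rw [Finset.sum_eq_single (⟨vq q, h0⟩ : W n)]
        · rw [hord, if_pos rfl, mul_one]
        · intro v _ hv
          rw [hord, if_neg, mul_zero]
          exact fun h => hv (Subtype.ext h.symm)
        · intro h
          exact absurd (Finset.mem_univ _) h
    rw [hsum, hvq, ZMod.val_natCast, Nat.mod_mod]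

theorem decomp {e : ℕ} (he : 0 < e) (hn : ∀ i, n i ∣ e) {S : Finset (Prm F)} (hS : GoodS e S) {g : Ideal (𝓞 F) → 𝓞 F} (hg : IsGen S g)
    {E : Finset (𝓞 F)} (hE1 : ∀ ε ∈ E, IsSU S ε)
    (hE2 : ∀ x : 𝓞 F, IsSU S x → ∃ ε ∈ E, ∃ z w : 𝓞 F, IsSU S z ∧ IsSU S w ∧ x * z ^ e = ε * w ^ e)
    (x : Fin m → 𝓞 F) (hx : ∀ i, x i ≠ 0) :
    ∃ (ε : V n → 𝓞 F) (T : W n → Ideal (𝓞 F)) (y z : Fin m → 𝓞 F), (∀ v, ε v ∈ E ∨ ε v = 1) ∧ (∀ v, Cop S (T v)) ∧ SqT T ∧
      (∀ i, y i ≠ 0 ∧ z i ≠ 0) ∧ ∀ i, x i * y i ^ n i = rad (bOf g ε T) i * z i ^ n i := by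
  classical
  obtain ⟨T, hT1, hT2, hT3⟩ := dec_T (n := n) hg x hx
  have hg0 : ∀ v : W n, g (T v) ≠ 0 := fun v => (hg _ (hT1 v).1).1
  have hb0 : ∀ i, (∏ v : W n, g (T v) ^ ((v : V n) i).val) ≠ 0 := fun i =>
    Finset.prod_ne_zero_iff.2 fun v _ => pow_ne_zero _ (hg0 v)
  have hpu : ∀ i : Fin m, ∃ ε ∈ E, ∃ y z : 𝓞 F, y ≠ 0 ∧ z ≠ 0 ∧
      x i * y ^ n i = ε * (∏ v : W n, g (T v) ^ ((v : V n) i).val) * z ^ n i := fun i =>
    pow_unit he hS hE1 hE2 (Nat.pos_of_ne_zero (NeZero.ne (n i))) (hn i) (hx i) (hb0 i) (fun q hq => hT3 i q hq)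
  choose η hη y z hy0 hz0 hyz using hpu
  obtain ⟨ε, hε1, hε2⟩ : ∃ ε : V n → 𝓞 F, (∀ i, n i ≠ 1 → ε (Pi.single i 1) = η i) ∧
      ∀ v, (∀ i, n i ≠ 1 → v ≠ Pi.single i 1) → ε v = 1 := by
    refine ⟨fun v => if h : ∃ i, n i ≠ 1 ∧ v = Pi.single i 1 then η h.choose else 1, fun i hi => ?_, fun v hv => ?_⟩
    · have h : ∃ j, n j ≠ 1 ∧ (Pi.single i 1 : V n) = Pi.single j 1 := ⟨i, hi, rfl⟩
      simp only
      rw [dif_pos h]
      have h1 := h.choose_spec
      by_contra hne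
      have h2 : h.choose ≠ i := fun h' => hne (by rw [h'])
      have h3 := congrFun h1.2 i
      rw [Pi.single_eq_same, Pi.single_eq_of_ne h2.symm] at h3
      have : Nontrivial (ZMod (n i)) := by
        have : Fact (1 < n i) := ⟨by have := NeZero.ne (n i); omega⟩
        exact ZMod.nontrivial (n i)
      exact one_ne_zero h3
    · simp only
      rw [dif_neg]
      rintro ⟨i, hi, h⟩
      exact hv i hi h
  have hrad : ∀ i, n i ≠ 1 → rad (bOf g ε T) i = η i * ∏ v : W n, g (T v) ^ ((v : V n) i).val := by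
    intro i hi
    have e0 : ∀ v : V n, bOf g ε T v ^ (v i).val = ε v ^ (v i).val *
        (if h : v ≠ 0 then g (T ⟨v, h⟩) else 1) ^ (v i).val := by
      intro v
      unfold bOf
      by_cases h : v ≠ 0
      · rw [dif_pos h, dif_pos h, mul_pow]
      · rw [dif_neg h, dif_neg h]
        push Not at h
        rw [h]
        simp
    unfold rad
    rw [Finset.prod_congr rfl fun v _ => e0 v, Finset.prod_mul_distrib]
    congr 1
    · rw [Finset.prod_eq_single (Pi.single i 1 : V n)]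
      · rw [hε1 i hi, Pi.single_eq_same, ZMod.val_one'' hi, pow_one]
      · intro v _ hv
        by_cases h : ∀ j, n j ≠ 1 → v ≠ Pi.single j 1
        · rw [hε2 v h, one_pow]
        · push Not at h
          obtain ⟨j, hj, h⟩ := h
          have hji : i ≠ j := by
            rintro rfl
            exact hv h
          rw [h, Pi.single_eq_of_ne hji, ZMod.val_zero, pow_zero]
      · intro h
        exact absurd (Finset.mem_univ _) h
    · have e1 : ∏ v : W n, g (T v) ^ ((v : V n) i).val =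
          ∏ v : W n, (fun v : V n => (if h : v ≠ 0 then g (T ⟨v, h⟩) else 1) ^ (v i).val) (v : V n) := by
        refine Finset.prod_congr rfl fun v _ => ?_
        simp only
        rw [dif_pos v.2]
      rw [e1, ← Finset.prod_subtype (Finset.univ.filter fun v : V n => v ≠ 0) (fun v => by simp)
        (fun v : V n => (if h : v ≠ 0 then g (T ⟨v, h⟩) else 1) ^ (v i).val)]
      rw [Finset.prod_filter]
      refine Finset.prod_congr rfl fun v _ => ?_
      by_cases h : v ≠ 0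
      · rw [if_pos h]
      · rw [if_neg h, dif_neg h, one_pow]
  refine ⟨ε, T, fun i => if n i = 1 then 1 else y i, fun i => if n i = 1 then x i else z i, fun v => ?_, hT1, hT2,
    fun i => ?_, fun i => ?_⟩
  · by_cases h : ∀ j, n j ≠ 1 → v ≠ Pi.single j 1
    · exact Or.inr (hε2 v h)
    · push Not at h
      obtain ⟨j, hj, h⟩ := h
      left
      rw [h, hε1 j hj]
      exact hη j
  · by_cases h : n i = 1
    · simp only [if_pos h]
      exact ⟨one_ne_zero, hx i⟩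
    · simp only [if_neg h]
      exact ⟨hy0 i, hz0 i⟩
  · by_cases h : n i = 1
    · simp only [if_pos h]
      have e1 : rad (bOf g ε T) i = 1 := by
        unfold rad
        refine Finset.prod_eq_one fun v _ => ?_
        have h1 := ZMod.val_lt (v i)
        have h2 : (v i).val = 0 := by omega
        rw [h2, pow_zero]
      rw [e1, h]
      ring
    · simp only [if_neg h]
      rw [hrad i h]
      exact hyz i

end StarkR
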