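import Pool.Agent.Lib.MP_d9bae3_nt.NA.CDens

/-!
# Module SNA-EDens: ideals exactly divisible by given primes

Plan.  `κ` is the constant of `cr_dens` (`Q = Q' = ∅`: `HasDens {I | Cop S I} κ`; the third clause is `cr_dens` with `Q = ∅`).  For the second clause: `I ↦ I ∏_{q ∈ Q} q` is a bijection between the
ideals prime to `S` and to all `q ∈ Q` and the ideals prime to `S` with `I ≤ q`, `¬ I ≤ q^2` for `q ∈ Q`; the norm is multiplied by `∏ N(q)`, so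
`cnt (second set) x = cnt (first set) (x / ∏ N(q))`, and the density is divided by `∏ N(q)`.
-/

namespace StarkR

open NumberField IsDedekindDomain Filter Topology

variable {F : Type} [Field F] [NumberField F]

private theorem prm_eq {p q : Prm F} (h : q.asIdeal ≤ p.asIdeal) : q = p :=
  HeightOneSpectrum.ext (q.isMaximal.eq_of_le p.isPrime.ne_top h)

private theorem prod_not_le {Q : Finset (Prm F)} {p : Prm F} (hp : p ∉ Q) : ¬ ∏ q ∈ Q, q.asIdeal ≤ p.asIdeal := by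
  intro h
  obtain ⟨q, hq, hqp⟩ := (Ideal.IsPrime.prod_le p.isPrime).1 h
  rw [prm_eq hqp] at hq
  exact hp hq

private theorem prod_ne_bot (Q : Finset (Prm F)) : ∏ q ∈ Q, q.asIdeal ≠ (⊥ : Ideal (𝓞 F)) := by
  rw [← Ideal.zero_eq_bot]
  exact Finset.prod_ne_zero_iff.2 fun q _ => by rw [Ideal.zero_eq_bot]; exact q.ne_bot

private theorem ev_bij {S : Finset (Prm F)} {Q : Finset (Prm F)} (hQ : ∀ q ∈ Q, q ∉ S) (J : Ideal (𝓞 F)) :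
    (Cop S J ∧ ∀ q ∈ Q, J ≤ q.asIdeal ∧ ¬ J ≤ q.asIdeal ^ 2) ↔
      ∃ I : Ideal (𝓞 F), (Cop S I ∧ ∀ q ∈ Q, ¬ I ≤ q.asIdeal) ∧ I * ∏ q ∈ Q, q.asIdeal = J := by
  classical
  constructor
  · rintro ⟨⟨hJ0, hJS⟩, hJQ⟩
    have h1 : ∏ q ∈ Q, q.asIdeal ∣ J := by
      refine Finset.prod_dvd_of_coprime (fun p _ q _ hpq => ?_) fun q hq => Ideal.dvd_iff_le.2 (hJQ q hq).1
      exact Ideal.isCoprime_iff_sup_eq.2 (Ideal.IsMaximal.coprime_of_ne p.isMaximal q.isMaximal fun h =>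
        hpq (HeightOneSpectrum.ext h))
    obtain ⟨I, hI⟩ := h1
    have hIJ : J ≤ I := Ideal.dvd_iff_le.1 ⟨_, by rw [hI, mul_comm]⟩
    refine ⟨I, ⟨⟨?_, fun p hp h => hJS p hp (hIJ.trans h)⟩, fun q hq h => (hJQ q hq).2 ?_⟩, by rw [hI, mul_comm]⟩
    · rintro rfl
      exact hJ0 (by rw [hI, Ideal.mul_bot])
    · rw [hI, sq]
      exact Ideal.mul_mono ((Ideal.prod_le_inf).trans (Finset.inf_le hq)) h
  · rintro ⟨I, ⟨⟨hI0, hIS⟩, hIQ⟩, rfl⟩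
    refine ⟨⟨?_, fun p hp h => ?_⟩, fun q hq => ⟨?_, fun h => ?_⟩⟩
    · rw [← Ideal.zero_eq_bot] at hI0 ⊢
      exact mul_ne_zero hI0 (by rw [Ideal.zero_eq_bot]; exact prod_ne_bot Q)
    · rcases (Ideal.IsPrime.mul_le p.isPrime).1 h with h | h
      · exact hIS p hp h
      · exact prod_not_le (fun hpQ => hQ p hpQ hp) h
    · exact Ideal.mul_le_right.trans ((Ideal.prod_le_inf).trans (Finset.inf_le hq))
    · rw [← Ideal.dvd_iff_le, ← Finset.mul_prod_erase Q _ hq, mul_left_comm, sq] at h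
      have hq0 : q.asIdeal ≠ 0 := by rw [Ideal.zero_eq_bot]; exact q.ne_bot
      have h2 := (mul_dvd_mul_iff_left hq0).1 h
      rw [Ideal.dvd_iff_le] at h2
      rcases (Ideal.IsPrime.mul_le q.isPrime).1 h2 with h | h
      · exact hIQ q hq h
      · exact prod_not_le (Finset.notMem_erase q Q) h

private theorem ev_cnt {S : Finset (Prm F)} {Q : Finset (Prm F)} (hQ : ∀ q ∈ Q, q ∉ S) (x : ℝ) :
    cnt {I : Ideal (𝓞 F) | Cop S I ∧ ∀ q ∈ Q, I ≤ q.asIdeal ∧ ¬ I ≤ q.asIdeal ^ 2} x =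
      cnt {I : Ideal (𝓞 F) | Cop S I ∧ ∀ q ∈ Q, ¬ I ≤ q.asIdeal} (x / ((∏ q ∈ Q, nm q : ℕ) : ℝ)) := by
  classical
  have hP := prod_ne_bot Q
  have hN : Ideal.absNorm (∏ q ∈ Q, q.asIdeal) = ∏ q ∈ Q, nm q := by
    rw [map_prod]
    rfl
  have hN0 : 0 < ((∏ q ∈ Q, nm q : ℕ) : ℝ) := by
    rw [← hN]
    exact Nat.cast_pos.2 (Nat.pos_of_ne_zero fun h => hP (Ideal.absNorm_eq_zero_iff.1 h))
  have h1 : {I : Ideal (𝓞 F) | I ∈ {I : Ideal (𝓞 F) | Cop S I ∧ ∀ q ∈ Q, I ≤ q.asIdeal ∧ ¬ I ≤ q.asIdeal ^ 2} ∧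
      I ≠ ⊥ ∧ (Ideal.absNorm I : ℝ) ≤ x} = (fun I => I * ∏ q ∈ Q, q.asIdeal) ''
        {I : Ideal (𝓞 F) | I ∈ {I : Ideal (𝓞 F) | Cop S I ∧ ∀ q ∈ Q, ¬ I ≤ q.asIdeal} ∧ I ≠ ⊥ ∧
          (Ideal.absNorm I : ℝ) ≤ x / ((∏ q ∈ Q, nm q : ℕ) : ℝ)} := by
    ext J
    simp only [Set.mem_ofPred_eq, Set.mem_image]
    constructor
    · rintro ⟨hJ, _, hJx⟩
      obtain ⟨I, hI, rfl⟩ := (ev_bij hQ J).1 hJ
      refine ⟨I, ⟨hI, hI.1.1, ?_⟩, rfl⟩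
      rw [map_mul, hN, Nat.cast_mul] at hJx
      rw [le_div_iff₀ hN0]
      exact hJx
    · rintro ⟨I, ⟨hI, _, hIx⟩, rfl⟩
      have h2 := (ev_bij hQ _).2 ⟨I, hI, rfl⟩
      refine ⟨h2, h2.1.1, ?_⟩
      rw [le_div_iff₀ hN0] at hIx
      rw [map_mul, hN, Nat.cast_mul]
      exact hIx
  unfold cnt
  rw [h1, Set.ncard_image_of_injective]
  exact mul_left_injective₀ (by rw [Ne, Ideal.zero_eq_bot]; exact hP)

theorem ev_dens {e : ℕ} (he : 0 < e) {S : Finset (Prm F)} (hS : GoodS e S) {g : Ideal (𝓞 F) → 𝓞 F} (hg : IsGen S g) :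
    ∃ κ : ℝ, 0 < κ ∧ HasDens {I : Ideal (𝓞 F) | Cop S I} κ ∧ ∀ Q : Finset (Prm F), (∀ q ∈ Q, PP e S q) →
      HasDens {I : Ideal (𝓞 F) | Cop S I ∧ ∀ q ∈ Q, I ≤ q.asIdeal ∧ ¬ I ≤ q.asIdeal ^ 2}
        (κ * ∏ q ∈ Q, (1 / (nm q : ℝ) * (1 - 1 / (nm q : ℝ)))) ∧
      HasDens {I : Ideal (𝓞 F) | Cop S I ∧ ∀ q ∈ Q, Res e g q I} (κ * ∏ q ∈ Q, rho e q) := by
  obtain ⟨κ, hκ, hc⟩ := cr_dens he hS hg
  refine ⟨κ, hκ, ?_, fun Q hQ => ⟨?_, ?_⟩⟩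
  · have h1 := hc ∅ ∅ (Finset.disjoint_empty_left _) (by simp) (by simp)
    simpa using h1
  · have h1 := hc Q ∅ (Finset.disjoint_empty_right _) (fun q hq => (hQ q hq).1) (by simp)
    have h2 : HasDens {I : Ideal (𝓞 F) | Cop S I ∧ ∀ q ∈ Q, ¬ I ≤ q.asIdeal}
        (κ * ∏ q ∈ Q, (1 - 1 / (nm q : ℝ))) := by simpa using h1
    have hN0 : 0 < ((∏ q ∈ Q, nm q : ℕ) : ℝ) := by
      refine Nat.cast_pos.2 (Finset.prod_pos fun q _ => Nat.pos_of_ne_zero fun h => q.ne_bot ?_)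
      exact Ideal.absNorm_eq_zero_iff.1 h
    have h3 : Tendsto (fun x : ℝ => x / ((∏ q ∈ Q, nm q : ℕ) : ℝ)) atTop atTop :=
      tendsto_id.atTop_div_const hN0
    have h4 := (Tendsto.comp h2 h3).mul_const ((1 : ℝ) / ((∏ q ∈ Q, nm q : ℕ) : ℝ))
    have h5 : κ * ∏ q ∈ Q, (1 / (nm q : ℝ) * (1 - 1 / (nm q : ℝ))) =
        (κ * ∏ q ∈ Q, (1 - 1 / (nm q : ℝ))) * ((1 : ℝ) / ((∏ q ∈ Q, nm q : ℕ) : ℝ)) := by
      rw [Finset.prod_mul_distrib, Nat.cast_prod]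
      simp only [one_div, Finset.prod_inv_distrib]
      ring
    unfold HasDens
    rw [h5]
    refine h4.congr fun x => ?_
    simp only [Function.comp_apply]
    rw [ev_cnt (fun q hq => (hQ q hq).1) x]
    field_simp
  · have h1 := hc ∅ Q (Finset.disjoint_empty_left _) (by simp) hQ
    simpa using h1

end StarkR
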