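import Pool.Agent.Lib.MP_d9bae3_nt.NA.NBase
import Pool.Agent.Lib.MP_d9bae3_nt.NA.Conv

/-!
# Module SNA-Tup: the number of tuples of ideals with bounded product of norms

Plan.  `tup_finite`: all norms are `≥ 1`, so all `T i` have norm at most `X`; finitely many ideals (`Ideal.finite_setOf_absNorm_le` or similar).
`tup_asymp`: induction over the number of elements of `ι` (transfer to `Fin k` or `Option`): with `b(d)` the number of the nonzero ideals of norm `d` in `B i₀` (so `ssum b x = cnt (B i₀) x`),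
`#tup_{k+1}(X) = ∑_{1 ≤ d ≤ X} b(d) #tup_k(X/d)`; `conv_asymp` with `H(y) = #tup_k(y)` (monotone, nonnegative).
-/

namespace StarkR

open NumberField IsDedekindDomain Filter Topology

variable {F : Type} [Field F] [NumberField F] {ι : Type} [Fintype ι]

private theorem tupAux_one_le {I : Ideal (𝓞 F)} (hI : I ≠ ⊥) : (1 : ℝ) ≤ (Ideal.absNorm I : ℝ) := by
  have h0 : Ideal.absNorm I ≠ 0 := by
    rw [Ne, Ideal.absNorm_eq_zero_iff]
    exact hI
  exact_mod_cast Nat.one_le_iff_ne_zero.2 h0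

private theorem tupAux_prod {α : Type} (s : Finset α) (f : α → ℝ) (h : ∀ i ∈ s, 1 ≤ f i) : 1 ≤ ∏ i ∈ s, f i := by
  have := Finset.prod_le_prod (s := s) (f := fun _ => (1 : ℝ)) (g := f) (fun _ _ => zero_le_one) h
  simpa using this

private theorem tupAux_fin (x : ℝ) : {I : Ideal (𝓞 F) | (Ideal.absNorm I : ℝ) ≤ x}.Finite := by
  refine (Ideal.finite_setOfPred_absNorm_le (S := 𝓞 F) ⌊x⌋₊).subset fun I hI => ?_
  exact Nat.le_floor hI

theorem tup_finite (B : ι → Set (Ideal (𝓞 F))) (X : ℝ) : (tup B X).Finite := by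
  refine (Set.Finite.pi' (fun _ : ι => tupAux_fin (F := F) X)).subset fun T hT i => ?_
  classical
  have h1 : ∀ j : ι, (1 : ℝ) ≤ (Ideal.absNorm (T j) : ℝ) := fun j => tupAux_one_le (hT.1 j).2
  have h2 : (1 : ℝ) ≤ ∏ j ∈ Finset.univ.erase i, (Ideal.absNorm (T j) : ℝ) :=
    tupAux_prod _ _ fun j _ => h1 j
  have h3 := hT.2
  rw [← Finset.mul_prod_erase Finset.univ _ (Finset.mem_univ i)] at h3
  have h4 : (0 : ℝ) ≤ (Ideal.absNorm (T i) : ℝ) := zero_le_one.trans (h1 i)
  exact (le_mul_of_one_le_right h4 h2).trans h3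

theorem tup_mono (B : ι → Set (Ideal (𝓞 F))) {X Y : ℝ} (h : X ≤ Y) : tup B X ⊆ tup B Y :=
  fun _ hT => ⟨hT.1, hT.2.trans h⟩

/-- the number of the nonzero ideals of norm `d` in `B` -/
private noncomputable def tupB (B : Set (Ideal (𝓞 F))) (d : ℕ) : ℝ :=
  (Set.ncard {I : Ideal (𝓞 F) | (I ∈ B ∧ I ≠ ⊥) ∧ Ideal.absNorm I = d} : ℝ)

private theorem tupAux_fiber {α : Type} {s : Set α} (hs : s.Finite) (f : α → ℕ) (x : ℝ) (h1 : ∀ a ∈ s, 1 ≤ f a)
    (h2 : ∀ a ∈ s, (f a : ℝ) ≤ x) : (s.ncard : ℝ) = ∑ d ∈ Finset.Icc 1 ⌊x⌋₊, (({a | a ∈ s ∧ f a = d}).ncard : ℝ) := by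
  classical
  have hm : (hs.toFinset : Set α).MapsTo f (Finset.Icc 1 ⌊x⌋₊ : Finset ℕ) := by
    intro a ha
    have ha' : a ∈ s := by simpa using ha
    have := h2 a ha'
    simp only [Finset.coe_Icc, Set.mem_Icc]
    exact ⟨h1 a ha', Nat.le_floor this⟩
  rw [Set.ncard_eq_toFinset_card s hs, Finset.card_eq_sum_card_fiberwise hm, Nat.cast_sum]
  refine Finset.sum_congr rfl fun d _ => ?_
  congr 1
  rw [← Set.ncard_coe_finset]
  congr 1
  ext a
  simp

private theorem tupAux_ssum (B : Set (Ideal (𝓞 F))) (x : ℝ) : (cnt B x : ℝ) = ssum (tupB B) x := by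
  unfold cnt ssum tupB
  have hfin : {I : Ideal (𝓞 F) | I ∈ B ∧ I ≠ ⊥ ∧ (Ideal.absNorm I : ℝ) ≤ x}.Finite :=
    (tupAux_fin (F := F) x).subset fun I hI => hI.2.2
  rw [tupAux_fiber hfin (fun I => Ideal.absNorm I) x
    (fun I hI => by exact_mod_cast tupAux_one_le hI.2.1) (fun I hI => hI.2.2)]
  refine Finset.sum_congr rfl fun d hd => ?_
  congr 2
  ext I
  simp only [Set.mem_ofPred_eq]
  constructor
  · rintro ⟨⟨h1, h2, -⟩, h3⟩
    exact ⟨⟨h1, h2⟩, h3⟩
  · rintro ⟨⟨h1, h2⟩, h3⟩
    refine ⟨⟨h1, h2, ?_⟩, h3⟩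
    rw [h3]
    have hd2 := (Finset.mem_Icc.1 hd).2
    have hd1 := (Finset.mem_Icc.1 hd).1
    exact (Nat.le_floor_iff' (by omega)).1 hd2

private theorem tupAux_option {α : Type} [Fintype α] (B : Option α → Set (Ideal (𝓞 F))) (X : ℝ) :
    ((tup B X).ncard : ℝ) =
      ∑ d ∈ Finset.Icc 1 ⌊X⌋₊, tupB (B none) d * ((tup (fun i => B (some i)) (X / d)).ncard : ℝ) := by
  have hone : ∀ T ∈ tup B X, (1 : ℝ) ≤ ∏ i : α, (Ideal.absNorm (T (some i)) : ℝ) := fun T hT =>
    tupAux_prod _ _ fun i _ => tupAux_one_le (hT.1 (some i)).2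
  rw [tupAux_fiber (tup_finite B X) (fun T => Ideal.absNorm (T none)) X
    (fun T hT => by exact_mod_cast tupAux_one_le (hT.1 none).2)
    (fun T hT => by
      have h := hT.2
      rw [Fintype.prod_option] at h
      exact (le_mul_of_one_le_right (Nat.cast_nonneg _) (hone T hT)).trans h)]
  refine Finset.sum_congr rfl fun d hd => ?_
  have hd1 : 1 ≤ d := (Finset.mem_Icc.1 hd).1
  have hd0 : (0 : ℝ) < (d : ℝ) := by exact_mod_cast hd1
  unfold tupB
  rw [← Nat.cast_mul, ← Set.ncard_prod]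
  congr 1
  have hinj : Function.Injective (fun p : Ideal (𝓞 F) × (α → Ideal (𝓞 F)) => fun o : Option α => o.elim p.1 p.2) := by
    rintro ⟨I, T⟩ ⟨J, U⟩ h
    have h1 := congrFun h none
    have h2 : ∀ a, T a = U a := fun a => congrFun h (some a)
    simp only [Option.elim_none] at h1
    rw [h1, funext h2]
  rw [← Set.ncard_image_of_injective _ hinj]
  congr 1
  ext T
  simp only [Set.mem_ofPred_eq, Set.mem_image, Set.mem_prod, Prod.exists]
  constructor
  · rintro ⟨⟨h1, h2⟩, h3⟩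
    refine ⟨T none, fun a => T (some a), ⟨⟨h1 none, h3⟩, fun a => h1 (some a), ?_⟩, ?_⟩
    · rw [Fintype.prod_option, h3] at h2
      rw [le_div_iff₀ hd0, mul_comm]
      exact h2
    · funext o
      cases o <;> rfl
  · rintro ⟨I, U, ⟨⟨h1, h3⟩, h2, h4⟩, rfl⟩
    refine ⟨⟨?_, ?_⟩, h3⟩
    · intro o
      cases o with
      | none => exact h1
      | some a => exact h2 a
    · rw [Fintype.prod_option]
      simp only [Option.elim_none, Option.elim_some]
      rw [h3, mul_comm]
      exact (le_div_iff₀ hd0).1 h4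

private theorem tupAux_equiv {α β : Type} [Fintype α] [Fintype β] (e : α ≃ β) (B : β → Set (Ideal (𝓞 F))) (X : ℝ) :
    (tup (fun a => B (e a)) X).ncard = (tup B X).ncard := by
  have hinj : Function.Injective (fun (T : β → Ideal (𝓞 F)) (a : α) => T (e a)) := by
    intro T U h
    funext b
    have := congrFun h (e.symm b)
    simpa using this
  rw [← Set.ncard_image_of_injective _ hinj]
  congr 1
  ext T
  simp only [Set.mem_image]
  constructor
  · rintro ⟨h1, h2⟩
    refine ⟨fun b => T (e.symm b), ⟨fun b => ?_, ?_⟩, ?_⟩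
    · have := h1 (e.symm b)
      simpa using this
    · rw [← e.prod_comp]
      simpa using h2
    · funext a
      simp
  · rintro ⟨U, ⟨h1, h2⟩, rfl⟩
    refine ⟨fun a => h1 (e a), ?_⟩
    rw [← e.prod_comp] at h2
    exact h2

private def TupP (F : Type) [Field F] [NumberField F] (α : Type) [Fintype α] : Prop :=
  ∀ (B : α → Set (Ideal (𝓞 F))) (κ : α → ℝ), Nonempty α → (∀ i, HasDens (B i) (κ i)) →
    Tendsto (fun X : ℝ => ((tup B X).ncard : ℝ) / (X * Real.log X ^ (Fintype.card α - 1))) atTop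
      (𝓝 ((∏ i, κ i) / ((Fintype.card α - 1).factorial : ℝ)))

private theorem tupP_one (B : Set (Ideal (𝓞 F))) {κ : ℝ} (h : HasDens B κ) :
    Tendsto (fun x : ℝ => ssum (tupB B) x / x) atTop (𝓝 κ) := by
  refine h.congr fun x => ?_
  rw [tupAux_ssum]

private theorem tupP_option (α : Type) [Fintype α] (hα : TupP F α) : TupP F (Option α) := by
  intro B κ _ h
  rcases isEmpty_or_nonempty α with hE | hN
  · have hc : Fintype.card (Option α) = 1 := by simp
    rw [hc, Fintype.prod_option]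
    simp only [Finset.univ_eq_empty, Finset.prod_empty, mul_one, Nat.sub_self, pow_zero, Nat.factorial_zero,
      Nat.cast_one, div_one]
    refine (tupP_one (B none) (h none)).congr fun X => ?_
    rw [tupAux_option B X]
    congr 1
    unfold ssum
    refine Finset.sum_congr rfl fun d hd => ?_
    have hd1 : 1 ≤ d := (Finset.mem_Icc.1 hd).1
    have hd0 : (0 : ℝ) < (d : ℝ) := by exact_mod_cast hd1
    have hd2 : (d : ℝ) ≤ X := (Nat.le_floor_iff' (by omega)).1 (Finset.mem_Icc.1 hd).2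
    have hu : tup (fun i : α => B (some i)) (X / d) = Set.univ := by
      refine Set.eq_univ_of_forall fun T => ⟨fun i => (hE.false i).elim, ?_⟩
      simp only [Finset.univ_eq_empty, Finset.prod_empty]
      exact (one_le_div hd0).2 hd2
    rw [hu, Set.ncard_univ]
    simp
  · obtain ⟨j, hj⟩ : ∃ j, Fintype.card α = j + 1 := ⟨Fintype.card α - 1, by
      have := Fintype.card_pos (α := α)
      omega⟩
    have h2 := hα (fun i => B (some i)) (fun i => κ (some i)) hN (fun i => h (some i))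
    rw [hj, Nat.add_sub_cancel] at h2
    have hmono : Monotone (fun y : ℝ => ((tup (fun i : α => B (some i)) y).ncard : ℝ)) := fun x y hxy => by
      exact Nat.cast_le.2 (Set.ncard_le_ncard (tup_mono _ hxy) (tup_finite _ _))
    have h3 := conv_asymp (f := tupB (B none)) (fun n => Nat.cast_nonneg _) (fun y => Nat.cast_nonneg _) hmono
      (tupP_one (B none) (h none)) h2
    have hc : Fintype.card (Option α) - 1 = j + 1 := by simp [hj]
    rw [hc, Fintype.prod_option]
    have hval : κ none * ((∏ i, κ (some i)) / (j.factorial : ℝ)) / ((j : ℝ) + 1) =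
        κ none * (∏ i, κ (some i)) / ((j + 1).factorial : ℝ) := by
      rw [Nat.factorial_succ, Nat.cast_mul, Nat.cast_add, Nat.cast_one, mul_div_assoc, div_div, mul_comm (j.factorial : ℝ),
        ← mul_div_assoc]
    rw [hval] at h3
    refine h3.congr fun X => ?_
    rw [tupAux_option B X]

private theorem tupP_all (α : Type) [Fintype α] : TupP F α := by
  refine Fintype.induction_empty_option (P := fun α _ => TupP F α) ?_ ?_ ?_ α
  · intro α β _ e hα B κ hN h
    let _ : Fintype α := Fintype.ofEquiv β e.symm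
    have hN' : Nonempty α := e.nonempty_congr.2 hN
    have h2 := hα (fun a => B (e a)) (fun a => κ (e a)) hN' (fun a => h (e a))
    rw [Fintype.card_congr e, e.prod_comp κ] at h2
    refine h2.congr fun X => ?_
    rw [tupAux_equiv e B X]
  · intro B κ hN
    exact (hN.elim fun x => x.elim)
  · intro α _ hα
    exact tupP_option α hα

theorem tup_asymp [Nonempty ι] (B : ι → Set (Ideal (𝓞 F))) (κ : ι → ℝ) (h : ∀ i, HasDens (B i) (κ i)) :
    Tendsto (fun X : ℝ => ((tup B X).ncard : ℝ) / (X * Real.log X ^ (Fintype.card ι - 1))) atTop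
      (𝓝 ((∏ i, κ i) / ((Fintype.card ι - 1).factorial : ℝ))) :=
  tupP_all ι B κ inferInstance h

end StarkR
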