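import Pool.Agent.Lib.MP_d9bae3_nt.NA.EDens
import Pool.Agent.Lib.MP_d9bae3_nt.NA.Tup

/-!
# Module SNA-EvD: the probability of `EvT`

Plan.  `{T ∈ TT ι S X | ∀ q ∈ Q, EvT e g v T q} = tup B X` with `B v = {Cop, I ≤ q, ¬ I ≤ q^2 for q ∈ Q}`, `B w = {Cop, Res e g q I for q ∈ Q}` for `w ≠ v`; divide the asymptotics of `tup_asymp` for `B` and for
`TT` (`κ > 0`, so the limit of the denominator is positive); the powers of `κ` and the factorial cancel.  `dl_ge`: `rho_ge`, `N(q) ≥ 2`.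
`TT_grow`: `#TT(X)/#TT(X/c) → c` by `tup_asymp`.  `TT_pos`: `#TT(X) > 0` for `X ≥ 1`: the tuple with all `T i = ⊤`.
-/

namespace StarkR

open NumberField IsDedekindDomain Filter Topology

variable {F : Type} [Field F] [NumberField F] {ι : Type} [Fintype ι]

/-- the probability of `EvT` at `q` for tuples of length `k` -/
noncomputable def dl (e k : ℕ) (q : Prm F) : ℝ := 1 / (nm q : ℝ) * (1 - 1 / (nm q : ℝ)) * rho e q ^ (k - 1)

private theorem evd_nm_two (q : Prm F) : 2 ≤ (nm q : ℝ) := by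
  have h1 : nm q ≠ 1 := by
    intro h
    unfold nm at h
    rw [Ideal.absNorm_eq_one_iff] at h
    exact q.isPrime.ne_top h
  have h0 : nm q ≠ 0 := by
    intro h
    unfold nm at h
    rw [Ideal.absNorm_eq_zero_iff] at h
    exact q.ne_bot h
  have : 2 ≤ nm q := by omega
  exact_mod_cast this

private theorem evd_rho_nonneg (e : ℕ) (q : Prm F) : 0 ≤ rho e q := by
  unfold rho; positivity

private theorem evd_inv_half (q : Prm F) : 1 / (nm q : ℝ) ≤ 1 / 2 :=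
  one_div_le_one_div_of_le (by norm_num) (evd_nm_two q)

theorem dl_ge {e : ℕ} (he : 0 < e) (k : ℕ) (q : Prm F) : (1 / (2 * (e : ℝ))) ^ k / (2 * (nm q : ℝ)) ≤ dl e k q := by
  have h2 := evd_nm_two q
  have hh := evd_inv_half q
  have hr := rho_ge he q
  have he1 : (1 : ℝ) ≤ e := by exact_mod_cast he
  have hx0 : 0 ≤ 1 / (2 * (e : ℝ)) := by positivity
  have hx1 : 1 / (2 * (e : ℝ)) ≤ 1 := by
    rw [div_le_one (by positivity)]; linarith
  have hp1 : (1 / (2 * (e : ℝ))) ^ k ≤ (1 / (2 * (e : ℝ))) ^ (k - 1) :=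
    pow_le_pow_of_le_one hx0 hx1 (Nat.sub_le k 1)
  have hp2 : (1 / (2 * (e : ℝ))) ^ (k - 1) ≤ rho e q ^ (k - 1) := pow_le_pow_left₀ hx0 hr _
  have hp3 := hp1.trans hp2
  have hN : 0 < (nm q : ℝ) := by linarith
  unfold dl
  have e1 : (1 / (2 * (e : ℝ))) ^ k / (2 * (nm q : ℝ)) = 1 / (nm q : ℝ) * (1 / 2) * (1 / (2 * (e : ℝ))) ^ k := by
    field_simp
  rw [e1]
  have hN' : 0 ≤ 1 / (nm q : ℝ) := by positivity
  apply mul_le_mul _ hp3 (by positivity)
  · have : 0 ≤ 1 - 1 / (nm q : ℝ) := by linarith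
    positivity
  · exact mul_le_mul_of_nonneg_left (by linarith) hN'

theorem dl_nonneg (e k : ℕ) (q : Prm F) : 0 ≤ dl e k q := by
  have h2 := evd_nm_two q
  have hh := evd_inv_half q
  have hr := evd_rho_nonneg e q
  have hN : 0 ≤ 1 / (nm q : ℝ) := by positivity
  have : 0 ≤ 1 - 1 / (nm q : ℝ) := by linarith
  unfold dl
  positivity

theorem dl_le_one (e k : ℕ) (q : Prm F) : dl e k q ≤ 1 := by
  have h2 := evd_nm_two q
  have hh := evd_inv_half q
  have hr := evd_rho_nonneg e q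
  have hr1 := rho_le e q
  have hN : 0 ≤ 1 / (nm q : ℝ) := by positivity
  have h3 : 0 ≤ 1 - 1 / (nm q : ℝ) := by linarith
  unfold dl
  have h4 : 1 / (nm q : ℝ) * (1 - 1 / (nm q : ℝ)) ≤ 1 := by nlinarith
  exact mul_le_one₀ h4 (pow_nonneg hr _) (pow_le_one₀ hr hr1)

theorem TT_pos (S : Finset (Prm F)) {X : ℝ} (hX : 1 ≤ X) : 0 < (TT ι S X).ncard := by
  unfold TT
  rw [Set.ncard_pos (tup_finite _ X)]
  refine ⟨fun _ => ⊤, ?_, ?_⟩
  · intro i
    refine ⟨⟨top_ne_bot, ?_⟩, top_ne_bot⟩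
    intro q _ h
    exact q.isPrime.ne_top (top_le_iff.mp h)
  · simpa using hX

private theorem evd_TT_lim [Nonempty ι] {S : Finset (Prm F)} {κ : ℝ} (hκ : HasDens {I : Ideal (𝓞 F) | Cop S I} κ) :
    Tendsto (fun X : ℝ => ((TT ι S X).ncard : ℝ) / (X * Real.log X ^ (Fintype.card ι - 1))) atTop
      (𝓝 (κ ^ Fintype.card ι / ((Fintype.card ι - 1).factorial : ℝ))) := by
  have h := tup_asymp (ι := ι) (fun _ => {I : Ideal (𝓞 F) | Cop S I}) (fun _ => κ) (fun _ => hκ)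
  rw [Finset.prod_const, Finset.card_univ] at h
  exact h

theorem TT_grow [Nonempty ι] {e : ℕ} (he : 0 < e) {S : Finset (Prm F)} (hS : GoodS e S) {g : Ideal (𝓞 F) → 𝓞 F} (hg : IsGen S g)
    {c : ℝ} (hc : 1 ≤ c) : ∃ C : ℝ, 0 < C ∧ ∀ᶠ X : ℝ in atTop, ((TT ι S X).ncard : ℝ) ≤ C * ((TT ι S (X / c)).ncard : ℝ) := by
  obtain ⟨κ, hκ0, hκ, -⟩ := ev_dens he hS hg
  have hlim := evd_TT_lim (ι := ι) hκ
  set k := Fintype.card ι - 1 with hk
  set L := κ ^ Fintype.card ι / (k.factorial : ℝ) with hL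
  have hL0 : 0 < L := by rw [hL]; positivity
  have hc0 : 0 < c := by linarith
  have hlim2 : Tendsto (fun X : ℝ => ((TT ι S (X / c)).ncard : ℝ) / ((X / c) * Real.log (X / c) ^ k)) atTop (𝓝 L) :=
    hlim.comp (tendsto_id.atTop_div_const hc0)
  refine ⟨4 * c * 2 ^ k, by positivity, ?_⟩
  have h1 : ∀ᶠ X : ℝ in atTop, ((TT ι S X).ncard : ℝ) / (X * Real.log X ^ k) < 2 * L :=
    hlim.eventually_lt_const (by linarith)
  have h2 : ∀ᶠ X : ℝ in atTop, L / 2 < ((TT ι S (X / c)).ncard : ℝ) / ((X / c) * Real.log (X / c) ^ k) :=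
    hlim2.eventually_const_lt (by linarith)
  filter_upwards [h1, h2, eventually_gt_atTop (c ^ 2), eventually_gt_atTop (2 : ℝ), eventually_gt_atTop (2 * c)] with X hX1 hX2 hX3 hX4 hX5
  have hX0 : 0 < X := by linarith
  have hlogX : 0 < Real.log X := Real.log_pos (by linarith)
  have hXc : 1 < X / c := by rw [lt_div_iff₀ hc0]; linarith
  have hlogXc : 0 < Real.log (X / c) := Real.log_pos hXc
  have hlog : Real.log X ≤ 2 * Real.log (X / c) := by
    rw [Real.log_div hX0.ne' hc0.ne']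
    have : Real.log (c ^ 2) < Real.log X := Real.log_lt_log (by positivity) hX3
    rw [Real.log_pow] at this
    push_cast at this
    linarith
  rw [div_lt_iff₀ (by positivity)] at hX1
  rw [lt_div_iff₀ (by positivity)] at hX2
  have hpow : Real.log X ^ k ≤ 2 ^ k * Real.log (X / c) ^ k := by
    rw [← mul_pow]
    exact pow_le_pow_left₀ hlogX.le hlog _
  calc ((TT ι S X).ncard : ℝ) ≤ 2 * L * (X * Real.log X ^ k) := hX1.le
    _ ≤ 2 * L * (X * (2 ^ k * Real.log (X / c) ^ k)) := by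
        apply mul_le_mul_of_nonneg_left _ (by positivity)
        exact mul_le_mul_of_nonneg_left hpow hX0.le
    _ = (4 * c * 2 ^ k) * (L / 2 * (X / c * Real.log (X / c) ^ k)) := by
        field_simp
        ring
    _ ≤ (4 * c * 2 ^ k) * ((TT ι S (X / c)).ncard : ℝ) :=
        mul_le_mul_of_nonneg_left hX2.le (by positivity)

theorem ev_prob [Nonempty ι] {e : ℕ} (he : 0 < e) {S : Finset (Prm F)} (hS : GoodS e S) {g : Ideal (𝓞 F) → 𝓞 F} (hg : IsGen S g)
    (v : ι) (Q : Finset (Prm F)) (hQ : ∀ q ∈ Q, PP e S q) :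
    Tendsto (fun X : ℝ => (Set.ncard {T : ι → Ideal (𝓞 F) | T ∈ TT ι S X ∧ ∀ q ∈ Q, EvT e g v T q} : ℝ) /
      ((TT ι S X).ncard : ℝ)) atTop (𝓝 (∏ q ∈ Q, dl e (Fintype.card ι) q)) := by
  classical
  obtain ⟨κ, hκ0, hκ, hE⟩ := ev_dens he hS hg
  obtain ⟨hE1, hE2⟩ := hE Q hQ
  have hlim := evd_TT_lim (ι := ι) hκ
  set k := Fintype.card ι - 1 with hk
  have hcard : Fintype.card ι = k + 1 := by
    have : 0 < Fintype.card ι := Fintype.card_pos
    omega
  have hden0 : κ ^ Fintype.card ι / (k.factorial : ℝ) ≠ 0 := by positivity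
  let B : ι → Set (Ideal (𝓞 F)) := fun i => if i = v then {I : Ideal (𝓞 F) | Cop S I ∧ ∀ q ∈ Q, I ≤ q.asIdeal ∧ ¬ I ≤ q.asIdeal ^ 2}
    else {I : Ideal (𝓞 F) | Cop S I ∧ ∀ q ∈ Q, Res e g q I}
  let K : ι → ℝ := fun i => if i = v then κ * ∏ q ∈ Q, (1 / (nm q : ℝ) * (1 - 1 / (nm q : ℝ))) else κ * ∏ q ∈ Q, rho e q
  have hBK : ∀ i, HasDens (B i) (K i) := by
    intro i
    by_cases hi : i = v
    · simp only [B, K, hi, if_true]; exact hE1
    · simp only [B, K, hi, if_false]; exact hE2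
  have hnum := tup_asymp B K hBK
  have hset : ∀ X : ℝ, {T : ι → Ideal (𝓞 F) | T ∈ TT ι S X ∧ ∀ q ∈ Q, EvT e g v T q} = tup B X := by
    intro X
    ext T
    constructor
    · rintro ⟨⟨h1, h2⟩, h3⟩
      refine ⟨fun i => ⟨?_, (h1 i).2⟩, h2⟩
      by_cases hi : i = v
      · simp only [B, hi, if_true]
        exact ⟨(h1 v).1, fun q hq => ⟨(h3 q hq).1, (h3 q hq).2.1⟩⟩
      · simp only [B, hi, if_false]
        exact ⟨(h1 i).1, fun q hq => (h3 q hq).2.2 i hi⟩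
    · rintro ⟨h1, h2⟩
      have hv : T v ∈ {I : Ideal (𝓞 F) | Cop S I ∧ ∀ q ∈ Q, I ≤ q.asIdeal ∧ ¬ I ≤ q.asIdeal ^ 2} := by
        have := (h1 v).1
        simpa only [B, if_true] using this
      have hw : ∀ w, w ≠ v → T w ∈ {I : Ideal (𝓞 F) | Cop S I ∧ ∀ q ∈ Q, Res e g q I} := by
        intro w hwv
        have := (h1 w).1
        simpa only [B, hwv, if_false] using this
      refine ⟨⟨fun i => ⟨?_, (h1 i).2⟩, h2⟩, fun q hq => ⟨(hv.2 q hq).1, (hv.2 q hq).2, fun w hwv => (hw w hwv).2 q hq⟩⟩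
      by_cases hi : i = v
      · rw [hi]; exact hv.1
      · exact (hw i hi).1
  have hprod : ∏ i, K i = κ ^ Fintype.card ι * ∏ q ∈ Q, dl e (Fintype.card ι) q := by
    have h1 : ∏ i, K i = K v * ∏ i ∈ Finset.univ.erase v, K i := (Finset.mul_prod_erase _ _ (Finset.mem_univ v)).symm
    have h2 : ∏ i ∈ Finset.univ.erase v, K i = (κ * ∏ q ∈ Q, rho e q) ^ k := by
      rw [Finset.prod_congr rfl (g := fun _ => κ * ∏ q ∈ Q, rho e q), Finset.prod_const, Finset.card_erase_of_mem (Finset.mem_univ v),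
        Finset.card_univ]
      intro i hi
      simp only [K, Finset.ne_of_mem_erase hi, if_false]
    have h3 : ∏ q ∈ Q, dl e (Fintype.card ι) q = (∏ q ∈ Q, (1 / (nm q : ℝ) * (1 - 1 / (nm q : ℝ)))) * (∏ q ∈ Q, rho e q) ^ k := by
      rw [← Finset.prod_pow, ← Finset.prod_mul_distrib]
      rfl
    rw [h1, h2, h3, hcard]
    simp only [K, if_true]
    ring
  rw [hprod] at hnum
  have hdiv := hnum.div hlim hden0
  have hval : κ ^ Fintype.card ι * (∏ q ∈ Q, dl e (Fintype.card ι) q) / (k.factorial : ℝ) / (κ ^ Fintype.card ι / (k.factorial : ℝ)) =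
      ∏ q ∈ Q, dl e (Fintype.card ι) q := by
    have : (k.factorial : ℝ) ≠ 0 := by positivity
    field_simp
  rw [hval] at hdiv
  refine hdiv.congr' ?_
  filter_upwards [eventually_gt_atTop (2 : ℝ)] with X hX
  have hX0 : X ≠ 0 := by linarith
  have hlogX : Real.log X ≠ 0 := (Real.log_pos (by linarith)).ne'
  simp only [Pi.div_apply]
  rw [hset X]
  exact div_div_div_cancel_right₀ (mul_ne_zero hX0 (pow_ne_zero _ hlogX)) _ _

end StarkR
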