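import Pool.Agent.Lib.MP_d9bae3_nt.SK.Base

/-!
# Module SNA-FieldOf: the fields inside the algebraic closure

* `field_of`: in the algebraic closure choose `a_i` with `a_i^(n_i) = rad b i`, `H = F(a_1, ..., a_m)` (`IntermediateField.adjoin`), finite over `F` (the `a_i` are algebraic), so a number field (`NumberField.of_module_finite` or similar); it is Galois over `F`: separable in
  characteristic `0`, and normal since it contains all conjugates `ζ^(j e/n_i) a_i` of the generators (it is the splitting field of `∏ (X^(n_i) - rad b i)`; `ζ ∈ F`).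
* `field_unique`: the roots of `X^(n_i) - rad b i` in the algebraic closure are `ζ^(j e/n_i) a_i` for any one root `a_i`; so `F(all these roots, all i)` is equal to `H` and to `H'`.
-/

namespace StarkR

open NumberField

variable {F : Type} [Field F] [NumberField F] {m : ℕ} {n : Fin m → ℕ} [∀ i, NeZero (n i)]

private theorem FO_adj {e : ℕ} {ζ : F} (hζ : IsPrimitiveRoot ζ e) (he : 0 < e) (hn : ∀ i, n i ∣ e) (b : V n → 𝓞 F)
    (a : Fin m → AlgebraicClosure F) (ha : ∀ i, a i ^ n i = algebraMap F (AlgebraicClosure F) (rad b i : F)) :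
    IntermediateField.adjoin F (Set.range a) = IntermediateField.adjoin F
      {x : AlgebraicClosure F | ∃ i, x ^ n i = algebraMap F (AlgebraicClosure F) (rad b i : F)} := by
  apply le_antisymm
  · apply IntermediateField.adjoin.mono
    rintro _ ⟨i, rfl⟩
    exact ⟨i, ha i⟩
  · rw [IntermediateField.adjoin_le_iff]
    rintro x ⟨i, hx⟩
    have hai : a i ∈ IntermediateField.adjoin F (Set.range a) := IntermediateField.subset_adjoin _ _ ⟨i, rfl⟩
    by_cases h0 : a i = 0
    · have h1 : x ^ n i = 0 := by rw [hx, ← ha i, h0, zero_pow (NeZero.ne _)]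
      rw [pow_eq_zero_iff (NeZero.ne _)] at h1
      rw [h1]
      exact zero_mem _
    · obtain ⟨k, hk⟩ := hn i
      have hp : IsPrimitiveRoot (ζ ^ k) (n i) := hζ.pow he (by rw [hk, mul_comm])
      have hp' := hp.map_of_injective (algebraMap F (AlgebraicClosure F)).injective
      have h1 : (x / a i) ^ n i = 1 := by
        rw [div_pow, hx, ha i, div_self]
        rw [← ha i]
        exact pow_ne_zero _ h0
      obtain ⟨j, -, hj⟩ := hp'.eq_pow_of_pow_eq_one h1
      have h2 : x = algebraMap F (AlgebraicClosure F) (ζ ^ k) ^ j * a i := by rw [hj, div_mul_cancel₀ _ h0]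
      rw [h2]
      exact mul_mem (pow_mem (IntermediateField.algebraMap_mem _ _) _) hai

theorem field_of {e : ℕ} {ζ : F} (hζ : IsPrimitiveRoot ζ e) (he : 0 < e) (hn : ∀ i, n i ∣ e) (b : V n → 𝓞 F)
    (hb : ∀ i, rad b i ≠ 0) : ∃ H : IntermediateField F (AlgebraicClosure F), ∃ _ : NumberField H,
      IsGalois F H ∧ ∃ α : Fin m → H, IsExt b H α := by
  have h1 : ∀ i, ∃ x : AlgebraicClosure F, x ^ n i = algebraMap F (AlgebraicClosure F) (rad b i : F) := fun i =>
    IsAlgClosed.exists_pow_nat_eq _ (Nat.pos_of_ne_zero (NeZero.ne _))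
  choose a ha using h1
  let H : IntermediateField F (AlgebraicClosure F) := IntermediateField.adjoin F (Set.range a)
  have hfd : FiniteDimensional F H :=
    IntermediateField.finiteDimensional_adjoin fun x _ => Algebra.IsIntegral.isIntegral x
  have hnf : NumberField H := NumberField.of_module_finite F H
  refine ⟨H, hnf, ?_, fun i => ⟨a i, IntermediateField.subset_adjoin _ _ ⟨i, rfl⟩⟩, ?_, ?_⟩
  · have hnorm : Normal F H := by
      rw [IntermediateField.normal_iff_forall_map_le]
      intro σ
      have h2 : H = IntermediateField.adjoin F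
          {x : AlgebraicClosure F | ∃ i, x ^ n i = algebraMap F (AlgebraicClosure F) (rad b i : F)} :=
        FO_adj hζ he hn b a ha
      rw [h2, IntermediateField.adjoin_map]
      apply IntermediateField.adjoin.mono
      rintro _ ⟨x, ⟨i, hx⟩, rfl⟩
      refine ⟨i, ?_⟩
      rw [← map_pow, hx]
      exact σ.commutes _
    exact { }
  · intro i
    apply Subtype.ext
    exact ha i
  · apply IntermediateField.lift_injective H
    rw [IntermediateField.lift_adjoin, IntermediateField.lift_top]
    congr 1
    ext x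
    constructor
    · rintro ⟨_, ⟨i, rfl⟩, rfl⟩
      exact ⟨i, rfl⟩
    · rintro ⟨i, rfl⟩
      exact ⟨_, ⟨i, rfl⟩, rfl⟩

private theorem FO_eq {e : ℕ} {ζ : F} (hζ : IsPrimitiveRoot ζ e) (he : 0 < e) (hn : ∀ i, n i ∣ e) (b : V n → 𝓞 F)
    {H : IntermediateField F (AlgebraicClosure F)} [NumberField H] {α : Fin m → H} (h : IsExt b H α) :
    H = IntermediateField.adjoin F
      {x : AlgebraicClosure F | ∃ i, x ^ n i = algebraMap F (AlgebraicClosure F) (rad b i : F)} := by
  rw [← FO_adj hζ he hn b (fun i => (α i : AlgebraicClosure F)) (fun i => congrArg Subtype.val (h.pow i))]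
  have h1 := congrArg IntermediateField.lift h.gen
  rw [IntermediateField.lift_adjoin, IntermediateField.lift_top] at h1
  refine h1.symm.trans ?_
  congr 1
  ext x
  constructor
  · rintro ⟨_, ⟨i, rfl⟩, rfl⟩
    exact ⟨i, rfl⟩
  · rintro ⟨i, rfl⟩
    exact ⟨_, ⟨i, rfl⟩, rfl⟩

theorem field_unique {e : ℕ} {ζ : F} (hζ : IsPrimitiveRoot ζ e) (he : 0 < e) (hn : ∀ i, n i ∣ e) (b : V n → 𝓞 F)
    {H H' : IntermediateField F (AlgebraicClosure F)} [NumberField H] [NumberField H'] {α : Fin m → H} {α' : Fin m → H'}
    (h : IsExt b H α) (h' : IsExt b H' α') : H = H' :=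
  (FO_eq hζ he hn b h).trans (FO_eq hζ he hn b h').symm

end StarkR
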