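import Pool.Agent.Lib.MP_d9bae3_nt.SK.Base

/-!
# Module SNA-KumE: Kummer theory, every extension with group `∏ ℤ/n_i` is generated by roots

Plan.  `ζ_i = ζ^(e/n_i)`.  `f_i : Gal(H/F) → Hˣ`, `f_i(σ) = ζ_i^(k)` with `k` the value of the `i`-th coordinate of the image of `σ`; it is a homomorphism with values fixed by the group, so it is a
multiplicative cocycle, and Hilbert 90 (Mathlib: `groupCohomology.isMulCoboundary₁_of_isMulCocycle₁_of_aut_to_units` or a newer name) gives `β_i ∈ Hˣ` with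
`σ β_i = f_i(σ) β_i` (or the inverse; then take the inverse).  `β_i^(n_i)` is fixed by the group, so it is in `F`; multiplied with the `n_i`-th power of an integer `d ≠ 0` it is an integer `x_i`; `α_i = d β_i`.  If `σ` fixes all `α_i`, all coordinates
of its image are `0` (`ζ_i` is a primitive `n_i`-th root of unity), so `σ = 1`; by Galois theory `F(α) = H` (`IntermediateField.fixingSubgroup` is trivial).
-/

namespace StarkR

open NumberField

variable {F : Type} [Field F] [NumberField F] {m : ℕ} {n : Fin m → ℕ} [∀ i, NeZero (n i)]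
variable {H : Type} [Field H] [NumberField H] [Algebra F H]

private theorem kumE_pow_mod {M : Type} [Monoid M] {z : M} {N : ℕ} (hz : z ^ N = 1) (a : ℕ) :
    z ^ (a % N) = z ^ a := by
  conv_rhs => rw [← Nat.mod_add_div a N, pow_add, pow_mul, hz, one_pow, mul_one]

/-- Kummer theory for one character with values in the `N`-th roots of unity. -/
private theorem kumE_one [IsGalois F H] {N : ℕ} [NeZero N] {z : F} (hz : IsPrimitiveRoot z N)
    (ψ : Gal(H/F) →* Multiplicative (ZMod N)) :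
    ∃ (x : 𝓞 F) (α : H), x ≠ 0 ∧ α ^ N = algebraMap F H (x : F) ∧
      ∀ σ : Gal(H/F), σ α = α → ψ σ = 1 := by
  have hN : 0 < N := Nat.pos_of_ne_zero (NeZero.ne N)
  have hzN : z ^ N = 1 := hz.pow_eq_one
  have hz0 : z ≠ 0 := hz.ne_zero hN.ne'
  have hw0 : algebraMap F H z ≠ 0 := by
    rwa [Ne, map_eq_zero_iff _ (algebraMap F H).injective]
  set w : Hˣ := Units.mk0 (algebraMap F H z) hw0 with hw
  have hwN : w ^ N = 1 := by
    ext
    rw [Units.val_pow_eq_pow_val, hw, Units.val_mk0, ← map_pow, hzN, map_one, Units.val_one]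
  have hfix : ∀ σ : Gal(H/F), σ • w = w := by
    intro σ
    ext
    rw [AlgEquiv.smul_units_def]
    show σ (w : H) = w
    rw [hw, Units.val_mk0, AlgEquiv.commutes]
  set f : Gal(H/F) → Hˣ := fun σ => w ^ (Multiplicative.toAdd (ψ σ)).val with hf
  have hmul : ∀ σ τ : Gal(H/F), f (σ * τ) = f σ * f τ := by
    intro σ τ
    simp only [hf]
    rw [map_mul, toAdd_mul, ZMod.val_add, kumE_pow_mod hwN, pow_add]
  have hfixf : ∀ σ τ : Gal(H/F), σ • f τ = f τ := by
    intro σ τ
    simp only [hf]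
    rw [smul_pow', hfix]
  have hcoc : groupCohomology.IsMulCocycle₁ f := by
    intro σ τ
    rw [hfixf, hmul, mul_comm]
  obtain ⟨β, hβ⟩ := groupCohomology.isMulCoboundary₁_of_isMulCocycle₁_of_aut_to_units f hcoc
  have hβ1 : ∀ σ : Gal(H/F), σ (β : H) = (f σ : Hˣ) * (β : H) := by
    intro σ
    have h1 : σ • β = f σ * β := by rw [← hβ σ, div_mul_cancel]
    have h2 := congrArg (fun u : Hˣ => (u : H)) h1
    simp only [Units.val_mul] at h2
    rw [← h2, AlgEquiv.smul_units_def]
    rfl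
  have hfN : ∀ σ : Gal(H/F), ((f σ : Hˣ) : H) ^ N = 1 := by
    intro σ
    rw [← Units.val_pow_eq_pow_val]
    simp only [hf]
    rw [← pow_mul, mul_comm, pow_mul, hwN, one_pow, Units.val_one]
  have hin : (β : H) ^ N ∈ Set.range (algebraMap F H) := by
    rw [IsGalois.mem_range_algebraMap_iff_fixed]
    intro σ
    rw [map_pow, hβ1, mul_pow, hfN, one_mul]
  obtain ⟨c, hc⟩ := hin
  have hc0 : c ≠ 0 := by
    rintro rfl
    rw [map_zero] at hc
    exact pow_ne_zero N β.ne_zero hc.symm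
  obtain ⟨a, d, hd, had⟩ := IsFractionRing.div_surjective (A := 𝓞 F) c
  have hd0 : d ≠ 0 := nonZeroDivisors.ne_zero hd
  have hdF : algebraMap (𝓞 F) F d ≠ 0 := by
    rwa [Ne, map_eq_zero_iff _ (IsFractionRing.injective (𝓞 F) F)]
  have ha0 : a ≠ 0 := by
    rintro rfl
    rw [map_zero, zero_div] at had
    exact hc0 had.symm
  have hdH : algebraMap F H (algebraMap (𝓞 F) F d) ≠ 0 := by
    rwa [Ne, map_eq_zero_iff _ (algebraMap F H).injective]
  refine ⟨a * d ^ (N - 1), algebraMap F H (algebraMap (𝓞 F) F d) * β,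
    mul_ne_zero ha0 (pow_ne_zero _ hd0), ?_, ?_⟩
  · rw [mul_pow, ← hc, ← map_pow, ← map_mul]
    congr 1
    have e1 : algebraMap (𝓞 F) F a = c * algebraMap (𝓞 F) F d := by
      rw [← had, div_mul_cancel₀ _ hdF]
    have e2 : ((a * d ^ (N - 1) : 𝓞 F) : F) = algebraMap (𝓞 F) F a * algebraMap (𝓞 F) F d ^ (N - 1) := by
      show algebraMap (𝓞 F) F (a * d ^ (N - 1)) = _
      rw [map_mul, map_pow]
    rw [e2, e1]
    obtain ⟨M, rfl⟩ : ∃ M, N = M + 1 := ⟨N - 1, by omega⟩
    rw [Nat.add_sub_cancel, pow_succ]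
    ring
  · intro σ hσ
    rw [map_mul, AlgEquiv.commutes, hβ1] at hσ
    have h1 : ((f σ : Hˣ) : H) * (β : H) = (β : H) := mul_left_cancel₀ hdH hσ
    have h2 : ((f σ : Hˣ) : H) = 1 := by
      have h3 : ((f σ : Hˣ) : H) * (β : H) = 1 * (β : H) := by rw [h1, one_mul]
      exact mul_right_cancel₀ β.ne_zero h3
    have h4 : z ^ (Multiplicative.toAdd (ψ σ)).val = 1 := by
      apply (algebraMap F H).injective
      rw [map_pow, map_one, ← h2]
      simp only [hf]
      rw [Units.val_pow_eq_pow_val, hw, Units.val_mk0]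
    have h5 : (Multiplicative.toAdd (ψ σ)).val = 0 := by
      by_contra hcon
      exact hz.pow_ne_one_of_pos_of_lt hcon (ZMod.val_lt _) h4
    have h6 : Multiplicative.toAdd (ψ σ) = 0 := (ZMod.val_eq_zero _).1 h5
    exact h6

theorem kum_exists [IsGalois F H] {e : ℕ} {ζ : F} (hζ : IsPrimitiveRoot ζ e) (he : 0 < e) (hn : ∀ i, n i ∣ e)
    (φ : Gal(H/F) ≃* Multiplicative (V n)) :
    ∃ (x : Fin m → 𝓞 F) (α : Fin m → H), (∀ i, x i ≠ 0) ∧ (∀ i, α i ^ n i = algebraMap F H (x i : F)) ∧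
      IntermediateField.adjoin F (Set.range α) = ⊤ := by
  have key : ∀ i : Fin m, ∃ (x : 𝓞 F) (α : H), x ≠ 0 ∧ α ^ n i = algebraMap F H (x : F) ∧
      ∀ σ : Gal(H/F), σ α = α → (Multiplicative.toAdd (φ σ)) i = 0 := by
    intro i
    have hz : IsPrimitiveRoot (ζ ^ (e / n i)) (n i) :=
      hζ.pow he (Nat.div_mul_cancel (hn i)).symm
    set ψ : Gal(H/F) →* Multiplicative (ZMod (n i)) :=
      (AddMonoidHom.toMultiplicative (Pi.evalAddMonoidHom (fun i : Fin m => ZMod (n i)) i)).comp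
        φ.toMonoidHom with hψ
    obtain ⟨x, α, h1, h2, h3⟩ := kumE_one hz ψ
    refine ⟨x, α, h1, h2, fun σ hσ => ?_⟩
    exact h3 σ hσ
  choose x α hx hα hσ using key
  refine ⟨x, α, hx, hα, ?_⟩
  have hbot : (IntermediateField.adjoin F (Set.range α)).fixingSubgroup = ⊥ := by
    rw [eq_bot_iff]
    intro σ hs
    rw [Subgroup.mem_bot]
    have h1 : ∀ i, σ (α i) = α i := by
      intro i
      rw [IntermediateField.mem_fixingSubgroup_iff] at hs
      exact hs (α i) (IntermediateField.subset_adjoin F _ ⟨i, rfl⟩)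
    have h2 : φ σ = 1 := by
      have h3 : Multiplicative.toAdd (φ σ) = 0 := by
        funext i
        exact hσ i σ (h1 i)
      exact h3
    exact (MulEquiv.map_eq_one_iff φ).1 h2
  have h1 := IsGalois.fixedField_fixingSubgroup (IntermediateField.adjoin F (Set.range α))
  rw [← h1, hbot, IntermediateField.fixedField_bot]

end StarkR
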