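import Pool.Agent.Lib.MP_d9bae3_nt.NA.OrdQ
import Pool.Agent.Lib.MP_d9bae3_nt.SK.Kum

/-!
# Module SNA-Mult: boundedly many tuples give the same field

Plan.  For each `T` in the set let `κ_T : Gal(H/F) → V n` be the Kummer map of `kum` (SK/Kum.lean) for `b = bOf g (fun _ => 1) T` and roots `α_T`; with `c` the unit vector at `i` the formula gives `σ (α_T i) = ζ^(e/n_i · (κ_T σ i).val) α_T i` (if `n i = 1`, `α_T i ∈ F`).
If `κ_T = κ_T'`, then `σ` acts on `α_T i` and `α_T' i` by the same root of unity, so `α_T i / α_T' i` is fixed by `Gal(H/F)`, hence in `F`, and `rad b_T i = rad b_T' i · c_i^(n_i)` with `c_i ∈ F`, `c_i ≠ 0`.  So for all `q ∉ S` and `i` the multiplicities of `q` in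
`rad b_T i` and `rad b_T' i` are congruent modulo `n_i`; they are `(v i).val < n i` if `T v ≤ q` (squarefree, only one `v`), and `0` if there is no such `v`.  So `T v ≤ q ↔ T' v ≤ q` for all `v` and `q ∉ S`, and `T = T'` (squarefree ideals prime to `S` are determined by their prime
divisors).  Hence `T ↦ κ_T` is injective into the functions `Gal(H/F) → V n`, of which there are `(card V)^(card V)` (the group has as many elements as `V n`, by `φ`).
-/

namespace StarkR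

open NumberField IsDedekindDomain UniqueFactorizationMonoid

variable {F : Type} [Field F] [NumberField F] {m : ℕ} {n : Fin m → ℕ} [∀ i, NeZero (n i)]
variable {H : Type} [Field H] [NumberField H] [Algebra F H]

private theorem mt_prod {ι : Type} (q : Prm F) (s : Finset ι) (f : ι → 𝓞 F) (k : ι → ℕ) (hf : ∀ i, f i ≠ 0) :
    ordQ q (∏ i ∈ s, f i ^ k i) = ∑ i ∈ s, k i * ordQ q (f i) := by
  classical
  induction s using Finset.induction_on with
  | empty =>
    have h1 := ordQ_mul q (x := (1 : 𝓞 F)) (y := 1) one_ne_zero one_ne_zero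
    rw [mul_one] at h1
    simp only [Finset.prod_empty, Finset.sum_empty]
    omega
  | insert a s ha ih =>
    rw [Finset.prod_insert ha, Finset.sum_insert ha, ordQ_mul q (pow_ne_zero _ (hf a))
      (Finset.prod_ne_zero_iff.2 fun i _ => pow_ne_zero _ (hf i)), ordQ_pow q (hf a), ih]

private theorem mt_one (q : Prm F) : ordQ q (1 : 𝓞 F) = 0 := by
  have h1 := ordQ_mul q (x := (1 : 𝓞 F)) (y := 1) one_ne_zero one_ne_zero
  rw [mul_one] at h1
  omega

private theorem mt_ext {I J : Ideal (𝓞 F)} (hI : I ≠ ⊥) (hJ : J ≠ ⊥) (hI2 : ∀ q : Prm F, ¬ I ≤ q.asIdeal ^ 2)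
    (hJ2 : ∀ q : Prm F, ¬ J ≤ q.asIdeal ^ 2) (h : ∀ q : Prm F, I ≤ q.asIdeal ↔ J ≤ q.asIdeal) : I = J := by
  classical
  have hsq : ∀ {I : Ideal (𝓞 F)}, I ≠ ⊥ → (∀ q : Prm F, ¬ I ≤ q.asIdeal ^ 2) → (normalizedFactors I).Nodup := by
    intro I hI h2
    rw [← squarefree_iff_nodup_normalizedFactors hI, squarefree_iff_no_irreducibles hI]
    intro x hx hd
    have hx0 : x ≠ ⊥ := hx.ne_zero
    have hxp : x.IsPrime := Ideal.isPrime_of_prime hx.prime
    refine h2 ⟨x, hxp, hx0⟩ ?_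
    rw [← Ideal.dvd_iff_le, sq]
    exact hd
  have hmem : ∀ {I : Ideal (𝓞 F)}, I ≠ ⊥ → ∀ P : Ideal (𝓞 F), P ∈ normalizedFactors I ↔
      ∃ q : Prm F, q.asIdeal = P ∧ I ≤ q.asIdeal := by
    intro I hI P
    constructor
    · intro hP
      have hp := prime_of_normalized_factor P hP
      refine ⟨⟨P, Ideal.isPrime_of_prime hp, hp.ne_zero⟩, rfl, ?_⟩
      exact Ideal.dvd_iff_le.1 (dvd_of_mem_normalizedFactors hP)
    · rintro ⟨q, rfl, hq⟩
      exact (mem_normalizedFactors_iff' hI).2 ⟨q.irreducible, normalize_eq _, Ideal.dvd_iff_le.2 hq⟩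
  have h3 : normalizedFactors I = normalizedFactors J := by
    refine (Multiset.Nodup.ext (hsq hI hI2) (hsq hJ hJ2)).2 fun P => ?_
    rw [hmem hI, hmem hJ]
    exact exists_congr fun q => and_congr_right fun _ => h q
  rw [← Ideal.prod_normalizedFactors_eq_self hI, h3, Ideal.prod_normalizedFactors_eq_self hJ]

private theorem mt_bof {S : Finset (Prm F)} {g : Ideal (𝓞 F) → 𝓞 F} (hg : IsGen S g) {T : W n → Ideal (𝓞 F)}
    (hT : ∀ v, Cop S (T v)) (v : V n) : bOf g (fun _ => 1) T v ≠ 0 := by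
  unfold bOf
  split_ifs with h
  · rw [one_mul]
    exact (hg _ (hT _).1).1
  · exact one_ne_zero

private theorem mt_ord1 {S : Finset (Prm F)} {g : Ideal (𝓞 F) → 𝓞 F} (hg : IsGen S g) {T : W n → Ideal (𝓞 F)}
    (hT : ∀ v, Cop S (T v)) (hT2 : SqT T) {q : Prm F} (hq : q ∉ S) (v : W n) (h : T v ≤ q.asIdeal) :
    ordQ q (bOf g (fun _ => 1) T v.1) = 1 := by
  have h1 : bOf g (fun _ => 1) T v.1 = g (T v) := by
    unfold bOf
    rw [dif_pos v.2, one_mul]
  obtain ⟨h0, hk⟩ := hg (T v) (hT v).1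
  rw [h1]
  have h2 := (mem_pow_iff q h0 1).1 ((hk q hq 1).2 (by rwa [pow_one]))
  have h3 : ¬ 2 ≤ ordQ q (g (T v)) := fun h => hT2.1 v q ((hk q hq 2).1 ((mem_pow_iff q h0 2).2 h))
  omega

private theorem mt_ord0 {S : Finset (Prm F)} {g : Ideal (𝓞 F) → 𝓞 F} (hg : IsGen S g) {T : W n → Ideal (𝓞 F)}
    (hT : ∀ v, Cop S (T v)) {q : Prm F} (hq : q ∉ S) (v : W n) (h : ¬ T v ≤ q.asIdeal) :
    ordQ q (bOf g (fun _ => 1) T v.1) = 0 := by
  have h1 : bOf g (fun _ => 1) T v.1 = g (T v) := by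
    unfold bOf
    rw [dif_pos v.2, one_mul]
  obtain ⟨h0, hk⟩ := hg (T v) (hT v).1
  rw [h1]
  by_contra h2
  refine h ?_
  have h3 := (hk q hq 1).1 ((mem_pow_iff q h0 1).2 (by omega))
  rwa [pow_one] at h3

private theorem mt_zero {g : Ideal (𝓞 F) → 𝓞 F} {T : W n → Ideal (𝓞 F)} (q : Prm F) :
    ordQ q (bOf g (fun _ => 1) T 0) = 0 := by
  have h1 : bOf g (fun _ => 1) T 0 = 1 := by
    unfold bOf
    rw [dif_neg (by simp)]
  rw [h1, mt_one]

/-- the multiplicity if `T v ≤ q` -/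
private theorem mt_rad1 {S : Finset (Prm F)} {g : Ideal (𝓞 F) → 𝓞 F} (hg : IsGen S g) {T : W n → Ideal (𝓞 F)}
    (hT : ∀ v, Cop S (T v)) (hT2 : SqT T) {q : Prm F} (hq : q ∉ S) (v : W n) (h : T v ≤ q.asIdeal) (i : Fin m) :
    ordQ q (rad (bOf g (fun _ => 1) T) i) = (v.1 i).val := by
  classical
  unfold rad
  rw [mt_prod q _ _ _ (mt_bof hg hT), Finset.sum_eq_single v.1]
  · rw [mt_ord1 hg hT hT2 hq v h, mul_one]
  · intro w _ hw
    by_cases hw0 : w = 0
    · subst hw0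
      rw [mt_zero, mul_zero]
    · rw [mt_ord0 hg hT hq ⟨w, hw0⟩ fun h' => hT2.2 v ⟨w, hw0⟩ (fun h2 => hw (by rw [h2])) q h h', mul_zero]
  · intro h0
    exact absurd (Finset.mem_univ _) h0

/-- the multiplicity if there is no `v` with `T v ≤ q` -/
private theorem mt_rad0 {S : Finset (Prm F)} {g : Ideal (𝓞 F) → 𝓞 F} (hg : IsGen S g) {T : W n → Ideal (𝓞 F)}
    (hT : ∀ v, Cop S (T v)) {q : Prm F} (hq : q ∉ S) (h : ∀ v, ¬ T v ≤ q.asIdeal) (i : Fin m) :
    ordQ q (rad (bOf g (fun _ => 1) T) i) = 0 := by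
  classical
  unfold rad
  rw [mt_prod q _ _ _ (mt_bof hg hT)]
  refine Finset.sum_eq_zero fun w _ => ?_
  by_cases hw0 : w = 0
  · subst hw0
    rw [mt_zero, mul_zero]
  · rw [mt_ord0 hg hT hq ⟨w, hw0⟩ (h _), mul_zero]

private theorem mt_radne {S : Finset (Prm F)} {g : Ideal (𝓞 F) → 𝓞 F} (hg : IsGen S g) {T : W n → Ideal (𝓞 F)}
    (hT : ∀ v, Cop S (T v)) (i : Fin m) : rad (bOf g (fun _ => 1) T) i ≠ 0 := by
  unfold rad
  exact Finset.prod_ne_zero_iff.2 fun v _ => pow_ne_zero _ (mt_bof hg hT v)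

/-- one inclusion of the prime divisors -/
private theorem mt_le {S : Finset (Prm F)} {g : Ideal (𝓞 F) → 𝓞 F} (hg : IsGen S g) {T T' : W n → Ideal (𝓞 F)}
    (hT : ∀ v, Cop S (T v)) (hT2 : SqT T) (hT' : ∀ v, Cop S (T' v)) (hT2' : SqT T')
    (hc : ∀ i, n i ≠ 1 → ∃ x y : 𝓞 F, x ≠ 0 ∧ y ≠ 0 ∧
      rad (bOf g (fun _ => 1) T) i * y ^ n i = rad (bOf g (fun _ => 1) T') i * x ^ n i)
    {q : Prm F} (hq : q ∉ S) (v : W n) (h : T v ≤ q.asIdeal) : T' v ≤ q.asIdeal := by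
  have hmod : ∀ i, ∃ a b : ℕ, ordQ q (rad (bOf g (fun _ => 1) T) i) + n i * a =
      ordQ q (rad (bOf g (fun _ => 1) T') i) + n i * b := by
    intro i
    by_cases h1 : n i = 1
    · refine ⟨ordQ q (rad (bOf g (fun _ => 1) T') i), ordQ q (rad (bOf g (fun _ => 1) T) i), ?_⟩
      rw [h1]
      ring
    · obtain ⟨x, y, hx, hy, hxy⟩ := hc i h1
      refine ⟨ordQ q y, ordQ q x, ?_⟩
      rw [← ordQ_pow q hy, ← ordQ_pow q hx, ← ordQ_mul q (mt_radne hg hT i) (pow_ne_zero _ hy),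
        ← ordQ_mul q (mt_radne hg hT' i) (pow_ne_zero _ hx), hxy]
  have hval : ∀ (x : ℕ) (i : Fin m) (r : ZMod (n i)), x < n i → (∃ a b : ℕ, r.val + n i * a = x + n i * b) → r.val = x := by
    rintro x i r hx ⟨a, b, hab⟩
    have h1 := ZMod.val_lt r
    have h2 : (r.val + n i * a) % n i = (x + n i * b) % n i := by rw [hab]
    rw [Nat.add_mul_mod_self_left, Nat.add_mul_mod_self_left, Nat.mod_eq_of_lt h1, Nat.mod_eq_of_lt hx] at h2
    exact h2
  by_cases hex : ∃ w, T' w ≤ q.asIdeal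
  · obtain ⟨w, hw⟩ := hex
    have hvw : v = w := by
      apply Subtype.ext
      funext i
      apply ZMod.val_injective
      refine hval _ i _ (ZMod.val_lt _) ?_
      have h1 := hmod i
      rwa [mt_rad1 hg hT hT2 hq v h, mt_rad1 hg hT' hT2' hq w hw] at h1
    rw [hvw]
    exact hw
  · push Not at hex
    exfalso
    refine v.2 ?_
    funext i
    apply ZMod.val_injective
    rw [Pi.zero_apply, ZMod.val_zero]
    refine hval _ i _ (Nat.pos_of_ne_zero (NeZero.ne (n i))) ?_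
    have h1 := hmod i
    rwa [mt_rad1 hg hT hT2 hq v h, mt_rad0 hg hT' hq hex] at h1

/-- the same Kummer map gives the same radicands up to powers -/
private theorem mt_kum [IsGalois F H] {e : ℕ} {ζ : F} {b b' : V n → 𝓞 F} {α α' : Fin m → H} (h : IsExt b H α)
    (h' : IsExt b' H α') (hb : ∀ i, rad b i ≠ 0) (hb' : ∀ i, rad b' i ≠ 0) (κ : Gal(H/F) → V n)
    (hκ : ∀ (σ : Gal(H/F)) (c : V n), σ (bet α c) = algebraMap F H (ζ ^ pr e c (κ σ)) * bet α c)
    (hκ' : ∀ (σ : Gal(H/F)) (c : V n), σ (bet α' c) = algebraMap F H (ζ ^ pr e c (κ σ)) * bet α' c)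
    (i : Fin m) (hi : n i ≠ 1) : ∃ x y : 𝓞 F, x ≠ 0 ∧ y ≠ 0 ∧ rad b i * y ^ n i = rad b' i * x ^ n i := by
  classical
  have hni : n i ≠ 0 := NeZero.ne (n i)
  have hfact : Fact (1 < n i) := ⟨by omega⟩
  have hval : ∀ j, ((Pi.single i 1 : V n) j).val = if j = i then 1 else 0 := by
    intro j
    by_cases hj : j = i
    · subst hj
      rw [Pi.single_eq_same, if_pos rfl, ZMod.val_one]
    · rw [Pi.single_eq_of_ne hj, if_neg hj, ZMod.val_zero]
  have hbet : ∀ γ : Fin m → H, bet γ (Pi.single i 1 : V n) = γ i := by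
    intro γ
    unfold bet
    rw [Finset.prod_eq_single i]
    · rw [hval, if_pos rfl, pow_one]
    · intro j _ hj
      rw [hval, if_neg hj, pow_zero]
    · intro h0
      exact absurd (Finset.mem_univ _) h0
  have hne : ∀ {b : V n → 𝓞 F} {α : Fin m → H}, IsExt b H α → (∀ i, rad b i ≠ 0) → α i ≠ 0 := by
    intro b α h hb h0
    have h1 := h.pow i
    rw [h0, zero_pow hni, eq_comm, map_eq_zero] at h1
    exact hb i (RingOfIntegers.coe_eq_zero_iff.1 h1)
  have hα := hne h hb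
  have hα' := hne h' hb'
  have hfix : ∀ σ : Gal(H/F), σ (α i / α' i) = α i / α' i := by
    intro σ
    have h1 := hκ σ (Pi.single i 1)
    have h2 := hκ' σ (Pi.single i 1)
    rw [hbet] at h1 h2
    rw [map_div₀, h1, h2]
    have h3 : algebraMap F H (ζ ^ pr e (Pi.single i 1) (κ σ)) ≠ 0 := by
      intro h0
      rw [h0, zero_mul, map_eq_zero] at h1
      exact hα h1
    rw [mul_div_mul_left _ _ h3]
  have hbot : α i / α' i ∈ (⊥ : IntermediateField F H) := (IsGalois.mem_bot_iff_fixed _).2 hfix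
  obtain ⟨c, hc⟩ := IntermediateField.mem_bot.1 hbot
  obtain ⟨x, y, hy, hxy⟩ := IsFractionRing.div_surjective (A := 𝓞 F) c
  have hy0 : y ≠ 0 := nonZeroDivisors.ne_zero hy
  have hc0 : c ≠ 0 := by
    intro h0
    rw [h0, map_zero] at hc
    exact div_ne_zero hα hα' hc.symm
  have hx0 : x ≠ 0 := by
    intro h0
    rw [h0, map_zero, zero_div] at hxy
    exact hc0 hxy.symm
  have hy1 : (algebraMap (𝓞 F) F y) ≠ 0 := by
    rwa [ne_eq, FaithfulSMul.algebraMap_eq_zero_iff]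
  refine ⟨x, y, hx0, hy0, ?_⟩
  apply FaithfulSMul.algebraMap_injective (𝓞 F) F
  apply (algebraMap F H).injective
  have h4 : α i = algebraMap F H c * α' i := by
    rw [hc, div_mul_cancel₀ _ hα']
  have h5 := h.pow i
  have h6 := h'.pow i
  rw [h4, mul_pow, h6, ← hxy, map_div₀] at h5
  rw [map_mul, map_mul, map_mul, map_mul, map_pow, map_pow, map_pow, map_pow]
  have h7 : algebraMap F H (algebraMap (𝓞 F) F y) ≠ 0 := by
    rwa [ne_eq, map_eq_zero]
  have h8 : algebraMap F H (algebraMap (𝓞 F) F (rad b i)) = algebraMap F H ((rad b i : 𝓞 F) : F) := rfl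
  rw [h8, ← h5, div_pow]
  field_simp

theorem mult_T [IsGalois F H] {e : ℕ} {ζ : F} (hζ : IsPrimitiveRoot ζ e) (he : 0 < e) (hn : ∀ i, n i ∣ e)
    {S : Finset (Prm F)} {g : Ideal (𝓞 F) → 𝓞 F} (hg : IsGen S g) (φ : Gal(H/F) ≃* Multiplicative (V n)) :
    {T : W n → Ideal (𝓞 F) | (∀ v, Cop S (T v)) ∧ SqT T ∧ ∃ α : Fin m → H, IsExt (bOf g (fun _ => 1) T) H α}.Finite ∧
    Set.ncard {T : W n → Ideal (𝓞 F) | (∀ v, Cop S (T v)) ∧ SqT T ∧ ∃ α : Fin m → H, IsExt (bOf g (fun _ => 1) T) H α} ≤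
      Fintype.card (V n) ^ Fintype.card (V n) := by
  classical
  set Z : Set (W n → Ideal (𝓞 F)) := {T : W n → Ideal (𝓞 F) | (∀ v, Cop S (T v)) ∧ SqT T ∧
    ∃ α : Fin m → H, IsExt (bOf g (fun _ => 1) T) H α} with hZ
  have hex : ∀ T : W n → Ideal (𝓞 F), ∃ κ : Gal(H/F) → V n, T ∈ Z → ∃ α : Fin m → H, IsExt (bOf g (fun _ => 1) T) H α ∧
      ∀ (σ : Gal(H/F)) (c : V n), σ (bet α c) = algebraMap F H (ζ ^ pr e c (κ σ)) * bet α c := by
    intro T
    by_cases hT : T ∈ Z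
    · obtain ⟨h1, h2, α, h3⟩ := hT
      obtain ⟨κ, -, hκ⟩ := kum hζ he hn h3 (mt_radne hg h1)
      exact ⟨fun σ => (κ σ).toAdd, fun _ => ⟨α, h3, hκ⟩⟩
    · exact ⟨fun _ => 0, fun h => absurd h hT⟩
  choose κ hκ using hex
  have hinj : Set.InjOn κ Z := by
    intro T hT T' hT' hTT
    obtain ⟨α, h3, h4⟩ := hκ T hT
    obtain ⟨α', h3', h4'⟩ := hκ T' hT'
    rw [← hTT] at h4'
    have hc := mt_kum h3 h3' (mt_radne hg hT.1) (mt_radne hg hT'.1) (κ T) h4 h4'
    have hc' := mt_kum h3' h3 (mt_radne hg hT'.1) (mt_radne hg hT.1) (κ T) h4' h4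
    funext v
    refine mt_ext (hT.1 v).1 (hT'.1 v).1 (hT.2.1.1 v) (hT'.2.1.1 v) fun q => ?_
    by_cases hq : q ∈ S
    · exact ⟨fun h => absurd h ((hT.1 v).2 q hq), fun h => absurd h ((hT'.1 v).2 q hq)⟩
    · exact ⟨mt_le hg hT.1 hT.2.1 hT'.1 hT'.2.1 hc hq v, mt_le hg hT'.1 hT'.2.1 hT.1 hT.2.1 hc' hq v⟩
  have hfinG : Finite Gal(H/F) := Finite.of_equiv _ φ.symm.toEquiv
  have hfin : Z.Finite := Set.Finite.of_finite_image (Set.toFinite (κ '' Z)) hinj
  refine ⟨hfin, ?_⟩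
  rw [← Set.InjOn.ncard_image hinj]
  refine (Set.ncard_le_card _).trans ?_
  rw [Nat.card_fun, Nat.card_congr φ.toEquiv, Nat.card_eq_fintype_card, Nat.card_eq_fintype_card, Fintype.card_multiplicative]

end StarkR
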