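import Pool.Agent.Lib.MP_d9bae3_nt.NA.RamT
import Pool.Agent.Lib.MP_d9bae3_nt.NA.OrdQ
import Pool.Agent.Lib.MP_d9bae3_nt.NA.NDefs

/-!
# Module SNA-RadB: the norm of the product of the ramified primes

Plan.  `b = bOf g ε T`, `ε_v` units outside `S`, `T` prime to `S`, squarefree, pairwise coprime.  For `q ∉ S`: `b_v ∈ q ↔ T_v ≤ q` (`v ≠ 0`), `b_v ∉ q^2`, `b_0 = 1`; so by `ram_of` and `unram_of` (`e ∉ q` by `GoodS.dvd`) a prime `q ∉ S` is ramified in `H` if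
and only if `T_v ≤ q` for some `v` (and then for only one).  `N(T_v) = ∏_{q : T_v ≤ q} N(q)` (`T_v` is squarefree, so it is the product of its prime divisors; e.g. `Ideal.finprod_heightOneSpectrum_factorization`).  So `∏_v N(T_v)` is the product of the `N(q)`
over the ramified `q ∉ S`; `radN` has in addition the ramified `q ∈ S`, each `N(q) ≥ 1`.  The set of the ramified primes is finite.
-/

namespace StarkR

open NumberField IsDedekindDomain

variable {F : Type} [Field F] [NumberField F] {m : ℕ} {n : Fin m → ℕ} [∀ i, NeZero (n i)]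
variable {H : Type} [Field H] [NumberField H] [Algebra F H]

private theorem rb_nm_pos (q : Prm F) : 1 ≤ nm q := by
  have h : nm q ≠ 0 := by
    unfold nm
    rw [Ne, Ideal.absNorm_eq_zero_iff]
    exact q.ne_bot
  omega

private theorem rb_fin {I : Ideal (𝓞 F)} (hI : I ≠ ⊥) : {q : Prm F | I ≤ q.asIdeal}.Finite := by
  have h := Ideal.finite_factors (R := 𝓞 F) (I := I) hI
  refine h.subset fun q hq => ?_
  exact Ideal.dvd_iff_le.2 hq

/-- The norm of a squarefree ideal is the product of the norms of its prime divisors. -/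
private theorem rb_norm {I : Ideal (𝓞 F)} (hI : I ≠ ⊥) (h2 : ∀ q : Prm F, ¬ I ≤ q.asIdeal ^ 2)
    {D : Finset (Prm F)} (hD : ∀ q, q ∈ D ↔ I ≤ q.asIdeal) : Ideal.absNorm I = ∏ q ∈ D, nm q := by
  classical
  have hinj : Set.InjOn (fun q : Prm F => q.asIdeal) (D : Set (Prm F)) := fun a _ b _ h => HeightOneSpectrum.ext h
  have h1 : ∏ q ∈ D, q.asIdeal ∣ I := by
    rw [← Finset.prod_image (s := D) (f := fun J : Ideal (𝓞 F) => J) (g := fun q : Prm F => q.asIdeal) hinj]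
    refine Finset.prod_primes_dvd I ?_ ?_
    · intro P hP
      obtain ⟨q, hq, rfl⟩ := Finset.mem_image.1 hP
      exact q.prime
    · intro P hP
      obtain ⟨q, hq, rfl⟩ := Finset.mem_image.1 hP
      exact Ideal.dvd_iff_le.2 ((hD q).1 hq)
  obtain ⟨J, hJ⟩ := h1
  have hJ1 : J = ⊤ := by
    by_contra hne
    obtain ⟨P, hPm, hJP⟩ := Ideal.exists_le_maximal J hne
    have hP0 : P ≠ ⊥ := by
      rintro rfl
      have h3 : J = ⊥ := le_bot_iff.1 hJP
      rw [h3, Ideal.mul_bot] at hJ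
      exact hI hJ
    have hIq : I ≤ P := by
      rw [hJ]
      exact Ideal.mul_le_right.trans hJP
    have hqD : (⟨P, hPm.isPrime, hP0⟩ : Prm F) ∈ D := (hD _).2 hIq
    apply h2 ⟨P, hPm.isPrime, hP0⟩
    rw [hJ, pow_two]
    refine Ideal.mul_mono ?_ hJP
    rw [← Finset.mul_prod_erase D _ hqD]
    exact Ideal.mul_le_left
  rw [hJ, hJ1, Ideal.mul_top, map_prod]
  rfl

omit [∀ i, NeZero (n i)] in
private theorem rb_mem {S : Finset (Prm F)} {g : Ideal (𝓞 F) → 𝓞 F} (hg : IsGen S g)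
    {ε : V n → 𝓞 F} (hε : ∀ v, IsSU S (ε v)) {T : W n → Ideal (𝓞 F)} (hT : ∀ v, Cop S (T v)) {q : Prm F} (hq : q ∉ S)
    (v : W n) (k : ℕ) : bOf g ε T v.1 ∈ q.asIdeal ^ k ↔ T v ≤ q.asIdeal ^ k := by
  have h1 : bOf g ε T v.1 = ε v.1 * g (T v) := by
    unfold bOf
    rw [dif_pos v.2]
  rw [h1, ← (hg (T v) (hT v).1).2 q hq k]
  have hqp := q.isPrime
  refine ⟨fun h => ((Ideal.IsPrime.mul_mem_pow q.asIdeal h).resolve_left ((hε v.1).2 q hq)), fun h => Ideal.mul_mem_left _ _ h⟩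

omit [∀ i, NeZero (n i)] in
private theorem rb_zero (g : Ideal (𝓞 F) → 𝓞 F) (ε : V n → 𝓞 F) (T : W n → Ideal (𝓞 F)) (q : Prm F) :
    bOf g ε T 0 ∉ q.asIdeal := by
  have h1 : bOf g ε T 0 = 1 := by
    unfold bOf
    rw [dif_neg (by simp)]
  rw [h1]
  exact fun h => q.isPrime.ne_top ((Ideal.eq_top_iff_one _).2 h)

omit [∀ i, NeZero (n i)] in
private theorem rb_mem1 {S : Finset (Prm F)} {g : Ideal (𝓞 F) → 𝓞 F} (hg : IsGen S g)
    {ε : V n → 𝓞 F} (hε : ∀ v, IsSU S (ε v)) {T : W n → Ideal (𝓞 F)} (hT : ∀ v, Cop S (T v)) {q : Prm F} (hq : q ∉ S)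
    (v : W n) : bOf g ε T v.1 ∈ q.asIdeal ↔ T v ≤ q.asIdeal := by
  have h := rb_mem hg hε hT hq v 1
  rwa [pow_one] at h

private theorem rb_iff [IsGalois F H] {e : ℕ} {ζ : F} (hζ : IsPrimitiveRoot ζ e) (he : 0 < e) (hn : ∀ i, n i ∣ e)
    {S : Finset (Prm F)} (hS : GoodS e S) {g : Ideal (𝓞 F) → 𝓞 F} (hg : IsGen S g)
    {ε : V n → 𝓞 F} (hε : ∀ v, IsSU S (ε v)) {T : W n → Ideal (𝓞 F)} (hT : ∀ v, Cop S (T v)) (hT2 : SqT T)
    {α : Fin m → H} (h : IsExt (bOf g ε T) H α) {q : Prm F} (hq : q ∉ S) :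
    Ramified H q ↔ ∃ v : W n, T v ≤ q.asIdeal := by
  constructor
  · intro hr
    by_contra hno
    push Not at hno
    refine unram_of hζ he hn h (fun h1 => hq (hS.dvd q h1)) (fun w => ?_) hr
    by_cases hw : w = 0
    · rw [hw]
      exact rb_zero g ε T q
    · exact fun h1 => hno ⟨w, hw⟩ ((rb_mem1 hg hε hT hq ⟨w, hw⟩).1 h1)
  · rintro ⟨v, hv⟩
    refine ram_of h (q := q) (v := v.1) v.2 ((rb_mem1 hg hε hT hq v).2 hv)
      (fun h1 => hT2.1 v q ((rb_mem hg hε hT hq v 2).1 h1)) (fun w hw => ?_)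
    by_cases hw0 : w = 0
    · rw [hw0]
      exact rb_zero g ε T q
    · intro h1
      have h2 := (rb_mem1 hg hε hT hq ⟨w, hw0⟩).1 h1
      refine hT2.2 v ⟨w, hw0⟩ (fun h3 => hw ?_) q hv h2
      rw [h3]

private theorem rb_main [IsGalois F H] {e : ℕ} {ζ : F} (hζ : IsPrimitiveRoot ζ e) (he : 0 < e) (hn : ∀ i, n i ∣ e)
    {S : Finset (Prm F)} (hS : GoodS e S) {g : Ideal (𝓞 F) → 𝓞 F} (hg : IsGen S g)
    {ε : V n → 𝓞 F} (hε : ∀ v, IsSU S (ε v)) {T : W n → Ideal (𝓞 F)} (hT : ∀ v, Cop S (T v)) (hT2 : SqT T)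
    {α : Fin m → H} (h : IsExt (bOf g ε T) H α) :
    ∃ R : Finset (Prm F), R ⊆ S ∧ radN F H = (∏ q ∈ R, nm q) * ∏ v, Ideal.absNorm (T v) := by
  classical
  have hfin : ∀ v : W n, {q : Prm F | T v ≤ q.asIdeal}.Finite := fun v => rb_fin (hT v).1
  have hD : ∀ (v : W n) (q : Prm F), q ∈ (hfin v).toFinset ↔ T v ≤ q.asIdeal := fun v q => by
    rw [Set.Finite.mem_toFinset]
    rfl
  refine ⟨S.filter (fun q => Ramified H q), Finset.filter_subset _ _, ?_⟩
  have hset : {q : Prm F | Ramified H q} =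
      ((S.filter (fun q => Ramified H q) ∪ Finset.univ.biUnion fun v : W n => (hfin v).toFinset : Finset (Prm F)) : Set (Prm F)) := by
    ext q
    rw [Finset.mem_coe, Finset.mem_union, Finset.mem_filter, Finset.mem_biUnion, Set.mem_ofPred_eq]
    constructor
    · intro hr
      by_cases hq : q ∈ S
      · exact Or.inl ⟨hq, hr⟩
      · obtain ⟨v, hv⟩ := (rb_iff hζ he hn hS hg hε hT hT2 h hq).1 hr
        exact Or.inr ⟨v, Finset.mem_univ _, (hD v q).2 hv⟩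
    · rintro (⟨_, hr⟩ | ⟨v, _, hv⟩)
      · exact hr
      · have hv' := (hD v q).1 hv
        have hq : q ∉ S := fun h1 => (hT v).2 q h1 hv'
        exact (rb_iff hζ he hn hS hg hε hT hT2 h hq).2 ⟨v, hv'⟩
  have hdis : Disjoint (S.filter (fun q => Ramified H q)) (Finset.univ.biUnion fun v : W n => (hfin v).toFinset) := by
    rw [Finset.disjoint_left]
    intro q h1 h2
    rw [Finset.mem_filter] at h1
    rw [Finset.mem_biUnion] at h2
    obtain ⟨v, _, hv⟩ := h2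
    exact (hT v).2 q h1.1 ((hD v q).1 hv)
  have hpair : (↑(Finset.univ : Finset (W n)) : Set (W n)).PairwiseDisjoint (fun v : W n => (hfin v).toFinset) := by
    intro v _ w _ hvw
    rw [Function.onFun, Finset.disjoint_left]
    intro q h1 h2
    exact hT2.2 v w hvw q ((hD v q).1 h1) ((hD w q).1 h2)
  unfold radN
  rw [hset, finprod_mem_coe_finset, Finset.prod_union hdis, Finset.prod_biUnion hpair]
  congr 1
  refine Finset.prod_congr rfl fun v _ => ?_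
  exact (rb_norm (hT v).1 (hT2.1 v) (hD v)).symm

theorem radN_ge [IsGalois F H] {e : ℕ} {ζ : F} (hζ : IsPrimitiveRoot ζ e) (he : 0 < e) (hn : ∀ i, n i ∣ e)
    {S : Finset (Prm F)} (hS : GoodS e S) {g : Ideal (𝓞 F) → 𝓞 F} (hg : IsGen S g)
    {ε : V n → 𝓞 F} (hε : ∀ v, IsSU S (ε v)) {T : W n → Ideal (𝓞 F)} (hT : ∀ v, Cop S (T v)) (hT2 : SqT T)
    {α : Fin m → H} (h : IsExt (bOf g ε T) H α) : ∏ v, Ideal.absNorm (T v) ≤ radN F H := by
  obtain ⟨R, _, hR⟩ := rb_main hζ he hn hS hg hε hT hT2 h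
  rw [hR]
  exact Nat.le_mul_of_pos_left _ (Finset.prod_pos fun q _ => rb_nm_pos q)

theorem radN_le [IsGalois F H] {e : ℕ} {ζ : F} (hζ : IsPrimitiveRoot ζ e) (he : 0 < e) (hn : ∀ i, n i ∣ e)
    {S : Finset (Prm F)} (hS : GoodS e S) {g : Ideal (𝓞 F) → 𝓞 F} (hg : IsGen S g)
    {ε : V n → 𝓞 F} (hε : ∀ v, IsSU S (ε v)) {T : W n → Ideal (𝓞 F)} (hT : ∀ v, Cop S (T v)) (hT2 : SqT T)
    {α : Fin m → H} (h : IsExt (bOf g ε T) H α) : radN F H ≤ (∏ q ∈ S, nm q) * ∏ v, Ideal.absNorm (T v) := by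
  obtain ⟨R, hRS, hR⟩ := rb_main hζ he hn hS hg hε hT hT2 h
  rw [hR]
  exact Nat.mul_le_mul_right _ (Finset.prod_le_prod_of_subset_of_one_le' hRS fun q _ _ => rb_nm_pos q)

end StarkR
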