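import Pool.Agent.Lib.MP_d9bae3_nt.NA.NBase

/-!
# Module SNA-RichOf: rich tuples of ideals give rich families of elements

Plan.  `q` with `PP` and `EvT e g v T q`: `e ∉ q` as `q ∉ S` (`GoodS.dvd`).  `b_v = ε_v g(T_v)` with `g(T_v) ∈ q ∖ q^2` (`IsGen`), `ε_v ∉ q` (`IsSU`), so `b_v ∈ q ∖ q^2` (`q` is prime; if `ε x ∈ q^2` and `ε ∉ q` then
`x ∈ q^2`: `Ideal.IsPrime`/multiplicities, e.g. with `intValuation`).  For `w ≠ v`: if `w = 0`, `b_w = 1`; else `b_w = ε_w g(T_w)`, both factors are prime to `q` and `e`-th power residues (`PP` for `ε_w`, `Res` for `g(T_w)`).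
-/

namespace StarkR

open NumberField IsDedekindDomain

variable {F : Type} [Field F] [NumberField F] {m : ℕ} {n : Fin m → ℕ}

theorem rich_of {e : ℕ} {S : Finset (Prm F)} (hS : GoodS e S) {g : Ideal (𝓞 F) → 𝓞 F} (hg : IsGen S g) {k : ℕ}
    {T : W n → Ideal (𝓞 F)} (hT : ∀ v, Cop S (T v)) {ε : V n → 𝓞 F} (hε : ∀ v, IsSU S (ε v)) (h : RichT e S g k T) :
    Rich e k (bOf g ε T) := by
  intro v hv
  obtain ⟨A, hk, hA⟩ := h ⟨v, hv⟩
  refine ⟨A, hk, fun q hq => ?_⟩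
  obtain ⟨⟨hqS, hPP⟩, h1, h2, h3⟩ := hA q hq
  have hprime : q.asIdeal.IsPrime := q.isPrime
  refine ⟨fun he => hqS (hS.dvd q he), ?_⟩
  have hb : bOf g ε T v = ε v * g (T ⟨v, hv⟩) := by
    unfold bOf
    rw [dif_pos hv]
  have hgv := (hg (T ⟨v, hv⟩) (hT ⟨v, hv⟩).1).2 q hqS
  refine ⟨?_, ?_, ?_⟩
  · rw [hb]
    refine Ideal.mul_mem_left _ _ ?_
    have := (hgv 1).2 (by rw [pow_one]; exact h1)
    rwa [pow_one] at this
  · rw [hb]
    intro hmem
    rcases Ideal.IsPrime.mul_mem_pow q.asIdeal hmem with h4 | h4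
    · exact (hε v).2 q hqS h4
    · exact h2 ((hgv 2).1 h4)
  · intro w hw
    by_cases hw0 : w = 0
    · have hbw : bOf g ε T w = 1 := by
        unfold bOf
        rw [dif_neg (by simpa using hw0)]
      rw [hbw]
      refine ⟨fun h1' => hprime.ne_top ((Ideal.eq_top_iff_one _).2 h1'), 1, ?_⟩
      simp
    · have hbw : bOf g ε T w = ε w * g (T ⟨w, hw0⟩) := by
        unfold bOf
        rw [dif_pos hw0]
      obtain ⟨h5, x, hx⟩ := h3 ⟨w, hw0⟩ (fun hh => hw (congrArg Subtype.val hh))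
      obtain ⟨y, hy⟩ := hPP (ε w) (hε w)
      rw [hbw]
      refine ⟨fun hm => ?_, y * x, ?_⟩
      · rcases hprime.mem_or_mem hm with h6 | h6
        · exact (hε w).2 q hqS h6
        · exact h5 h6
      · have h7 : ε w * g (T ⟨w, hw0⟩) - (y * x) ^ e =
            ε w * (g (T ⟨w, hw0⟩) - x ^ e) + x ^ e * (ε w - y ^ e) := by ring
        rw [h7]
        exact Ideal.add_mem _ (Ideal.mul_mem_left _ _ hx) (Ideal.mul_mem_left _ _ hy)

end StarkR
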