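import Pool.Agent.Lib.MP_d9bae3_nt.NA.SEx
import Pool.Agent.Lib.MP_d9bae3_nt.NA.Sel
import Pool.Agent.Lib.MP_d9bae3_nt.NA.Tup
import Pool.Agent.Lib.MP_d9bae3_nt.NA.RichOf
import Pool.Agent.Lib.MP_d9bae3_nt.NA.KumE
import Pool.Agent.Lib.MP_d9bae3_nt.NA.DecT
import Pool.Agent.Lib.MP_d9bae3_nt.NA.RadB
import Pool.Agent.Lib.MP_d9bae3_nt.NA.Mult
import Pool.Agent.Lib.MP_d9bae3_nt.NA.FieldOf
import Pool.Agent.Lib.MP_d9bae3_nt.SK.Main

/-!
# Module NAT-FinA: extensions and tuples of ideals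
-/

namespace StarkR

open NumberField IsDedekindDomain Filter Topology

variable {F : Type} [Field F] [NumberField F] {m : ℕ} {n : Fin m → ℕ} [∀ i, NeZero (n i)]

theorem isSU_one (S : Finset (Prm F)) : IsSU S (1 : 𝓞 F) :=
  ⟨one_ne_zero, fun q _ h => q.isPrime.ne_top ((Ideal.eq_top_iff_one _).2 h)⟩

omit [NumberField F] in
theorem isExt_change {H : Type} [Field H] [NumberField H] [Algebra F H] {b : V n → 𝓞 F} {x y z : Fin m → 𝓞 F} {α : Fin m → H}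
    (hα : ∀ i, α i ^ n i = algebraMap F H (x i : F)) (hgen : IntermediateField.adjoin F (Set.range α) = ⊤)
    (hyz : ∀ i, y i ≠ 0 ∧ z i ≠ 0) (h : ∀ i, x i * y i ^ n i = rad b i * z i ^ n i) :
    IsExt b H (fun i => α i * algebraMap F H ((y i : F) / (z i : F))) := by
  have hy : ∀ i, ((y i : 𝓞 F) : F) ≠ 0 := fun i => RingOfIntegers.coe_ne_zero_iff.2 (hyz i).1
  have hz : ∀ i, ((z i : 𝓞 F) : F) ≠ 0 := fun i => RingOfIntegers.coe_ne_zero_iff.2 (hyz i).2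
  refine ⟨fun i => ?_, ?_⟩
  · rw [mul_pow, hα, ← map_pow, ← map_mul]
    congr 1
    have h1 : ((x i : 𝓞 F) : F) * (y i : F) ^ n i = (rad b i : F) * (z i : F) ^ n i := by
      have h2 := congrArg (fun t : 𝓞 F => (t : F)) (h i)
      simpa using h2
    rw [div_pow, ← mul_div_assoc, h1, mul_div_assoc, div_self (pow_ne_zero _ (hz i)), mul_one]
  · rw [eq_top_iff, ← hgen, IntermediateField.adjoin_le_iff]
    rintro _ ⟨i, rfl⟩
    have h1 : α i = (α i * algebraMap F H ((y i : F) / (z i : F))) * algebraMap F H ((z i : F) / (y i : F)) := by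
      rw [mul_assoc, ← map_mul, div_mul_div_cancel₀ (hz i), div_self (hy i), map_one, mul_one]
    rw [h1]
    exact mul_mem (IntermediateField.subset_adjoin F _ ⟨i, rfl⟩) (IntermediateField.algebraMap_mem _ _)

theorem ext_data {e : ℕ} {ζ : F} (hζ : IsPrimitiveRoot ζ e) (he : 0 < e) (hn : ∀ i, n i ∣ e) {S : Finset (Prm F)} (hS : GoodS e S)
    {g : Ideal (𝓞 F) → 𝓞 F} (hg : IsGen S g) {E : Finset (𝓞 F)} (hE1 : ∀ ε ∈ E, IsSU S ε)
    (hE2 : ∀ x : 𝓞 F, IsSU S x → ∃ ε ∈ E, ∃ z w : 𝓞 F, IsSU S z ∧ IsSU S w ∧ x * z ^ e = ε * w ^ e)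
    {X : ℕ} {H : IntermediateField F (AlgebraicClosure F)} (hH : H ∈ AExt F n X) :
    ∃ p : (V n → 𝓞 F) × (W n → Ideal (𝓞 F)), ((∀ v, p.1 v ∈ E ∨ p.1 v = 1) ∧ p.2 ∈ TT (W n) S X) ∧
      ∃ (_ : NumberField H) (_ : IsGalois F H) (α : Fin m → H), IsExt (bOf g p.1 p.2) H α := by
  obtain ⟨hNF, hGal, ⟨φ⟩, hX⟩ := hH
  obtain ⟨x, α, hx, hα, hgen⟩ := kum_exists hζ he hn φ
  obtain ⟨ε, T, y, z, hε, hT, hT2, hyz, hxy⟩ := decomp he hn hS hg hE1 hE2 x hx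
  have hext := isExt_change hα hgen hyz hxy
  have hεU : ∀ v, IsSU S (ε v) := fun v => (hε v).elim (hE1 _) (fun h => h ▸ isSU_one S)
  have hN := radN_ge hζ he hn hS hg hεU hT hT2 hext
  refine ⟨(ε, T), ⟨hε, fun i => ⟨hT i, (hT i).1⟩, ?_⟩, hNF, hGal, _, hext⟩
  have h1 : (∏ v, Ideal.absNorm (T v)) ≤ X := hN.trans hX
  exact_mod_cast h1

omit [NumberField F] in
/-- the pairs of a function with values in `E ∪ {1}` and a tuple in `B` -/
theorem pairs_finite {E : Finset (𝓞 F)} {B : Set (W n → Ideal (𝓞 F))} (hB : B.Finite) :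
    {p : (V n → 𝓞 F) × (W n → Ideal (𝓞 F)) | (∀ v, p.1 v ∈ E ∨ p.1 v = 1) ∧ p.2 ∈ B}.Finite ∧
    {p : (V n → 𝓞 F) × (W n → Ideal (𝓞 F)) | (∀ v, p.1 v ∈ E ∨ p.1 v = 1) ∧ p.2 ∈ B}.ncard ≤
      (E.card + 1) ^ Fintype.card (V n) * B.ncard := by
  classical
  have h1 : {p : (V n → 𝓞 F) × (W n → Ideal (𝓞 F)) | (∀ v, p.1 v ∈ E ∨ p.1 v = 1) ∧ p.2 ∈ B} =
      ((Fintype.piFinset (fun _ : V n => insert 1 E) : Finset (V n → 𝓞 F)) : Set (V n → 𝓞 F)) ×ˢ B := by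
    ext p
    simp only [Set.mem_ofPred_eq, Set.mem_prod, Finset.mem_coe, Fintype.mem_piFinset, Finset.mem_insert]
    refine and_congr_left fun _ => forall_congr' fun v => or_comm
  rw [h1]
  refine ⟨(Finset.finite_toSet _).prod hB, ?_⟩
  rw [Set.ncard_prod, Set.ncard_coe_finset, Fintype.card_piFinset, Finset.prod_const, Finset.card_univ]
  exact Nat.mul_le_mul_right _ (Nat.pow_le_pow_left (Finset.card_insert_le _ _) _)

theorem ext_count {e : ℕ} {ζ : F} (hζ : IsPrimitiveRoot ζ e) (he : 0 < e) (hn : ∀ i, n i ∣ e) {S : Finset (Prm F)} (hS : GoodS e S)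
    {g : Ideal (𝓞 F) → 𝓞 F} (hg : IsGen S g) {E : Finset (𝓞 F)} (hE1 : ∀ ε ∈ E, IsSU S ε)
    (hE2 : ∀ x : 𝓞 F, IsSU S x → ∃ ε ∈ E, ∃ z w : 𝓞 F, IsSU S z ∧ IsSU S w ∧ x * z ^ e = ε * w ^ e) {X : ℕ}
    {A : Set (IntermediateField F (AlgebraicClosure F))} {B : Set (W n → Ideal (𝓞 F))} (hA : A ⊆ AExt F n X) (hB : B.Finite)
    (hAB : ∀ H ∈ A, ∀ (p : (V n → 𝓞 F) × (W n → Ideal (𝓞 F))), (∀ v, p.1 v ∈ E ∨ p.1 v = 1) → p.2 ∈ TT (W n) S X →
      ∀ (_ : NumberField H) (_ : IsGalois F H) (α : Fin m → H), IsExt (bOf g p.1 p.2) H α → p.2 ∈ B) :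
    A.Finite ∧ A.ncard ≤ (E.card + 1) ^ Fintype.card (V n) * B.ncard := by
  classical
  obtain ⟨h1, h2⟩ := pairs_finite (E := E) hB
  let f : IntermediateField F (AlgebraicClosure F) → (V n → 𝓞 F) × (W n → Ideal (𝓞 F)) := fun H =>
    if hH : H ∈ AExt F n X then (ext_data hζ he hn hS hg hE1 hE2 hH).choose else (fun _ => 1, fun _ => ⊤)
  have hf : ∀ H (hH : H ∈ AExt F n X), f H = (ext_data hζ he hn hS hg hE1 hE2 hH).choose := fun H hH => dif_pos hH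
  have hmaps : Set.MapsTo f A {p : (V n → 𝓞 F) × (W n → Ideal (𝓞 F)) | (∀ v, p.1 v ∈ E ∨ p.1 v = 1) ∧ p.2 ∈ B} := by
    intro H hHA
    obtain ⟨h3, hNF, hGal, α, h4⟩ := (ext_data hζ he hn hS hg hE1 hE2 (hA hHA)).choose_spec
    rw [← hf H (hA hHA)] at h3 h4
    exact ⟨h3.1, hAB H hHA _ h3.1 h3.2 hNF hGal α h4⟩
  have hinj : Set.InjOn f A := by
    intro H hH H' hH' heq
    obtain ⟨-, hNF, hGal, α, h4⟩ := (ext_data hζ he hn hS hg hE1 hE2 (hA hH)).choose_spec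
    obtain ⟨-, hNF', hGal', α', h4'⟩ := (ext_data hζ he hn hS hg hE1 hE2 (hA hH')).choose_spec
    rw [← hf H (hA hH)] at h4
    rw [← hf H' (hA hH'), ← heq] at h4'
    exact field_unique hζ he hn _ h4 h4'
  refine ⟨Set.Finite.of_injOn hmaps hinj h1, ?_⟩
  exact (Set.ncard_le_ncard_of_injOn f hmaps hinj h1).trans h2

theorem bad_le {e : ℕ} {ζ : F} (hζ : IsPrimitiveRoot ζ e) (he : 0 < e) (hn : ∀ i, n i ∣ e) {S : Finset (Prm F)} (hS : GoodS e S)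
    {g : Ideal (𝓞 F) → 𝓞 F} (hg : IsGen S g) {E : Finset (𝓞 F)} (hE1 : ∀ ε ∈ E, IsSU S ε)
    (hE2 : ∀ x : 𝓞 F, IsSU S x → ∃ ε ∈ E, ∃ z w : 𝓞 F, IsSU S z ∧ IsSU S w ∧ x * z ^ e = ε * w ^ e)
    {k : ℕ} (P : IntermediateField F (AlgebraicClosure F) → Prop)
    (hP : ∀ (H : IntermediateField F (AlgebraicClosure F)) (_ : NumberField H) (_ : IsGalois F H) (b : V n → 𝓞 F) (α : Fin m → H),
      Rich e k b → IsExt b H α → P H) (X : ℕ) :
    {H | H ∈ AExt F n X ∧ ¬ P H}.ncard ≤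
      (E.card + 1) ^ Fintype.card (V n) * {T | T ∈ TT (W n) S X ∧ ¬ RichT e S g k T}.ncard := by
  refine (ext_count hζ he hn hS hg hE1 hE2 (fun H hH => hH.1) ((tup_finite _ _).subset fun T hT => hT.1) ?_).2
  rintro H ⟨hH, hPH⟩ p hp1 hp2 hNF hGal α hα
  refine ⟨hp2, fun hr => hPH ?_⟩
  exact hP H hNF hGal _ α (rich_of hS hg (fun v => (hp2.1 v).1) (fun v => (hp1 v).elim (hE1 _) fun h => h ▸ isSU_one S) hr) hα

theorem aext_finite {e : ℕ} {ζ : F} (hζ : IsPrimitiveRoot ζ e) (he : 0 < e) (hn : ∀ i, n i ∣ e) (X : ℕ) :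
    (AExt F n X).Finite := by
  obtain ⟨S, hS⟩ := exists_goodS F he
  obtain ⟨g, hg⟩ := exists_gen hS
  obtain ⟨E, hE1, hE2⟩ := sel_finite he S
  exact (ext_count (B := TT (W n) S X) hζ he hn hS hg hE1 hE2 subset_rfl (tup_finite _ _) fun H _ p _ hp2 _ _ _ _ => hp2).1

theorem all_ge {e : ℕ} {ζ : F} (hζ : IsPrimitiveRoot ζ e) (he : 0 < e) (hn : ∀ i, n i ∣ e) {S : Finset (Prm F)} (hS : GoodS e S)
    {g : Ideal (𝓞 F) → 𝓞 F} (hg : IsGen S g) {X : ℕ} {Y : ℝ} (hXY : (∏ q ∈ S, nm q : ℕ) * Y ≤ X) :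
    {T | T ∈ TT (W n) S Y ∧ SqT T ∧ RichT e S g 1 T}.ncard ≤
      Fintype.card (V n) ^ Fintype.card (V n) * (AExt F n X).ncard := by
  classical
  have hU : ∀ v : V n, IsSU S ((fun _ => (1 : 𝓞 F) : V n → 𝓞 F) v) := fun v => isSU_one S
  have hdata : ∀ T : W n → Ideal (𝓞 F), T ∈ {T | T ∈ TT (W n) S Y ∧ SqT T ∧ RichT e S g 1 T} →
      ∃ H : IntermediateField F (AlgebraicClosure F), H ∈ AExt F n X ∧ ∃ (_ : NumberField H) (_ : IsGalois F H) (α : Fin m → H),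
        IsExt (bOf g (fun _ => 1) T) H α := by
    rintro T ⟨hT, hT2, hT3⟩
    have hr := rich_of hS hg (fun v => (hT.1 v).1) hU hT3
    obtain ⟨H, hNF, hGal, α, hα⟩ := field_of hζ he hn (bOf g (fun _ => 1) T) (rad_ne_zero hr)
    refine ⟨H, ⟨hNF, hGal, gal_iso hζ he hn hr hα, ?_⟩, hNF, hGal, α, hα⟩
    have h1 := radN_le hζ he hn hS hg hU (fun v => (hT.1 v).1) hT2 hα
    have h2 : ((∏ q ∈ S, nm q : ℕ) : ℝ) * ∏ v, (Ideal.absNorm (T v) : ℝ) ≤ X :=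
      (mul_le_mul_of_nonneg_left hT.2 (Nat.cast_nonneg _)).trans hXY
    have h3 : (radN F H : ℝ) ≤ X := by
      refine le_trans ?_ h2
      exact_mod_cast h1
    exact_mod_cast h3
  let f : (W n → Ideal (𝓞 F)) → IntermediateField F (AlgebraicClosure F) := fun T =>
    if hT : T ∈ {T | T ∈ TT (W n) S Y ∧ SqT T ∧ RichT e S g 1 T} then (hdata T hT).choose else ⊥
  have hf : ∀ T hT, f T = (hdata T hT).choose := fun T hT => dif_pos hT
  have hfin : {T | T ∈ TT (W n) S Y ∧ SqT T ∧ RichT e S g 1 T}.Finite := (tup_finite _ _).subset fun T hT => hT.1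
  rw [Set.ncard_eq_toFinset_card _ hfin, Set.ncard_eq_toFinset_card _ (aext_finite (n := n) hζ he hn X)]
  refine (Finset.card_le_mul_card_image (f := f) hfin.toFinset (Fintype.card (V n) ^ Fintype.card (V n)) ?_).trans
    (Nat.mul_le_mul_left _ (Finset.card_le_card ?_))
  · intro H hH
    rw [Finset.mem_image] at hH
    obtain ⟨T₀, hT₀, hH⟩ := hH
    rw [Set.Finite.mem_toFinset] at hT₀
    obtain ⟨hA, hNF, hGal, α, hα⟩ := (hdata T₀ hT₀).choose_spec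
    rw [← hf T₀ hT₀, hH] at hA
    obtain ⟨hNF, hGal, ⟨φ⟩, hX⟩ := hA
    obtain ⟨h1, h2⟩ := mult_T (S := S) (g := g) hζ he hn hg φ
    refine le_trans ?_ h2
    rw [Set.ncard_eq_toFinset_card _ h1]
    refine Finset.card_le_card fun T hT => ?_
    rw [Finset.mem_filter, Set.Finite.mem_toFinset] at hT
    rw [Set.Finite.mem_toFinset]
    have h3 := (hdata T hT.1).choose_spec.2
    rw [← hf T hT.1, hT.2] at h3
    obtain ⟨hNF', hGal', α', hα'⟩ := h3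
    exact ⟨fun v => (hT.1.1.1 v).1, hT.1.2.1, α', hα'⟩
  · intro H hH
    rw [Finset.mem_image] at hH
    obtain ⟨T₀, hT₀, hH⟩ := hH
    rw [Set.Finite.mem_toFinset] at hT₀ ⊢
    have h1 := (hdata T₀ hT₀).choose_spec.1
    rwa [← hf T₀ hT₀, hH] at h1

end StarkR
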