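import Pool.Agent.Lib.MP_d9bae3_nt.NA.NBase

/-!
# Module SNA-ResC: the residue classes which describe the ideals in one class

`J` has all its prime divisors in `S`, `Q` is a finite set of primes outside `S`; modulus `𝔫 = J ∏_{p ∈ S} p ∏_{q ∈ Q} q`.
* `resSet_mem`: the conditions depend only on the class modulo `𝔫` (`𝔫 ≤ J p` for `p ∈ S`, `𝔫 ≤ q`).
* `resSet_card`: `J / 𝔫 ≅ ∏_p J / J p × ∏_q 𝓞 / q` (Chinese remainder theorem; `J + q = 𝓞`), `J / J p` has `N(p)` elements.  One may also count by an induction over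
  `S` and `Q`: for an ideal `𝔞` and a prime `p` with `J p ⊔ 𝔞' = J` ..., every class modulo `𝔞` in `J` splits into `N(p)` classes modulo `𝔞 p`, of which `N(p) - 1` are outside of `J p`.
  (Alternatively choose `γ ∈ J` with `γ ∉ J p` for all `p ∈ S` and `γ ∉ q`; then `x ↦ γ x` gives a bijection of `𝓞 / ∏ p ∏ q` with `J / 𝔫`, under which the conditions become
  `x ∉ p` and `γ x ∈ R q`; then the usual Chinese remainder theorem for distinct primes `Ideal.quotientInfRingEquivPiQuotient`.)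
-/

namespace StarkR

open NumberField IsDedekindDomain

variable {F : Type} [Field F] [NumberField F]

/-- the modulus `J ∏_{p ∈ S} p ∏_{q ∈ Q} q` -/
noncomputable def modS (J : Ideal (𝓞 F)) (S Q : Finset (Prm F)) : Ideal (𝓞 F) :=
  J * (∏ p ∈ S, p.asIdeal) * ∏ q ∈ Q, q.asIdeal

/-- the classes modulo `modS J S Q` of the `β ∈ J`, `β ∉ J p` for `p ∈ S`, with residues in `R q` for `q ∈ Q` -/
def resSet (J : Ideal (𝓞 F)) (S Q : Finset (Prm F)) (R : (q : Prm F) → Set (𝓞 F ⧸ q.asIdeal)) :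
    Set (𝓞 F ⧸ modS J S Q) :=
  {r | ∃ β : 𝓞 F, Ideal.Quotient.mk (modS J S Q) β = r ∧ β ∈ J ∧ (∀ p ∈ S, β ∉ J * p.asIdeal) ∧
    ∀ q ∈ Q, Ideal.Quotient.mk q.asIdeal β ∈ R q}

private lemma modS_le_J (J : Ideal (𝓞 F)) (S Q : Finset (Prm F)) : modS J S Q ≤ J :=
  le_trans Ideal.mul_le_left Ideal.mul_le_left

private lemma prod_le_mem (S : Finset (Prm F)) {p : Prm F} (hp : p ∈ S) : (∏ p ∈ S, p.asIdeal) ≤ p.asIdeal :=
  Ideal.dvd_iff_le.1 (Finset.dvd_prod_of_mem _ hp)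

private lemma modS_le_Jp (J : Ideal (𝓞 F)) (S Q : Finset (Prm F)) {p : Prm F} (hp : p ∈ S) :
    modS J S Q ≤ J * p.asIdeal :=
  le_trans Ideal.mul_le_left (Ideal.mul_mono_right (prod_le_mem S hp))

private lemma modS_le_q (J : Ideal (𝓞 F)) (S Q : Finset (Prm F)) {q : Prm F} (hq : q ∈ Q) :
    modS J S Q ≤ q.asIdeal :=
  le_trans Ideal.mul_le_right (prod_le_mem Q hq)

private lemma cond_congr (J : Ideal (𝓞 F)) (S Q : Finset (Prm F)) (R : (q : Prm F) → Set (𝓞 F ⧸ q.asIdeal)) {β β' : 𝓞 F}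
    (h : β' - β ∈ modS J S Q) (hβ : β' ∈ J ∧ (∀ p ∈ S, β' ∉ J * p.asIdeal) ∧ ∀ q ∈ Q, Ideal.Quotient.mk q.asIdeal β' ∈ R q) :
    β ∈ J ∧ (∀ p ∈ S, β ∉ J * p.asIdeal) ∧ ∀ q ∈ Q, Ideal.Quotient.mk q.asIdeal β ∈ R q := by
  obtain ⟨h1, h2, h3⟩ := hβ
  refine ⟨?_, fun p hp hb => h2 p hp ?_, fun q hq => ?_⟩
  · have h4 := J.sub_mem h1 (modS_le_J J S Q h)
    simpa using h4
  · have h4 := (J * p.asIdeal).add_mem (modS_le_Jp J S Q hp h) hb
    simpa using h4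
  · have h4 : Ideal.Quotient.mk q.asIdeal β' = Ideal.Quotient.mk q.asIdeal β := Ideal.Quotient.eq.2 (modS_le_q J S Q hq h)
    rw [← h4]
    exact h3 q hq

theorem resSet_mem (J : Ideal (𝓞 F)) (S Q : Finset (Prm F)) (R : (q : Prm F) → Set (𝓞 F ⧸ q.asIdeal)) (β : 𝓞 F) :
    Ideal.Quotient.mk (modS J S Q) β ∈ resSet J S Q R ↔ β ∈ J ∧ (∀ p ∈ S, β ∉ J * p.asIdeal) ∧
      ∀ q ∈ Q, Ideal.Quotient.mk q.asIdeal β ∈ R q := by
  constructor
  · rintro ⟨β', h, h'⟩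
    exact cond_congr J S Q R (Ideal.Quotient.eq.1 h) h'
  · intro h
    exact ⟨β, rfl, h⟩

theorem modS_norm (J : Ideal (𝓞 F)) (S Q : Finset (Prm F)) :
    Ideal.absNorm (modS J S Q) = Ideal.absNorm J * (∏ p ∈ S, nm p) * ∏ q ∈ Q, nm q := by
  unfold modS
  rw [map_mul, map_mul, map_prod, map_prod]
  rfl

private lemma crt_ncard (T : Finset (Prm F)) (A : (t : Prm F) → Set (𝓞 F ⧸ t.asIdeal)) (M : Ideal (𝓞 F))
    (hM : M = ∏ t ∈ T, t.asIdeal) :
    Set.ncard {y : 𝓞 F ⧸ M | ∃ x : 𝓞 F, Ideal.Quotient.mk M x = y ∧ ∀ t ∈ T, Ideal.Quotient.mk t.asIdeal x ∈ A t} =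
      ∏ t ∈ T, (A t).ncard := by
  have hcop : Pairwise (Function.onFun IsCoprime (fun t : T => (t : Prm F).asIdeal)) := by
    intro t t' htt
    have := t.1.isMaximal
    have := t'.1.isMaximal
    refine Ideal.isCoprime_of_isMaximal fun h => htt ?_
    exact Subtype.ext (HeightOneSpectrum.ext h)
  have h1 : M = ⨅ t : T, (t : Prm F).asIdeal := by
    rw [hM, ← Finset.prod_coe_sort T (fun t => t.asIdeal)]
    have h2 := Ideal.prod_eq_iInf_of_pairwise_isCoprime (s := (Finset.univ : Finset T)) (J := fun t : T => (t : Prm F).asIdeal)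
      (fun i _ j _ hij => hcop hij)
    rw [h2]
    simp
  subst h1
  obtain ⟨e, he⟩ : ∃ e : (𝓞 F ⧸ ⨅ t : T, (t : Prm F).asIdeal) ≃+* ∀ t : T, 𝓞 F ⧸ (t : Prm F).asIdeal,
      ∀ x t, e (Ideal.Quotient.mk _ x) t = Ideal.Quotient.mk _ x :=
    ⟨Ideal.quotientInfRingEquivPiQuotient _ hcop, fun x t => rfl⟩
  have h2 : e '' {y : 𝓞 F ⧸ ⨅ t : T, (t : Prm F).asIdeal | ∃ x : 𝓞 F, Ideal.Quotient.mk _ x = y ∧ ∀ t ∈ T, Ideal.Quotient.mk t.asIdeal x ∈ A t} =
      Set.pi Set.univ (fun t : T => A t.1) := by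
    ext f
    constructor
    · rintro ⟨_, ⟨x, rfl, hx⟩, rfl⟩ t _
      rw [he]
      exact hx t t.2
    · intro hf
      obtain ⟨y, rfl⟩ := e.surjective f
      obtain ⟨x, rfl⟩ := Ideal.Quotient.mk_surjective y
      refine ⟨_, ⟨x, rfl, fun t ht => ?_⟩, rfl⟩
      have h3 := hf ⟨t, ht⟩ trivial
      rwa [he] at h3
  rw [← Set.ncard_image_of_injective _ e.injective, h2, ← Nat.card_coe_set_eq, Nat.card_congr (Equiv.Set.univPi _), Nat.card_pi,
    ← Finset.prod_coe_sort T (fun t => (A t).ncard)]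
  rfl

theorem resSet_card (J : Ideal (𝓞 F)) (hJ : J ≠ ⊥) (S Q : Finset (Prm F)) (hJS : ∀ q : Prm F, J ≤ q.asIdeal → q ∈ S)
    (hQ : ∀ q ∈ Q, q ∉ S) (R : (q : Prm F) → Set (𝓞 F ⧸ q.asIdeal)) :
    (resSet J S Q R).ncard = (∏ p ∈ S, (nm p - 1)) * ∏ q ∈ Q, (R q).ncard := by
  classical
  have hdis : Disjoint S Q := Finset.disjoint_right.2 hQ
  obtain ⟨M, hM⟩ : ∃ M, M = ∏ t ∈ S ∪ Q, t.asIdeal := ⟨_, rfl⟩
  have hn : modS J S Q = J * M := by rw [hM, Finset.prod_union hdis, modS, mul_assoc]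
  have hM0 : M ≠ 0 := by
    rw [hM]
    exact Finset.prod_ne_zero_iff.2 fun t _ => t.ne_bot
  have hMT : ∀ t ∈ S ∪ Q, M ≤ t.asIdeal := fun t ht => by
    rw [hM]
    exact prod_le_mem _ ht
  obtain ⟨γ, hγ⟩ := IsDedekindDomain.exists_sup_span_eq (I := J * M) (J := J) Ideal.mul_le_left (mul_ne_zero hJ hM0)
  have hγJ : γ ∈ J := by
    rw [← hγ]
    exact Ideal.mem_sup_right (Ideal.mem_span_singleton_self γ)
  obtain ⟨I, hI⟩ : J ∣ Ideal.span {γ} := Ideal.dvd_iff_le.2 ((Ideal.span_singleton_le_iff_mem _).2 hγJ)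
  have hcop : M ⊔ I = ⊤ := by
    have h1 : J * (M ⊔ I) = J * ⊤ := by
      rw [Ideal.mul_sup, ← hI, hγ, Ideal.mul_top]
    exact mul_left_cancel₀ hJ h1
  have key : ∀ N : Ideal (𝓞 F), M ≤ N → ∀ x : 𝓞 F, γ * x ∈ J * N ↔ x ∈ N := by
    intro N hN x
    constructor
    · intro h
      have h1 : Ideal.span {γ * x} ≤ J * N := (Ideal.span_singleton_le_iff_mem _).2 h
      rw [← Ideal.span_singleton_mul_span_singleton, hI, mul_assoc] at h1
      have h2 : N ∣ I * Ideal.span {x} := (mul_dvd_mul_iff_left hJ).1 (Ideal.dvd_iff_le.2 h1)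
      have h3 : IsCoprime N I := by
        rw [Ideal.isCoprime_iff_sup_eq]
        exact top_le_iff.1 (hcop ▸ sup_le_sup_right hN I)
      have h4 : N ∣ Ideal.span {x} := h3.dvd_of_dvd_mul_left h2
      exact (Ideal.span_singleton_le_iff_mem _).1 (Ideal.dvd_iff_le.1 h4)
    · intro h
      exact Ideal.mul_mem_mul hγJ h
  obtain ⟨f, hf⟩ : ∃ f : 𝓞 F ⧸ M → 𝓞 F ⧸ modS J S Q, ∀ x, f (Ideal.Quotient.mk M x) = Ideal.Quotient.mk _ (γ * x) := by
    refine ⟨Submodule.mapQ M (modS J S Q) (LinearMap.mulLeft (𝓞 F) γ) ?_, fun x => rfl⟩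
    intro x hx
    show γ * x ∈ modS J S Q
    rw [hn]
    exact Ideal.mul_mem_mul hγJ hx
  have hfi : Function.Injective f := by
    intro y y' h
    obtain ⟨x, rfl⟩ := Ideal.Quotient.mk_surjective y
    obtain ⟨x', rfl⟩ := Ideal.Quotient.mk_surjective y'
    rw [hf, hf, Ideal.Quotient.eq, ← mul_sub, hn, key M le_rfl] at h
    exact Ideal.Quotient.eq.2 h
  obtain ⟨A, hAS, hAQ⟩ : ∃ A : (t : Prm F) → Set (𝓞 F ⧸ t.asIdeal), (∀ t ∈ S, A t = {0}ᶜ) ∧
      ∀ t, t ∉ S → A t = {z | Ideal.Quotient.mk t.asIdeal γ * z ∈ R t} := by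
    refine ⟨fun t => if t ∈ S then {0}ᶜ else {z | Ideal.Quotient.mk t.asIdeal γ * z ∈ R t}, fun t ht => ?_, fun t ht => ?_⟩
    · simp [ht]
    · simp [ht]
  have hcond : ∀ x : 𝓞 F, (γ * x ∈ J ∧ (∀ p ∈ S, γ * x ∉ J * p.asIdeal) ∧ ∀ q ∈ Q, Ideal.Quotient.mk q.asIdeal (γ * x) ∈ R q) ↔
      ∀ t ∈ S ∪ Q, Ideal.Quotient.mk t.asIdeal x ∈ A t := by
    intro x
    constructor
    · rintro ⟨-, h2, h3⟩ t ht
      by_cases hts : t ∈ S
      · rw [hAS t hts]
        have h4 := h2 t hts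
        rw [key t.asIdeal (hMT t ht)] at h4
        intro h5
        exact h4 (Ideal.Quotient.eq_zero_iff_mem.1 h5)
      · rw [hAQ t hts]
        have h4 : t ∈ Q := (Finset.mem_union.1 ht).resolve_left hts
        have h5 := h3 t h4
        rwa [map_mul] at h5
    · intro h
      refine ⟨J.mul_mem_right x hγJ, fun p hp h2 => ?_, fun q hq => ?_⟩
      · have h3 := h p (Finset.mem_union_left _ hp)
        rw [hAS p hp] at h3
        rw [key p.asIdeal (hMT p (Finset.mem_union_left _ hp))] at h2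
        exact h3 (Ideal.Quotient.eq_zero_iff_mem.2 h2)
      · have h3 := h q (Finset.mem_union_right _ hq)
        rw [hAQ q (hQ q hq)] at h3
        rw [map_mul]
        exact h3
  have him : resSet J S Q R = f '' {y : 𝓞 F ⧸ M | ∃ x : 𝓞 F, Ideal.Quotient.mk M x = y ∧ ∀ t ∈ S ∪ Q, Ideal.Quotient.mk t.asIdeal x ∈ A t} := by
    ext r
    constructor
    · rintro ⟨β, rfl, h⟩
      have h1 : β ∈ J * M ⊔ Ideal.span {γ} := by
        rw [hγ]
        exact h.1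
      obtain ⟨m, hm, c, hc, hmc⟩ := Submodule.mem_sup.1 h1
      obtain ⟨x, rfl⟩ := Ideal.mem_span_singleton'.1 hc
      have h2 : β - γ * x ∈ modS J S Q := by
        rw [hn, ← hmc]
        have h3 : m + x * γ - γ * x = m := by ring
        rw [h3]
        exact hm
      have h3 := cond_congr J S Q R h2 h
      refine ⟨Ideal.Quotient.mk M x, ⟨x, rfl, (hcond x).1 h3⟩, ?_⟩
      rw [hf]
      exact (Ideal.Quotient.eq.2 h2).symm
    · rintro ⟨_, ⟨x, rfl, hx⟩, rfl⟩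
      rw [hf]
      exact ⟨γ * x, rfl, (hcond x).2 hx⟩
  rw [him, Set.ncard_image_of_injective _ hfi, crt_ncard (S ∪ Q) A M hM, Finset.prod_union hdis]
  congr 1
  · refine Finset.prod_congr rfl fun p hp => ?_
    rw [hAS p hp]
    have h1 : Finite (𝓞 F ⧸ p.asIdeal) := by
      rw [← Ideal.absNorm_ne_zero_iff]
      exact (Ideal.absNorm_eq_zero_iff.not).2 p.ne_bot
    rw [Set.ncard_compl, Set.ncard_singleton]
    unfold nm
    rw [Ideal.absNorm_apply, Submodule.cardQuot_apply]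
  · refine Finset.prod_congr rfl fun q hq => ?_
    have hqS := hQ q hq
    rw [hAQ q hqS]
    have h1 : Finite (𝓞 F ⧸ q.asIdeal) := by
      rw [← Ideal.absNorm_ne_zero_iff]
      exact (Ideal.absNorm_eq_zero_iff.not).2 q.ne_bot
    have h2 : γ ∉ q.asIdeal := by
      intro h3
      apply hqS
      apply hJS
      rw [← hγ]
      exact sup_le (le_trans Ideal.mul_le_right (hMT q (Finset.mem_union_right _ hq))) ((Ideal.span_singleton_le_iff_mem _).2 h3)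
    have h3 : (Ideal.Quotient.mk q.asIdeal γ) ≠ 0 := fun h4 => h2 (Ideal.Quotient.eq_zero_iff_mem.1 h4)
    have h4 : IsDomain (𝓞 F ⧸ q.asIdeal) := by
      have := q.isPrime
      infer_instance
    have h5 : Function.Injective (fun z : 𝓞 F ⧸ q.asIdeal => Ideal.Quotient.mk q.asIdeal γ * z) := fun a b hab => mul_left_cancel₀ h3 hab
    have h6 : Function.Surjective (fun z : 𝓞 F ⧸ q.asIdeal => Ideal.Quotient.mk q.asIdeal γ * z) := Finite.surjective_of_injective h5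
    have h7 : (fun z : 𝓞 F ⧸ q.asIdeal => Ideal.Quotient.mk q.asIdeal γ * z) '' {z | Ideal.Quotient.mk q.asIdeal γ * z ∈ R q} = R q := by
      ext w
      constructor
      · rintro ⟨z, hz, rfl⟩
        exact hz
      · intro hw
        obtain ⟨z, rfl⟩ := h6 w
        exact ⟨z, hw, rfl⟩
    rw [← Set.ncard_image_of_injective _ h5, h7]

end StarkR
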