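import Pool.Agent.Lib.MP_d9bae3_nt.NA.Prin
import Pool.Agent.Lib.MP_d9bae3_nt.NA.ResC

/-!
# Module SNA-NDens: the density of the ideals with prescribed residues

Plan.  For every ideal class `C` choose by `GoodS.cls` an ideal `J_C` with prime divisors in `S` and `[J_C] = C⁻¹`.  `I ↦ I J_C = (β)` is a bijection between the ideals `I` in the class
`C` which are prime to `S` and have `mk (g I) ∈ R q` for `q ∈ Q`, and the principal ideals `(β)` with `β ∈ J_C`, `β ∉ J_C p` for `p ∈ S` and `mk β ∈ R q` for `q ∈ Q`, i.e. (`resSet_mem`) with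
`mk β ∈ resSet J_C S Q R`; `N(β) = N(I) N(J_C)`.  (`β` and `g I` have the same multiplicities at all primes outside `S`: there are units `z, w` outside `S` in `𝓞 F` with
`β z = g I w`; so `mk β ∈ R q ↔ mk (g I) ∈ R q` by the stability of `R q` — note that multiplication by `mk u` is injective on the finite set `R q`, so it is a bijection of it.
To find `z, w`: let `z ≠ 0` be such that all primes `p ∈ S` divide `z` to a high power and `z` is a unit outside `S`, e.g. a generator of `(∏ p)^(h N)`.)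
By `prin_count` with `resSet_card` and `modS_norm` the number of these `I` with `N(I) ≤ x` is `~ κ' ∏_{p ∈ S} (1 - 1/N(p)) ∏_{q ∈ Q} |R q|/N(q) · x`; sum over the `h` classes `C`.
-/

namespace StarkR

open NumberField IsDedekindDomain Filter Topology

variable {F : Type} [Field F] [NumberField F]

/-- `G` divides `B P ^ N` for a large `N` if the multiplicities outside `S` are at most those of `B` -/
private lemma nd_dvd (S : Finset (Prm F)) {P : Ideal (𝓞 F)} (hP : ∀ p ∈ S, p.asIdeal ∣ P) (G : Ideal (𝓞 F)) :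
    G ≠ ⊥ → ∀ B : Ideal (𝓞 F), (∀ q : Prm F, q ∉ S → ∀ k : ℕ, G ≤ q.asIdeal ^ k → B ≤ q.asIdeal ^ k) →
      ∃ N : ℕ, G ∣ B * P ^ N := by
  refine UniqueFactorizationMonoid.induction_on_prime G ?_ ?_ ?_
  · intro h
    exact absurd rfl h
  · intro x hx _ B _
    exact ⟨0, hx.dvd⟩
  · intro a p ha hp ih hpa B hB
    by_cases hpS : ∃ q ∈ S, q.asIdeal = p
    · obtain ⟨q, hq, rfl⟩ := hpS
      obtain ⟨N, hN⟩ := ih ha B fun q' hq' k hk => hB q' hq' k (Ideal.mul_le_right.trans hk)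
      refine ⟨N + 1, ?_⟩
      have h1 : B * P ^ (N + 1) = P * (B * P ^ N) := by ring
      rw [h1]
      exact mul_dvd_mul (hP q hq) hN
    · obtain ⟨q₀, hq₀⟩ : ∃ q₀ : Prm F, q₀.asIdeal = p := ⟨⟨p, Ideal.isPrime_of_prime hp, hp.ne_zero⟩, rfl⟩
      subst hq₀
      have hqS : q₀ ∉ S := fun h => hpS ⟨q₀, h, rfl⟩
      have h1 : B ≤ q₀.asIdeal := by
        have h2 := hB q₀ hqS 1 (by rw [pow_one]; exact Ideal.mul_le_left)
        rwa [pow_one] at h2
      obtain ⟨B', hB'⟩ := Ideal.dvd_iff_le.2 h1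
      obtain ⟨N, hN⟩ := ih ha B' fun q hq k hk => by
        by_cases hqq : q = q₀
        · subst hqq
          have h3 : q.asIdeal * a ≤ q.asIdeal ^ (k + 1) := by
            rw [pow_succ']
            exact Ideal.mul_mono_right hk
          have h4 := hB q hq (k + 1) h3
          rw [hB', pow_succ', ← Ideal.dvd_iff_le] at h4
          exact Ideal.dvd_iff_le.1 ((mul_dvd_mul_iff_left hp.ne_zero).1 h4)
        · have h3 := hB q hq k (Ideal.mul_le_right.trans hk)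
          rw [hB', ← Ideal.dvd_iff_le] at h3
          have h4 : IsCoprime (q.asIdeal ^ k) q₀.asIdeal := by
            have := q.isMaximal
            have := q₀.isMaximal
            refine IsCoprime.pow_left (Ideal.isCoprime_of_isMaximal fun h => hqq ?_)
            exact HeightOneSpectrum.ext h
          exact Ideal.dvd_iff_le.1 (h4.dvd_of_dvd_mul_left h3)
      refine ⟨N, ?_⟩
      rw [hB', mul_assoc]
      exact mul_dvd_mul_left _ hN

private lemma nd_mult {x : 𝓞 F} (hx : x ≠ 0) (q : Prm F) : ∃ k : ℕ, x ∈ q.asIdeal ^ k ∧ x ∉ q.asIdeal ^ (k + 1) := by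
  have h1 : ∃ k : ℕ, x ∉ q.asIdeal ^ (k + 1) := by
    by_contra hno
    push Not at hno
    apply hx
    have h2 : x ∈ ⨅ k : ℕ, q.asIdeal ^ k := by
      rw [Ideal.mem_iInf]
      intro k
      exact Ideal.pow_le_pow_right (Nat.le_succ k) (hno k)
    rw [Ideal.iInf_pow_eq_bot_of_isDomain q.asIdeal q.isPrime.ne_top] at h2
    exact h2
  classical
  refine ⟨Nat.find h1, ?_, Nat.find_spec h1⟩
  rcases Nat.eq_zero_or_pos (Nat.find h1) with h2 | h2
  · rw [h2, pow_zero, Ideal.one_eq_top]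
    trivial
  · obtain ⟨k, hk⟩ := Nat.exists_eq_succ_of_ne_zero h2.ne'
    have h3 := Nat.find_min h1 (m := k) (by omega)
    rw [hk]
    exact not_not.1 h3

/-- units outside `S` which relate two elements with the same multiplicities outside `S` -/
private lemma nd_units {e : ℕ} {S : Finset (Prm F)} (hS : GoodS e S) {a b : 𝓞 F} (ha : a ≠ 0) (hb : b ≠ 0)
    (hab : ∀ q : Prm F, q ∉ S → ∀ k : ℕ, a ∈ q.asIdeal ^ k ↔ b ∈ q.asIdeal ^ k) :
    ∃ z w : 𝓞 F, IsSU S z ∧ IsSU S w ∧ b * z = a * w := by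
  have hspan : ∀ {x : 𝓞 F}, x ≠ 0 → Ideal.span {x} ≠ ⊥ := fun hx h => hx (Ideal.span_singleton_eq_bot.1 h)
  have hP0 : (∏ p ∈ S, p.asIdeal) ≠ ⊥ := Finset.prod_ne_zero_iff.2 fun t _ => t.ne_bot
  obtain ⟨N, hN⟩ := nd_dvd S (P := ∏ p ∈ S, p.asIdeal) (fun p hp => Finset.dvd_prod_of_mem _ hp) (Ideal.span {a}) (hspan ha)
    (Ideal.span {b}) (fun q hq k h => (Ideal.span_singleton_le_iff_mem _).2 ((hab q hq k).1 ((Ideal.span_singleton_le_iff_mem _).1 h)))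
  obtain ⟨J, hJ0, hJS, z, hz⟩ := hS.cls ((∏ p ∈ S, p.asIdeal) ^ N) (pow_ne_zero N hP0)
  have hz0 : z ≠ 0 := by
    rintro rfl
    rw [Ideal.span_singleton_eq_bot.2 rfl] at hz
    exact mul_ne_zero (pow_ne_zero N hP0) hJ0 hz
  have hzS : IsSU S z := by
    refine ⟨hz0, fun q hq hzq => hq ?_⟩
    have h1 : Ideal.span {z} ≤ q.asIdeal := (Ideal.span_singleton_le_iff_mem _).2 hzq
    rw [← hz] at h1
    rcases q.isPrime.mul_le.1 h1 with h2 | h2
    · have h3 := q.isPrime.le_of_pow_le h2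
      obtain ⟨p, hp, h4⟩ := (Ideal.IsPrime.prod_le q.isPrime).1 h3
      have h5 : p.asIdeal = q.asIdeal := p.isMaximal.eq_of_le q.isPrime.ne_top h4
      have h6 : p = q := HeightOneSpectrum.ext h5
      rwa [← h6]
    · exact hJS q h2
  have h1 : Ideal.span {a} ∣ Ideal.span {b * z} := by
    rw [← Ideal.span_singleton_mul_span_singleton, ← hz]
    exact hN.trans ⟨J, by ring⟩
  obtain ⟨w, hw⟩ := Ideal.mem_span_singleton.1 ((Ideal.span_singleton_le_iff_mem _).1 (Ideal.dvd_iff_le.1 h1))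
  refine ⟨z, w, hzS, ⟨?_, ?_⟩, hw⟩
  · rintro rfl
    rw [mul_zero] at hw
    exact mul_ne_zero hb hz0 hw
  · intro q hq hwq
    obtain ⟨k, hk1, hk2⟩ := nd_mult ha q
    apply hk2
    rw [hab q hq]
    have h2 : b * z ∈ q.asIdeal ^ (k + 1) := by
      rw [hw, pow_succ]
      exact Ideal.mul_mem_mul hk1 hwq
    have := q.isPrime
    rw [mul_comm] at h2
    exact (Ideal.IsPrime.mul_mem_pow q.asIdeal h2).resolve_left (hzS.2 q hq)

private lemma nd_su_pow {S : Finset (Prm F)} {u : 𝓞 F} (hu : IsSU S u) (k : ℕ) : IsSU S (u ^ k) :=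
  ⟨pow_ne_zero k hu.1, fun q hq h => hu.2 q hq (q.isPrime.mem_of_pow_mem k h)⟩

private lemma nd_fin (q : Prm F) : Finite (𝓞 F ⧸ q.asIdeal) := by
  rw [← Ideal.absNorm_ne_zero_iff]
  exact (Ideal.absNorm_eq_zero_iff.not).2 q.ne_bot

private lemma nd_stab {S : Finset (Prm F)} {q : Prm F} (hq : q ∉ S) {A : Set (𝓞 F ⧸ q.asIdeal)}
    (hA : ∀ u : 𝓞 F, IsSU S u → ∀ r ∈ A, Ideal.Quotient.mk q.asIdeal u * r ∈ A) {u : 𝓞 F} (hu : IsSU S u) (x : 𝓞 F) :
    Ideal.Quotient.mk q.asIdeal (x * u) ∈ A ↔ Ideal.Quotient.mk q.asIdeal x ∈ A := by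
  have hfin := nd_fin q
  have hmax := q.isMaximal
  constructor
  · intro h
    obtain ⟨k, hk, hk1⟩ : ∃ k : ℕ, 0 < k ∧ (Ideal.Quotient.mk q.asIdeal u) ^ k = 1 := by
      let _ : Field (𝓞 F ⧸ q.asIdeal) := Ideal.Quotient.field q.asIdeal
      have h0 : Ideal.Quotient.mk q.asIdeal u ≠ 0 := fun h4 => hu.2 q hq (Ideal.Quotient.eq_zero_iff_mem.1 h4)
      have h1 := isOfFinOrder_of_finite (Units.mk0 _ h0)
      obtain ⟨k, hk, h2⟩ := isOfFinOrder_iff_pow_eq_one.1 h1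
      refine ⟨k, hk, ?_⟩
      have h3 := congrArg Units.val h2
      simpa using h3
    have h2 := hA (u ^ (k - 1)) (nd_su_pow hu _) _ h
    rw [map_pow, map_mul] at h2
    have h3 : (Ideal.Quotient.mk q.asIdeal u) ^ (k - 1) * (Ideal.Quotient.mk q.asIdeal x * Ideal.Quotient.mk q.asIdeal u) =
        Ideal.Quotient.mk q.asIdeal x := by
      have h4 : (Ideal.Quotient.mk q.asIdeal u) ^ (k - 1) * (Ideal.Quotient.mk q.asIdeal x * Ideal.Quotient.mk q.asIdeal u) =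
          (Ideal.Quotient.mk q.asIdeal u) ^ (k - 1 + 1) * Ideal.Quotient.mk q.asIdeal x := by ring
      rw [h4, Nat.sub_add_cancel hk, hk1, one_mul]
    rwa [h3] at h2
  · intro h
    rw [map_mul, mul_comm]
    exact hA u hu _ h

/-- The residues of `g I` and of a generator `β` of `I J`. -/
private lemma nd_res {e : ℕ} {S : Finset (Prm F)} (hS : GoodS e S) {g : Ideal (𝓞 F) → 𝓞 F} (hg : IsGen S g)
    {I J : Ideal (𝓞 F)} (hI : I ≠ ⊥) (hJ : J ≠ ⊥) (hJS : ∀ q : Prm F, J ≤ q.asIdeal → q ∈ S) {β : 𝓞 F} (hβ : I * J = Ideal.span {β})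
    {q : Prm F} (hq : q ∉ S) {A : Set (𝓞 F ⧸ q.asIdeal)}
    (hA : ∀ u : 𝓞 F, IsSU S u → ∀ r ∈ A, Ideal.Quotient.mk q.asIdeal u * r ∈ A) :
    Ideal.Quotient.mk q.asIdeal β ∈ A ↔ Ideal.Quotient.mk q.asIdeal (g I) ∈ A := by
  have hβ0 : β ≠ 0 := by
    rintro rfl
    rw [Ideal.span_singleton_eq_bot.2 rfl] at hβ
    exact mul_ne_zero hI hJ hβ
  obtain ⟨z, w, hz, hw, h⟩ := nd_units hS (hg I hI).1 hβ0 (by
    intro q' hq' k
    rw [(hg I hI).2 q' hq' k, ← Ideal.span_singleton_le_iff_mem, ← hβ, ← Ideal.dvd_iff_le, ← Ideal.dvd_iff_le]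
    constructor
    · intro h
      exact h.trans (Dvd.intro _ rfl)
    · intro h
      have h4 : IsCoprime (q'.asIdeal ^ k) J := by
        refine IsCoprime.pow_left ?_
        rw [Ideal.isCoprime_iff_sup_eq]
        refine q'.isMaximal.1.2 _ (lt_of_le_of_ne le_sup_left fun h5 => hq' (hJS q' ?_))
        rw [h5]
        exact le_sup_right
      exact h4.dvd_of_dvd_mul_right h)
  rw [← nd_stab hq hA hz β, h, nd_stab hq hA hw]

/-- The ideals `I` in the inverse class of `J`, prime to `S` and with residues in `R`, are in bijection with principal ideals. -/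
private lemma nd_count {e : ℕ} {S : Finset (Prm F)} (hS : GoodS e S) {g : Ideal (𝓞 F) → 𝓞 F} (hg : IsGen S g)
    {J : Ideal (𝓞 F)} (hJ : J ≠ ⊥) (hJS : ∀ q : Prm F, J ≤ q.asIdeal → q ∈ S) (Q : Finset (Prm F))
    (R : (q : Prm F) → Set (𝓞 F ⧸ q.asIdeal)) (hQ : ∀ q ∈ Q, q ∉ S)
    (hR : ∀ q ∈ Q, ∀ u : 𝓞 F, IsSU S u → ∀ r ∈ R q, Ideal.Quotient.mk q.asIdeal u * r ∈ R q) (x : ℝ) :
    Set.ncard {I : Ideal (𝓞 F) | Cop S I ∧ (∀ q ∈ Q, Ideal.Quotient.mk q.asIdeal (g I) ∈ R q) ∧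
        (∃ β : 𝓞 F, I * J = Ideal.span {β}) ∧ (Ideal.absNorm I : ℝ) ≤ x} =
      Set.ncard {I : Ideal (𝓞 F) | (Ideal.absNorm I : ℝ) ≤ x * (Ideal.absNorm J : ℝ) ∧
        ∃ β : 𝓞 F, β ≠ 0 ∧ I = Ideal.span {β} ∧ Ideal.Quotient.mk (modS J S Q) β ∈ resSet J S Q R} := by
  have hN : (0 : ℝ) < (Ideal.absNorm J : ℝ) := by
    have h1 : Ideal.absNorm J ≠ 0 := by
      rw [Ne, Ideal.absNorm_eq_zero_iff]
      exact hJ
    exact_mod_cast Nat.pos_of_ne_zero h1
  rw [← Set.ncard_image_of_injective _ (f := fun I : Ideal (𝓞 F) => I * J) (fun a b hab => mul_right_cancel₀ hJ hab)]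
  congr 1
  ext B
  constructor
  · rintro ⟨I, ⟨hI, hgI, ⟨β, hβ⟩, hx⟩, rfl⟩
    have hβ0 : β ≠ 0 := by
      rintro rfl
      rw [Ideal.span_singleton_eq_bot.2 rfl] at hβ
      exact mul_ne_zero hI.1 hJ hβ
    refine ⟨?_, β, hβ0, hβ, (resSet_mem J S Q R β).2 ⟨?_, ?_, ?_⟩⟩
    · show ((Ideal.absNorm (I * J) : ℕ) : ℝ) ≤ _
      rw [map_mul, Nat.cast_mul]
      exact mul_le_mul_of_nonneg_right hx hN.le
    · rw [← Ideal.span_singleton_le_iff_mem, ← hβ]
      exact Ideal.mul_le_right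
    · intro p hp h1
      rw [← Ideal.span_singleton_le_iff_mem, ← hβ, mul_comm, ← Ideal.dvd_iff_le] at h1
      exact hI.2 p hp (Ideal.dvd_iff_le.1 ((mul_dvd_mul_iff_left hJ).1 h1))
    · intro q hq
      exact (nd_res hS hg hI.1 hJ hJS hβ (hQ q hq) (hR q hq)).2 (hgI q hq)
  · rintro ⟨hx, β, hβ0, rfl, hβ⟩
    obtain ⟨h1, h2, h3⟩ := (resSet_mem J S Q R β).1 hβ
    obtain ⟨I, hI⟩ := Ideal.dvd_iff_le.2 ((Ideal.span_singleton_le_iff_mem _).2 h1)
    have hI0 : I ≠ ⊥ := by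
      rintro rfl
      rw [Ideal.mul_bot] at hI
      exact hβ0 (Ideal.span_singleton_eq_bot.1 hI)
    have hIJ : I * J = Ideal.span {β} := by rw [hI, mul_comm]
    refine ⟨I, ⟨⟨hI0, fun p hp h4 => h2 p hp ?_⟩, fun q hq => ?_, ⟨β, hIJ⟩, ?_⟩, hIJ⟩
    · rw [← Ideal.span_singleton_le_iff_mem, hI]
      exact Ideal.mul_mono_right h4
    · exact (nd_res hS hg hI0 hJ hJS hIJ (hQ q hq) (hR q hq)).1 (h3 q hq)
    · rw [← hIJ, map_mul, Nat.cast_mul] at hx
      exact le_of_mul_le_mul_right hx hN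

private lemma nd_nm (p : Prm F) : 2 ≤ nm p := by
  have h0 : nm p ≠ 0 := by
    unfold nm
    rw [Ne, Ideal.absNorm_eq_zero_iff]
    exact p.ne_bot
  have h1 : nm p ≠ 1 := by
    unfold nm
    rw [Ne, Ideal.absNorm_eq_one_iff]
    exact p.isPrime.ne_top
  omega

theorem dens_R {e : ℕ} {S : Finset (Prm F)} (hS : GoodS e S) {g : Ideal (𝓞 F) → 𝓞 F} (hg : IsGen S g) :
    ∃ κ : ℝ, 0 < κ ∧ ∀ (Q : Finset (Prm F)) (R : (q : Prm F) → Set (𝓞 F ⧸ q.asIdeal)), (∀ q ∈ Q, q ∉ S) →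
      (∀ q ∈ Q, ∀ u : 𝓞 F, IsSU S u → ∀ r ∈ R q, Ideal.Quotient.mk q.asIdeal u * r ∈ R q) →
      HasDens {I : Ideal (𝓞 F) | Cop S I ∧ ∀ q ∈ Q, Ideal.Quotient.mk q.asIdeal (g I) ∈ R q}
        (κ * ∏ q ∈ Q, ((R q).ncard : ℝ) / (nm q : ℝ)) := by
  classical
  obtain ⟨κ, hκ, hprin⟩ := prin_count F
  -- an ideal with prime divisors in `S` for every class
  have hcl : ∀ C : ClassGroup (𝓞 F), ∃ J : Ideal (𝓞 F), J ≠ ⊥ ∧ (∀ q : Prm F, J ≤ q.asIdeal → q ∈ S) ∧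
      ∀ I : Ideal (𝓞 F), ∀ hI : I ∈ nonZeroDivisors (Ideal (𝓞 F)), (∃ β : 𝓞 F, I * J = Ideal.span {β}) ↔ ClassGroup.mk0 ⟨I, hI⟩ = C := by
    intro C
    obtain ⟨⟨I₀, hI₀⟩, rfl⟩ := ClassGroup.mk0_surjective C
    obtain ⟨J, hJ, hJS, β, hβ⟩ := hS.cls I₀ (nonZeroDivisors.ne_zero hI₀)
    have hJm : J ∈ nonZeroDivisors (Ideal (𝓞 F)) := mem_nonZeroDivisors_of_ne_zero hJ
    have hcls : ∀ (I : Ideal (𝓞 F)) (hI : I ∈ nonZeroDivisors (Ideal (𝓞 F))), (∃ β : 𝓞 F, I * J = Ideal.span {β}) ↔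
        ClassGroup.mk0 ⟨I, hI⟩ * ClassGroup.mk0 ⟨J, hJm⟩ = 1 := by
      intro I hI
      rw [← map_mul, ClassGroup.mk0_eq_one_iff]
      exact ⟨fun ⟨β, h⟩ => ⟨⟨β, h⟩⟩, fun h => h.principal⟩
    refine ⟨J, hJ, hJS, fun I hI => ?_⟩
    have h0 := (hcls I₀ hI₀).1 ⟨β, hβ⟩
    rw [hcls I hI, ← h0]
    exact ⟨fun h => mul_right_cancel h, fun h => by rw [h]⟩
  choose J hJ hJS hJC using hcl
  have hnm : ∀ p : Prm F, (0 : ℝ) < (nm p : ℝ) := fun p => by
    have := nd_nm p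
    exact_mod_cast (by omega : 0 < nm p)
  refine ⟨(Fintype.card (ClassGroup (𝓞 F)) : ℝ) * (κ * ∏ p ∈ S, (((nm p - 1 : ℕ) : ℝ) / (nm p : ℝ))), ?_, ?_⟩
  · have h1 : (0 : ℝ) < (Fintype.card (ClassGroup (𝓞 F)) : ℝ) := by
      exact_mod_cast Fintype.card_pos
    refine mul_pos h1 (mul_pos hκ (Finset.prod_pos fun p _ => div_pos ?_ (hnm p)))
    have := nd_nm p
    exact_mod_cast (by omega : 0 < nm p - 1)
  · intro Q R hQ hR
    -- the set for one class
    let A : ClassGroup (𝓞 F) → ℝ → Set (Ideal (𝓞 F)) := fun C x =>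
      {I : Ideal (𝓞 F) | Cop S I ∧ (∀ q ∈ Q, Ideal.Quotient.mk q.asIdeal (g I) ∈ R q) ∧
        (∃ β : 𝓞 F, I * J C = Ideal.span {β}) ∧ (Ideal.absNorm I : ℝ) ≤ x}
    have hfinN : ∀ x : ℝ, {I : Ideal (𝓞 F) | (Ideal.absNorm I : ℝ) ≤ x}.Finite := by
      intro x
      refine (Ideal.finite_setOf_absNorm_le (S := 𝓞 F) ⌊x⌋₊).subset fun I hI => ?_
      exact Nat.le_floor hI
    have hAfin : ∀ C x, (A C x).Finite := fun C x => (hfinN x).subset fun I hI => hI.2.2.2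
    have hcnt : ∀ x : ℝ, (cnt {I : Ideal (𝓞 F) | Cop S I ∧ ∀ q ∈ Q, Ideal.Quotient.mk q.asIdeal (g I) ∈ R q} x : ℝ) =
        ∑ C, ((A C x).ncard : ℝ) := by
      intro x
      have h1 : {I : Ideal (𝓞 F) | I ∈ {I : Ideal (𝓞 F) | Cop S I ∧ ∀ q ∈ Q, Ideal.Quotient.mk q.asIdeal (g I) ∈ R q} ∧ I ≠ ⊥ ∧
          (Ideal.absNorm I : ℝ) ≤ x} = ↑(Finset.univ.biUnion fun C => (hAfin C x).toFinset) := by
        ext I
        simp only [Finset.coe_biUnion, Finset.mem_coe, Finset.mem_univ, Set.iUnion_true, Set.mem_iUnion, Set.Finite.coe_toFinset]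
        constructor
        · rintro ⟨⟨h1, h2⟩, h3, h4⟩
          exact ⟨ClassGroup.mk0 ⟨I, mem_nonZeroDivisors_of_ne_zero h3⟩, h1, h2, (hJC _ I (mem_nonZeroDivisors_of_ne_zero h3)).2 rfl, h4⟩
        · rintro ⟨C, h1, h2, -, h4⟩
          exact ⟨⟨h1, h2⟩, h1.1, h4⟩
      unfold cnt
      rw [h1, Set.ncard_coe_finset, Finset.card_biUnion]
      · push_cast
        refine Finset.sum_congr rfl fun C _ => ?_
        rw [Set.ncard_eq_toFinset_card _ (hAfin C x)]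
      · intro C _ C' _ hCC
        rw [Function.onFun, Finset.disjoint_left]
        intro I hI hI'
        rw [Set.Finite.mem_toFinset] at hI hI'
        have h3 : I ∈ nonZeroDivisors (Ideal (𝓞 F)) := mem_nonZeroDivisors_of_ne_zero hI.1.1
        exact hCC (((hJC C I h3).1 hI.2.2.1).symm.trans ((hJC C' I h3).1 hI'.2.2.1))
    have hlim : ∀ C : ClassGroup (𝓞 F), Tendsto (fun x : ℝ => ((A C x).ncard : ℝ) / x) atTop
        (𝓝 ((κ * ∏ p ∈ S, (((nm p - 1 : ℕ) : ℝ) / (nm p : ℝ))) * ∏ q ∈ Q, ((R q).ncard : ℝ) / (nm q : ℝ))) := by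
      intro C
      have hN : (0 : ℝ) < (Ideal.absNorm (J C) : ℝ) := by
        have h1 : Ideal.absNorm (J C) ≠ 0 := by
          rw [Ne, Ideal.absNorm_eq_zero_iff]
          exact hJ C
        exact_mod_cast Nat.pos_of_ne_zero h1
      have hmod : modS (J C) S Q ≠ ⊥ := by
        unfold modS
        exact mul_ne_zero (mul_ne_zero (hJ C) (Finset.prod_ne_zero_iff.2 fun t _ => t.ne_bot)) (Finset.prod_ne_zero_iff.2 fun t _ => t.ne_bot)
      have h1 := hprin (modS (J C) S Q) hmod (resSet (J C) S Q R) (by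
        intro u r hr
        obtain ⟨β, rfl⟩ := Ideal.Quotient.mk_surjective r
        obtain ⟨h2, h3, h4⟩ := (resSet_mem (J C) S Q R β).1 hr
        rw [← map_mul, resSet_mem]
        refine ⟨Ideal.mul_mem_left _ _ h2, fun p hp h5 => h3 p hp ?_, fun q hq => ?_⟩
        · have h6 := Ideal.mul_mem_left (J C * p.asIdeal) ((u⁻¹ : (𝓞 F)ˣ) : 𝓞 F) h5
          rwa [← mul_assoc, Units.inv_mul, one_mul] at h6
        · rw [map_mul]
          refine hR q hq _ ⟨u.ne_zero, fun q' _ h5 => ?_⟩ _ (h4 q hq)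
          exact q'.isPrime.ne_top (Ideal.eq_top_of_isUnit_mem _ h5 u.isUnit))
      have h2 : Tendsto (fun x : ℝ => x * (Ideal.absNorm (J C) : ℝ)) atTop atTop := tendsto_id.atTop_mul_const hN
      have h3 := (h1.comp h2).mul_const (Ideal.absNorm (J C) : ℝ)
      have h4 : (κ * ((resSet (J C) S Q R).ncard : ℝ) / (Ideal.absNorm (modS (J C) S Q) : ℝ)) * (Ideal.absNorm (J C) : ℝ) =
          (κ * ∏ p ∈ S, (((nm p - 1 : ℕ) : ℝ) / (nm p : ℝ))) * ∏ q ∈ Q, ((R q).ncard : ℝ) / (nm q : ℝ) := by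
        rw [modS_norm, resSet_card (J C) (hJ C) S Q (hJS C) hQ R, Finset.prod_div_distrib, Finset.prod_div_distrib]
        push_cast
        have h5 : (∏ p ∈ S, (nm p : ℝ)) ≠ 0 := Finset.prod_ne_zero_iff.2 fun p _ => (hnm p).ne'
        have h6 : (∏ q ∈ Q, (nm q : ℝ)) ≠ 0 := Finset.prod_ne_zero_iff.2 fun p _ => (hnm p).ne'
        have h7 := hN.ne'
        field_simp
      rw [h4] at h3
      refine h3.congr' ?_
      filter_upwards [eventually_gt_atTop (0 : ℝ)] with x hx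
      show (Set.ncard {I : Ideal (𝓞 F) | (Ideal.absNorm I : ℝ) ≤ x * (Ideal.absNorm (J C) : ℝ) ∧
        ∃ β : 𝓞 F, β ≠ 0 ∧ I = Ideal.span {β} ∧ Ideal.Quotient.mk (modS (J C) S Q) β ∈ resSet (J C) S Q R} : ℝ) /
          (x * (Ideal.absNorm (J C) : ℝ)) * (Ideal.absNorm (J C) : ℝ) = ((A C x).ncard : ℝ) / x
      rw [← nd_count hS hg (hJ C) (hJS C) Q R hQ hR x]
      have h7 := hN.ne'
      have h8 := hx.ne'
      field_simp
      rfl
    unfold HasDens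
    have h5 := tendsto_finset_sum (Finset.univ : Finset (ClassGroup (𝓞 F))) fun C _ => hlim C
    rw [Finset.sum_const, Finset.card_univ, nsmul_eq_mul] at h5
    have h6 : (fun x : ℝ => (cnt {I : Ideal (𝓞 F) | Cop S I ∧ ∀ q ∈ Q, Ideal.Quotient.mk q.asIdeal (g I) ∈ R q} x : ℝ) / x) =
        fun x : ℝ => ∑ C, ((A C x).ncard : ℝ) / x := by
      funext x
      rw [hcnt x, Finset.sum_div]
    rw [h6]
    convert h5 using 2
    ring

end StarkR
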