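import Pool.Agent.Lib.MP_d9bae3_nt.SK.Main
import Pool.Agent.Lib.MP_d9bae3_nt.SK.Pop
import Pool.Agent.Lib.MP_d9bae3_nt.SK.StarkConj
import Pool.Agent.Lib.MP_d9bae3_nt.SK.PopConj

/-!
# The conclusions for one extension, with the conjectures of Stark and Popescu in their literal form
-/

namespace StarkR

open NumberField IsDedekindDomain

/-- The conclusion for an extension `H/F`:
(1) for every non-faithful character `χ` of `Gal(H/F)`, all finite sets `S, T` of primes such that `S` contains the ramified primes, and the L-function `Λ` of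
`χ`, all derivatives of `L_{S,T}(χ,s)` at `0` up to the order `r + K` are zero, `r` the number of places of `S` (with the archimedean ones) which
split completely;
(2) if `Gal(H/F)` is not cyclic, then for all these `S, T` the derivatives at `0` of all orders up to `r + K` of the Stickelberger element are
zero (in particular `θ = 0`, its derivative of order `r`), and Stark's conjecture of order `r` holds for `H/F`, `S`, `T`. -/
def FineStark (K : ℕ) (F H : Type) [Field F] [NumberField F] [Field H] [NumberField H] [Algebra F H] : Prop :=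
  (∀ (χ : Gal(H/F) →* ℂˣ) (Λ : ℂ → ℂ) (S T : Finset (Prm F)), χ.ker ≠ ⊥ → IsLFunction χ Λ →
    (∀ q : Prm F, Ramified H q → q ∈ S) →
    ∀ k ≤ splitNumber H S + K, iteratedDeriv k (LST Λ χ S T) 0 = 0) ∧
  (¬ IsCyclic Gal(H/F) → ∃ _ : IsMulCommutative Gal(H/F),
    ∀ (Λ : (Gal(H/F) →* ℂˣ) → ℂ → ℂ) (S T : Finset (Prm F)), (∀ χ, IsLFunction χ (Λ χ)) →
      (∀ q : Prm F, Ramified H q → q ∈ S) →
        (∀ k ≤ splitNumber H S + K, theta Λ S T k = 0) ∧ StarkConj Λ S T (splitNumber H S))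

/-- The conclusion for an extension `H/F`: the group `Gal(H/F)` is commutative, and for all `S`, `r`, `v_1, ..., v_r`, `w_1, ..., w_r` with (H1)-(H3): all
`χ ∈ Ĝ'` are faithful, and if `Gal(H/F)` is not cyclic, then `Ĝ'` is empty, and Popescu's conjecture holds for `H/F`, `S`, `r` and the `w_i`. -/
def FinePop (F H : Type) [Field F] [NumberField F] [Field H] [NumberField H] [Algebra F H] : Prop :=
  ∃ _ : IsMulCommutative Gal(H/F), ∀ (Lf : (Gal(H/F) →* ℂˣ) → ℂ → ℂ), (∀ χ, IsLFunction χ (Lf χ)) →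
    ∀ (S : Finset (Prm F)) (r : ℕ) (v : Fin r → InfinitePlace F ⊕ Prm F) (w : Fin r → InfinitePlace H ⊕ Prm H), PopHyp S r v w →
      (∀ χ ∈ GPrime Lf S r, χ.ker = ⊥) ∧ (¬ IsCyclic Gal(H/F) → GPrime Lf S r = ∅ ∧ PopescuConj Lf S r w)

variable {F : Type} [Field F] [NumberField F] {H : Type} [Field H] [NumberField H] [Algebra F H]

theorem fineStark_of [IsGalois F H] [IsMulCommutative Gal(H/F)] {K : ℕ}
    (h : ∀ χ : Gal(H/F) →* ℂˣ, χ.ker ≠ ⊥ →
      ∃ A : Finset (Prm F), K + Module.finrank ℚ F + 1 ≤ A.card ∧ ∀ q ∈ A, Ramified H q ∧ TrivialAt χ q) :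
    FineStark K F H := by
  have h1 : ∀ (χ : Gal(H/F) →* ℂˣ) (Λ : ℂ → ℂ) (S T : Finset (Prm F)), χ.ker ≠ ⊥ → IsLFunction χ Λ →
      (∀ q : Prm F, Ramified H q → q ∈ S) →
      ∀ k ≤ splitNumber H S + K, iteratedDeriv k (LST Λ χ S T) 0 = 0 := by
    intro χ Λ S T hχ hΛ hS k hk
    obtain ⟨A, hA1, hA2⟩ := h χ hχ
    exact van hΛ.analytic S T hS A hA2 K (by omega) k hk
  refine ⟨h1, fun hc => ⟨inferInstance, fun Λ S T hΛ hS => ?_⟩⟩
  have h2 : ∀ k ≤ splitNumber H S + K, theta Λ S T k = 0 := fun k hk =>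
    theta_zero Λ S T _ fun χ => h1 χ (Λ χ) S T (ker_ne_bot hc χ) (hΛ χ) hS k hk
  exact ⟨h2, starkConj_of_theta (h2 _ (by omega))⟩

theorem finePop_of [IsGalois F H] [IsMulCommutative Gal(H/F)]
    (h : ∀ χ : Gal(H/F) →* ℂˣ, χ.ker ≠ ⊥ →
      ∃ A : Finset (Prm F), 0 + Module.finrank ℚ F + 1 ≤ A.card ∧ ∀ q ∈ A, Ramified H q ∧ TrivialAt χ q) :
    FinePop F H := by
  refine ⟨inferInstance, fun Λ hΛ S r v w hp => ?_⟩
  have hS := hp.ramified
  have hrs := hp.le_splitNumber
  have hmain : ∀ χ ∈ GPrime Λ S r, χ.ker = ⊥ := by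
    intro χ hχ
    by_contra hker
    obtain ⟨A, hA1, hA2⟩ := h χ hker
    rcases hχ with ⟨-, h2⟩ | ⟨rfl, h2⟩
    · exact order_ne (lst_analytic (hΛ χ).analytic S ∅) (fun k hk =>
        van (hΛ χ).analytic S ∅ hS A hA2 0 (by omega) k (by omega)) h2
    · have h4 := card_S S hS A fun q hq => (hA2 q hq).1
      have h5 : 0 < Module.finrank ℚ F := Module.finrank_pos
      omega
  refine ⟨hmain, fun hc => ?_⟩
  have hempty : GPrime Λ S r = ∅ := by
    rw [Set.eq_empty_iff_forall_notMem]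
    exact fun χ hχ => ker_ne_bot hc χ (hmain χ hχ)
  exact ⟨hempty, popescuConj_of_empty w hempty⟩

end StarkR
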