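import Pool.Agent.Lib.MP_d9bae3_nt.NA.Cone

/-!
# Module NAT-Prin: principal ideals whose generators have prescribed residues

`R` is stable under the units, so whether `Ideal.Quotient.mk 𝔫 β ∈ R` depends only on the ideal `(β)`.  Every nonzero principal ideal has exactly
`torsionOrder F` generators `β` in the fundamental cone (`mixedEmbedding.fundamentalCone.integerSetEquiv`).
-/

namespace StarkR

open NumberField IsDedekindDomain Filter Topology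
open scoped nonZeroDivisors

open mixedEmbedding mixedEmbedding.fundamentalCone in
theorem prin_card (F : Type) [Field F] [NumberField F] (𝔫 : Ideal (𝓞 F)) (R : Set (𝓞 F ⧸ 𝔫))
    (hR : ∀ (u : (𝓞 F)ˣ) (r : 𝓞 F ⧸ 𝔫), r ∈ R → Ideal.Quotient.mk 𝔫 (u : 𝓞 F) * r ∈ R) (s : ℝ) :
    Nat.card {β : 𝓞 F // mixedEmbedding F (β : F) ∈ mixedEmbedding.fundamentalCone F ∧
        (Ideal.absNorm (Ideal.span {β}) : ℝ) ≤ s ∧ Ideal.Quotient.mk 𝔫 β ∈ R} =
      Set.ncard {I : Ideal (𝓞 F) | (Ideal.absNorm I : ℝ) ≤ s ∧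
        ∃ β : 𝓞 F, β ≠ 0 ∧ I = Ideal.span {β} ∧ Ideal.Quotient.mk 𝔫 β ∈ R} * Units.torsionOrder F := by
  classical
  let Q : 𝓞 F → Prop := fun β => (Ideal.absNorm (Ideal.span {β}) : ℝ) ≤ s ∧ Ideal.Quotient.mk 𝔫 β ∈ R
  let Q' : Ideal (𝓞 F) → Prop := fun I => (Ideal.absNorm I : ℝ) ≤ s ∧
    ∃ β : 𝓞 F, β ≠ 0 ∧ I = Ideal.span {β} ∧ Ideal.Quotient.mk 𝔫 β ∈ R
  let e1 : {β : 𝓞 F // mixedEmbedding F (β : F) ∈ mixedEmbedding.fundamentalCone F ∧ Q β} ≃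
      {a : integerSet F // Q (preimageOfMemIntegerSet a : 𝓞 F)} :=
    { toFun := fun β => ⟨⟨mixedEmbedding F (β.1 : F), mem_integerSet.2 ⟨β.2.1, β.1, rfl⟩⟩, by
        rw [preimageOfMemIntegerSet_mixedEmbedding]
        exact β.2.2⟩
      invFun := fun a => ⟨(preimageOfMemIntegerSet a.1 : 𝓞 F), by
        rw [mixedEmbedding_preimageOfMemIntegerSet]
        exact ⟨a.1.2.1, a.2⟩⟩
      left_inv := fun β => Subtype.ext (preimageOfMemIntegerSet_mixedEmbedding _)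
      right_inv := fun a => Subtype.ext (Subtype.ext (mixedEmbedding_preimageOfMemIntegerSet a.1)) }
  have hQ : ∀ a : integerSet F, Q (preimageOfMemIntegerSet a : 𝓞 F) ↔ Q' ((integerSetEquiv F a).1 : Ideal (𝓞 F)) := by
    intro a
    rw [integerSetEquiv_apply_fst]
    constructor
    · rintro ⟨h1, h2⟩
      exact ⟨h1, _, nonZeroDivisors.coe_ne_zero _, rfl, h2⟩
    · rintro ⟨h1, β, h2, h3, h4⟩
      refine ⟨h1, ?_⟩
      obtain ⟨u, hu⟩ := (Ideal.span_singleton_eq_span_singleton.1 h3).symm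
      have h5 := hR u _ h4
      rwa [← map_mul, mul_comm, hu] at h5
  let e2 : {a : integerSet F // Q (preimageOfMemIntegerSet a : 𝓞 F)} ≃
      {p : {I : (Ideal (𝓞 F))⁰ // Submodule.IsPrincipal I.val} × Units.torsion F // Q' (p.1 : Ideal (𝓞 F))} :=
    (integerSetEquiv F).subtypeEquiv hQ
  let e3 : {p : {I : (Ideal (𝓞 F))⁰ // Submodule.IsPrincipal I.val} × Units.torsion F // Q' (p.1 : Ideal (𝓞 F))} ≃
      {I : {I : (Ideal (𝓞 F))⁰ // Submodule.IsPrincipal I.val} // Q' (I : Ideal (𝓞 F))} × Units.torsion F :=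
    Equiv.prodSubtypeFstEquivSubtypeProd (p := fun I : {I : (Ideal (𝓞 F))⁰ // Submodule.IsPrincipal I.val} => Q' (I : Ideal (𝓞 F)))
  let e4 : {I : {I : (Ideal (𝓞 F))⁰ // Submodule.IsPrincipal I.val} // Q' (I : Ideal (𝓞 F))} ≃ {I : Ideal (𝓞 F) | Q' I} :=
    Equiv.ofBijective (fun I => ⟨(I.1 : Ideal (𝓞 F)), I.2⟩) ⟨fun I J h => Subtype.ext (Subtype.ext (Subtype.ext (Subtype.mk.inj h))),
      fun ⟨I, hI⟩ => by
        obtain ⟨β, h2, h3, h4⟩ := hI.2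
        refine ⟨⟨⟨⟨I, mem_nonZeroDivisors_of_ne_zero ?_⟩, ⟨β, h3⟩⟩, hI⟩, rfl⟩
        rw [h3]
        simpa using h2⟩
  calc Nat.card {β : 𝓞 F // mixedEmbedding F (β : F) ∈ mixedEmbedding.fundamentalCone F ∧ Q β}
      = Nat.card ({I : {I : (Ideal (𝓞 F))⁰ // Submodule.IsPrincipal I.val} // Q' (I : Ideal (𝓞 F))} × Units.torsion F) :=
        Nat.card_congr (e1.trans (e2.trans e3))
    _ = Nat.card {I : {I : (Ideal (𝓞 F))⁰ // Submodule.IsPrincipal I.val} // Q' (I : Ideal (𝓞 F))} * Units.torsionOrder F := by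
        rw [Nat.card_prod, Units.torsionOrder]
    _ = Set.ncard {I : Ideal (𝓞 F) | Q' I} * Units.torsionOrder F := by
        rw [Nat.card_congr e4]
        rfl

theorem prin_count (F : Type) [Field F] [NumberField F] : ∃ κ : ℝ, 0 < κ ∧
    ∀ (𝔫 : Ideal (𝓞 F)), 𝔫 ≠ ⊥ → ∀ R : Set (𝓞 F ⧸ 𝔫),
      (∀ (u : (𝓞 F)ˣ) (r : 𝓞 F ⧸ 𝔫), r ∈ R → Ideal.Quotient.mk 𝔫 (u : 𝓞 F) * r ∈ R) →
      Tendsto (fun s : ℝ => (Set.ncard {I : Ideal (𝓞 F) | (Ideal.absNorm I : ℝ) ≤ s ∧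
        ∃ β : 𝓞 F, β ≠ 0 ∧ I = Ideal.span {β} ∧ Ideal.Quotient.mk 𝔫 β ∈ R} : ℝ) / s) atTop
        (𝓝 (κ * (R.ncard : ℝ) / (Ideal.absNorm 𝔫 : ℝ))) := by
  obtain ⟨κ, hκ, h⟩ := cone_count F
  have ht : (0 : ℝ) < Units.torsionOrder F := by exact_mod_cast Units.torsionOrder_pos F
  refine ⟨κ / Units.torsionOrder F, by positivity, fun 𝔫 h𝔫 R hR => ?_⟩
  have h1 := (h 𝔫 h𝔫 R).div_const (Units.torsionOrder F : ℝ)
  have h2 : κ / (Units.torsionOrder F : ℝ) * (R.ncard : ℝ) / (Ideal.absNorm 𝔫 : ℝ) =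
      κ * (R.ncard : ℝ) / (Ideal.absNorm 𝔫 : ℝ) / (Units.torsionOrder F : ℝ) := by ring
  rw [h2]
  refine h1.congr fun s => ?_
  rw [prin_card F 𝔫 R hR s]
  push_cast
  field_simp

end StarkR
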