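import Pool.Agent.Lib.MP_d9bae3_nt.SK.Base

/-!
# Module SNA-RamT: ramified and unramified primes of a Kummer extension

* `ram_of`: the proof of `ev_ramified` (SK/Ram.lean) with weaker hypotheses (only these are used there).
* `unram_of`: let `σ` be in the inertia group of a prime `Q` above `q`.  `σ α_i = ω α_i` with `ω` a root of unity in `F`, `ω^(n_i) = 1` (`(σ α_i)^(n_i) = α_i^(n_i)`; `ζ` is a primitive `e`-th root of unity and `n_i ∣ e`), `α_i` is integral, and
  `σ α_i - α_i = (ω - 1) α_i ∈ Q`.  `α_i ∉ Q` (otherwise `rad b i ∈ q`, but all `b w ∉ q`), so `ω - 1 ∈ Q`; if `ω ≠ 1` then `0 = ∑_{k < e} ω^k ≡ e` modulo `Q`, so `e ∈ Q ∩ 𝓞 F = q`: contradiction (this argument is also in SK/Dec.lean).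
  So `σ` fixes all `α_i` and `σ = 1`.
-/

namespace StarkR

open NumberField IsDedekindDomain
open scoped Pointwise

variable {F : Type} [Field F] [NumberField F] {m : ℕ} {n : Fin m → ℕ} [∀ i, NeZero (n i)]
variable {H : Type} [Field H] [NumberField H] [Algebra F H]

private theorem rt_iv_one {q : Prm F} {x : 𝓞 F} (hx : x ∉ q.asIdeal) : q.intValuation x = 1 := by
  rw [HeightOneSpectrum.intValuation_eq_one_iff]
  exact hx

private theorem rt_iv_exp {q : Prm F} {x : 𝓞 F} (h1 : x ∈ q.asIdeal) (h2 : x ∉ q.asIdeal ^ 2) :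
    q.intValuation x = WithZero.exp (-1 : ℤ) := by
  refine le_antisymm ?_ ?_
  · have := (q.intValuation_le_pow_iff_mem x 1).2 (by simpa using h1)
    simpa using this
  · by_contra hlt
    rw [not_le] at hlt
    refine h2 ((q.intValuation_le_pow_iff_mem x 2).1 ?_)
    rcases eq_or_ne x 0 with rfl | hx0
    · simp
    rw [HeightOneSpectrum.intValuation_if_neg _ hx0] at hlt ⊢
    rw [WithZero.exp_lt_exp] at hlt
    rw [WithZero.exp_le_exp]
    push_cast
    omega

theorem ram_of [IsGalois F H] {b : V n → 𝓞 F} {α : Fin m → H} (h : IsExt b H α) {q : Prm F} {v : V n}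
    (hv0 : v ≠ 0) (h1 : b v ∈ q.asIdeal) (h2 : b v ∉ q.asIdeal ^ 2) (h3 : ∀ w, w ≠ v → b w ∉ q.asIdeal) :
    Ramified H q := by
  classical
  obtain ⟨i, hi⟩ : ∃ i, v i ≠ 0 := by
    by_contra hc
    push Not at hc
    exact hv0 (funext hc)
  obtain ⟨w, hw⟩ : ∃ w : Prm H, w.asIdeal.LiesOver q.asIdeal := by
    have hq := q.isMaximal
    obtain ⟨Q, hQ1, hQ2⟩ := Ideal.exists_maximal_ideal_liesOver_of_isIntegral q.asIdeal (S := 𝓞 H)
    exact ⟨⟨Q, hQ1.isPrime, Ideal.ne_bot_of_liesOver_of_ne_bot q.ne_bot Q⟩, hQ2⟩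
  -- valuation of `rad b i`
  have hk : q.intValuation (rad b i) = WithZero.exp (-((v i).val : ℤ)) := by
    unfold rad
    rw [map_prod, ← Finset.mul_prod_erase _ _ (Finset.mem_univ v), map_pow, rt_iv_exp h1 h2, Finset.prod_eq_one,
      mul_one, ← WithZero.exp_nsmul]
    · simp
    · intro x hx
      rw [map_pow, rt_iv_one (h3 x (Finset.ne_of_mem_erase hx)), one_pow]
  -- the integral root
  have hint : IsIntegral ℤ (α i) := by
    refine IsIntegral.of_pow (Nat.pos_of_ne_zero (NeZero.ne (n i))) ?_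
    rw [h.pow i]
    exact (RingOfIntegers.isIntegral_coe (rad b i)).map (algebraMap F H).toIntAlgHom
  set y : 𝓞 H := ⟨α i, hint⟩ with hy
  have hyp : y ^ n i = algebraMap (𝓞 F) (𝓞 H) (rad b i) := by
    apply RingOfIntegers.ext
    exact h.pow i
  have hE := HeightOneSpectrum.intValuation_liesOver q w (rad b i)
  rw [← hyp, map_pow, hk] at hE
  refine ⟨w.asIdeal, w.isPrime, hw, fun hbot => ?_⟩
  have hE1 : q.asIdeal.ramificationIdx' w.asIdeal = 1 := by
    have hfin : Finite (𝓞 F ⧸ q.asIdeal) := Ideal.finiteQuotientOfFreeOfNeBot q.asIdeal q.ne_bot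
    have hfin2 : Finite q.asIdeal.ResidueField := by
      have hb := q.isMaximal
      exact Finite.of_surjective _ (Ideal.bijective_algebraMap_quotient_residueField q.asIdeal).2
    have h5 := Ideal.card_inertia_eq_ramificationIdxIn (G := Gal(H/F)) q.asIdeal w.asIdeal
    rw [hbot, Subgroup.card_bot] at h5
    rw [Ideal.ramificationIdx'_eq_ramificationIdx q.asIdeal w.asIdeal q.ne_bot,
      ← Ideal.ramificationIdxIn_eq_ramificationIdx q.asIdeal w.asIdeal Gal(H/F), ← h5]
  rw [hE1, pow_one] at hE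
  have hy0 : y ≠ 0 := by
    rintro h0
    rw [h0, map_zero, zero_pow (NeZero.ne (n i))] at hE
    exact WithZero.exp_ne_zero hE
  rw [HeightOneSpectrum.intValuation_if_neg _ hy0, ← WithZero.exp_nsmul, WithZero.exp_inj] at hE
  have h4 : (n i : ℤ) ∣ ((v i).val : ℤ) := by
    rw [nsmul_eq_mul] at hE
    exact ⟨((Associates.mk w.asIdeal).count (Associates.mk (Ideal.span {y})).factors : ℤ), by linarith⟩
  have h5 : n i ∣ (v i).val := by exact_mod_cast h4
  have h6 := Nat.le_of_dvd (Nat.pos_of_ne_zero fun h0 => hi ((ZMod.val_eq_zero _).1 h0)) h5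
  exact absurd (ZMod.val_lt (v i)) (not_lt.2 h6)

theorem unram_of {e : ℕ} {ζ : F} (hζ : IsPrimitiveRoot ζ e) (he : 0 < e) (hn : ∀ i, n i ∣ e) {b : V n → 𝓞 F} {α : Fin m → H}
    (h : IsExt b H α) {q : Prm F} (heq : (e : 𝓞 F) ∉ q.asIdeal) (h3 : ∀ w, b w ∉ q.asIdeal) : ¬ Ramified H q := by
  classical
  rintro ⟨Q, hQ, hQq, hne⟩
  refine hne ?_
  rw [eq_bot_iff]
  intro σ hσ
  rw [Subgroup.mem_bot]
  have hσ' : ∀ x : 𝓞 H, σ • x - x ∈ Q := hσ
  have hqp : q.asIdeal.IsPrime := q.isPrime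
  have hinj : Function.Injective (algebraMap (𝓞 H) H) := FaithfulSMul.algebraMap_injective _ _
  have hmap : ∀ z : 𝓞 F, algebraMap (𝓞 H) H (algebraMap (𝓞 F) (𝓞 H) z) = algebraMap F H (z : F) := by
    intro z
    rw [← IsScalarTower.algebraMap_apply (𝓞 F) (𝓞 H) H, IsScalarTower.algebraMap_apply (𝓞 F) F H]
  have hsm : ∀ (τ : Gal(H/F)) (z : 𝓞 H), algebraMap (𝓞 H) H (τ • z) = τ (algebraMap (𝓞 H) H z) := by
    intro τ z
    rw [algebraMap.smul' τ z H]
    rfl
  have hfix : ∀ z : 𝓞 F, σ • (algebraMap (𝓞 F) (𝓞 H) z) = algebraMap (𝓞 F) (𝓞 H) z := by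
    intro z
    apply hinj
    rw [hsm, hmap]
    exact σ.commutes _
  have hmemQ : ∀ z : 𝓞 F, algebraMap (𝓞 F) (𝓞 H) z ∈ Q ↔ z ∈ q.asIdeal := by
    intro z
    rw [hQq.over]
    rfl
  -- the root of unity
  obtain ⟨Z, hZ⟩ : ∃ Z : 𝓞 F, algebraMap (𝓞 F) F Z = ζ :=
    (IsIntegralClosure.isIntegral_iff (A := 𝓞 F)).1 (hζ.isIntegral he)
  have hZH : IsPrimitiveRoot (algebraMap (𝓞 F) (𝓞 H) Z) e := by
    have h3 : IsPrimitiveRoot (algebraMap F H ζ) e :=
      hζ.map_of_injective (FaithfulSMul.algebraMap_injective F H)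
    refine IsPrimitiveRoot.of_map_of_injective (f := algebraMap (𝓞 H) H) ?_ hinj
    rw [hmap]
    rw [← hZ] at h3
    exact h3
  have hαfix : ∀ i, σ (α i) = α i := by
    intro i
    have hint : IsIntegral ℤ (α i) := by
      refine IsIntegral.of_pow (Nat.pos_of_ne_zero (NeZero.ne (n i))) ?_
      rw [h.pow i]
      exact (RingOfIntegers.isIntegral_coe (rad b i)).algebraMap
    obtain ⟨y, hy⟩ : ∃ y : 𝓞 H, algebraMap (𝓞 H) H y = α i :=
      (IsIntegralClosure.isIntegral_iff (A := 𝓞 H)).1 hint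
    have hyp : y ^ n i = algebraMap (𝓞 F) (𝓞 H) (rad b i) := by
      apply hinj
      rw [map_pow, hy, hmap]
      exact h.pow i
    have hradq : rad b i ∉ q.asIdeal := by
      intro hmem
      unfold rad at hmem
      rw [hqp.prod_mem_iff] at hmem
      obtain ⟨w, _, hwm⟩ := hmem
      exact h3 w (hqp.mem_of_pow_mem _ hwm)
    have hyQ : y ∉ Q := by
      intro hmem
      have h4 : algebraMap (𝓞 F) (𝓞 H) (rad b i) ∈ Q := by
        rw [← hyp]
        exact Ideal.pow_mem_of_mem _ hmem _ (Nat.pos_of_ne_zero (NeZero.ne (n i)))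
      exact hradq ((hmemQ _).1 h4)
    have hy0 : y ≠ 0 := fun h0 => hyQ (h0 ▸ Q.zero_mem)
    have hyH0 : algebraMap (𝓞 H) H y ≠ 0 := by
      intro h0
      exact hy0 (hinj (by rw [h0, map_zero]))
    have hσye : (σ • y) ^ n i = y ^ n i := by
      rw [← smul_pow', hyp, hfix]
    have hσye' : (σ • y) ^ e = y ^ e := by
      obtain ⟨t, ht⟩ := hn i
      rw [ht, pow_mul, hσye, ← pow_mul]
    obtain ⟨j, hj⟩ : ∃ j : ℕ, σ • y = (algebraMap (𝓞 F) (𝓞 H) Z) ^ j * y := by
      have : NeZero e := ⟨he.ne'⟩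
      have h5 : IsPrimitiveRoot (algebraMap (𝓞 H) H (algebraMap (𝓞 F) (𝓞 H) Z)) e :=
        hZH.map_of_injective hinj
      have h4 : (algebraMap (𝓞 H) H (σ • y) / algebraMap (𝓞 H) H y) ^ e = 1 := by
        rw [div_pow, ← map_pow, ← map_pow, hσye', div_self]
        rw [map_pow]
        exact pow_ne_zero _ hyH0
      obtain ⟨k, _, hk⟩ := h5.eq_pow_of_pow_eq_one h4
      refine ⟨k, hinj ?_⟩
      rw [map_mul, map_pow, hk, div_mul_cancel₀]
      exact hyH0
    set ω : 𝓞 H := (algebraMap (𝓞 F) (𝓞 H) Z) ^ j with hωdef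
    have hωe : ω ^ e = 1 := by
      rw [hωdef, ← pow_mul, mul_comm, pow_mul, hZH.pow_eq_one, one_pow]
    have hωQ : ω - 1 ∈ Q := by
      have h5 : (ω - 1) * y ∈ Q := by
        have h4 : (ω - 1) * y = σ • y - y := by rw [hj]; ring
        rw [h4]
        exact hσ' y
      exact (hQ.mem_or_mem h5).resolve_right hyQ
    have hω1 : ω = 1 := by
      by_contra hne
      have hsum : ∑ k ∈ Finset.range e, ω ^ k = 0 := by
        have h5 := mul_geom_sum ω e
        rw [hωe, sub_self] at h5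
        exact (mul_eq_zero.1 h5).resolve_left (sub_ne_zero.2 hne)
      have h4 : Ideal.Quotient.mk Q ω = 1 := by
        rw [← map_one (Ideal.Quotient.mk Q), Ideal.Quotient.eq]
        exact hωQ
      have h5 : Ideal.Quotient.mk Q (∑ k ∈ Finset.range e, ω ^ k) = Ideal.Quotient.mk Q (e : 𝓞 H) := by
        rw [map_sum, map_natCast]
        simp [map_pow, h4]
      rw [hsum, map_zero] at h5
      have h6 : (e : 𝓞 H) ∈ Q := Ideal.Quotient.eq_zero_iff_mem.1 h5.symm
      have h7 : algebraMap (𝓞 F) (𝓞 H) (e : 𝓞 F) ∈ Q := by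
        rw [map_natCast]
        exact h6
      exact heq ((hmemQ _).1 h7)
    rw [← hy, ← hsm, hj, hω1, one_mul]
  have hall : ∀ x : H, σ x = x := by
    intro x
    have hx : x ∈ IntermediateField.adjoin F (Set.range α) := by
      rw [h.gen]
      exact IntermediateField.mem_top
    induction hx using IntermediateField.adjoin_induction with
    | mem y hy =>
      obtain ⟨i, rfl⟩ := hy
      exact hαfix i
    | algebraMap y => exact AlgEquiv.commutes σ y
    | add y z _ _ hy hz => rw [map_add, hy, hz]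
    | inv y _ hy => rw [map_inv₀, hy]
    | mul y z _ _ hy hz => rw [map_mul, hy, hz]
  exact AlgEquiv.ext hall

end StarkR
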