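import Pool.Agent.Lib.MP_d9bae3_nt.NA.CDens
import Pool.Agent.Lib.MP_d9bae3_nt.NA.Tup

/-!
# Module SNA-SqL: a positive proportion of the tuples is squarefree and pairwise coprime

Plan.  `k = card ι`.  For `Z ≥ 2` let `Q_Z` be the set of the primes `q ∉ S` with `N(q) ≤ Z`, and `C_Z(X)` the number of the `T ∈ TT ι S X` with all `T i` prime to `Q_Z`.  By `cr_dens` (`Q' = ∅`) and `tup_asymp`,
`C_Z(X) ~ δ κ^k/(k-1)! X (log X)^(k-1)` with `δ = ∏_{q ∈ Q_Z} (1 - 1/N(q))^k > 0`, and `#TT(X) ~ κ^k/(k-1)! X (log X)^(k-1)`.  If such a `T` is not `SqT`, then there is a prime `q ∉ S` with `N(q) > Z` and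
(`T i ≤ q^2`) or (`T i ≤ q` and `T j ≤ q`, `i ≠ j`); dividing by `q` twice gives a tuple counted in `C_Z(X/N(q)^2)`, so for fixed `q` there are at most `k^2 C_Z(X/N(q)^2)` such `T`.
Let `Y_0` be such that `C_Z(Y) ≤ 2 δ κ^k/(k-1)! Y (log Y)^(k-1)` for `Y ≥ Y_0`.  The `q` with `X/N(q)^2 ≥ Y_0` contribute at most `k^2 2 δ κ^k/(k-1)! X (log X)^(k-1) ∑_{N(q) > Z} 1/N(q)^2`, which is at most a quarter of the main term if `Z` is
large (`∑ 1/N(q)^2 < ∞`: from `∑ 1/N(I)^2 < ∞`, or at most `[F:ℚ]` primes over every `p`).  The `q` with `1 ≤ X/N(q)^2 < Y_0` contribute at most `C_Z(Y_0) k^2 ∑_{N(q)^2 > X/Y_0} X/N(q)^2 = o(X)`.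
-/

namespace StarkR

open NumberField IsDedekindDomain Filter Topology

variable {F : Type} [Field F] [NumberField F] {ι : Type} [Fintype ι]

private theorem SqL_ne_one (Q : Prm F) : nm Q ≠ 1 := by
  intro h
  exact Q.isPrime.ne_top (Ideal.absNorm_eq_one_iff.1 h)

private theorem SqL_pos (Q : Prm F) : 0 < nm Q := by
  rw [Nat.pos_iff_ne_zero]
  intro h
  exact Q.ne_bot (Ideal.absNorm_eq_zero_iff.1 h)

private theorem SqL_two (Q : Prm F) : (2 : ℝ) ≤ (nm Q : ℝ) := by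
  have h1 := SqL_ne_one Q
  have h2 := SqL_pos Q
  exact_mod_cast (show 2 ≤ nm Q by omega)

/-- the smallest prime factor of the norm lies in the prime -/
private theorem SqL_mem (Q : Prm F) : ((nm Q).minFac : 𝓞 F) ∈ Q.asIdeal := by
  classical
  have hmax : Q.asIdeal.IsMaximal := Q.isMaximal
  letI : Field (𝓞 F ⧸ Q.asIdeal) := Ideal.Quotient.field Q.asIdeal
  haveI : Finite (𝓞 F ⧸ Q.asIdeal) := Ideal.finiteQuotientOfFreeOfNeBot Q.asIdeal Q.ne_bot
  letI : Fintype (𝓞 F ⧸ Q.asIdeal) := Fintype.ofFinite _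
  obtain ⟨p, hp⟩ := CharP.exists (𝓞 F ⧸ Q.asIdeal)
  obtain ⟨n, hpp, hn⟩ := FiniteField.card (𝓞 F ⧸ Q.asIdeal) p
  have h1 : nm Q = p ^ (n : ℕ) := by
    rw [← hn, nm, Ideal.absNorm_apply, Submodule.cardQuot_apply, Nat.card_eq_fintype_card]
  have h2 : (nm Q).minFac = p := by
    rw [h1]
    exact hpp.pow_minFac n.ne_zero
  rw [h2, ← Ideal.Quotient.eq_zero_iff_mem, map_natCast]
  exact CharP.cast_eq_zero _ p

/-- at most `[F:ℚ]` primes contain the prime number `p` -/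
private theorem SqL_card (p : ℕ) (hp : p.Prime) (B : Finset (Prm F)) (hB : ∀ Q ∈ B, (nm Q).minFac = p) :
    B.card ≤ Module.finrank ℚ F := by
  classical
  have h1 : ∏ Q ∈ B, Q.asIdeal ∣ Ideal.span {(p : 𝓞 F)} := by
    refine Finset.prod_dvd_of_coprime ?_ ?_
    · intro Q _ Q' _ hne
      have h3 : Q.asIdeal ≠ Q'.asIdeal := fun h => hne (HeightOneSpectrum.ext h)
      exact Ideal.isCoprime_iff_sup_eq.2 (Q.isMaximal.coprime_of_ne Q'.isMaximal h3)
    · intro Q hQ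
      rw [Ideal.dvd_span_singleton, ← hB Q hQ]
      exact SqL_mem Q
  have h2 : ∏ Q ∈ B, nm Q ∣ p ^ Module.finrank ℚ F := by
    have h3 := map_dvd Ideal.absNorm h1
    rw [map_prod, Ideal.absNorm_span_singleton] at h3
    have h4 : (Algebra.norm ℤ (p : 𝓞 F)).natAbs = p ^ Module.finrank ℚ F := by
      have h5 : Algebra.norm ℤ (p : 𝓞 F) = (p : ℤ) ^ Module.finrank ℤ (𝓞 F) := by
        have := Algebra.norm_algebraMap (R := ℤ) (S := 𝓞 F) (p : ℤ)
        simpa using this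
      rw [h5, Int.natAbs_pow, Int.natAbs_natCast, RingOfIntegers.rank]
    rw [h4] at h3
    exact h3
  have h6 : p ^ B.card ≤ ∏ Q ∈ B, nm Q := by
    rw [← Finset.prod_const]
    refine Finset.prod_le_prod' fun Q hQ => ?_
    rw [← hB Q hQ]
    exact Nat.minFac_le (SqL_pos Q)
  have h7 : p ^ B.card ≤ p ^ Module.finrank ℚ F :=
    h6.trans (Nat.le_of_dvd (pow_pos hp.pos _) h2)
  exact (Nat.pow_le_pow_iff_right hp.one_lt).1 h7

private theorem SqL_summable (F : Type) [Field F] [NumberField F] : Summable (fun q : Prm F => 1 / (nm q : ℝ) ^ 2) := by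
  classical
  have hs : Summable fun k : ℕ => (Module.finrank ℚ F : ℝ) * (1 / (k : ℝ) ^ 2) :=
    (Real.summable_one_div_nat_pow.2 (by norm_num)).mul_left _
  refine summable_of_sum_le (c := ∑' k : ℕ, (Module.finrank ℚ F : ℝ) * (1 / (k : ℝ) ^ 2)) (fun q => by positivity) fun A => ?_
  have h0 : ∀ Q ∈ A, (nm Q).minFac ∈ A.image (fun Q => (nm Q).minFac) := fun Q hQ =>
    Finset.mem_image_of_mem _ hQ
  rw [← Finset.sum_fiberwise_of_maps_to h0]
  refine le_trans (Finset.sum_le_sum fun p hp => ?_)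
    (hs.sum_le_tsum (A.image (fun Q => (nm Q).minFac)) fun k _ => by positivity)
  obtain ⟨Q₀, -, hQ₀⟩ := Finset.mem_image.1 hp
  have hpp : p.Prime := hQ₀ ▸ Nat.minFac_prime (SqL_ne_one Q₀)
  have hp0 : (0 : ℝ) < p := by exact_mod_cast hpp.pos
  have h1 : ∀ Q ∈ A.filter (fun Q => (nm Q).minFac = p), 1 / (nm Q : ℝ) ^ 2 ≤ 1 / (p : ℝ) ^ 2 := by
    intro Q hQ
    rw [Finset.mem_filter] at hQ
    have h2 : p ≤ nm Q := by
      rw [← hQ.2]
      exact Nat.minFac_le (SqL_pos Q)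
    have h3 : (p : ℝ) ≤ nm Q := by exact_mod_cast h2
    exact one_div_le_one_div_of_le (by positivity) (pow_le_pow_left₀ hp0.le h3 2)
  refine (Finset.sum_le_card_nsmul _ _ _ h1).trans ?_
  rw [nsmul_eq_mul]
  refine mul_le_mul_of_nonneg_right ?_ (by positivity)
  exact_mod_cast SqL_card p hpp _ fun Q hQ => (Finset.mem_filter.1 hQ).2

private theorem SqL_fin (x : ℝ) : {q : Prm F | (nm q : ℝ) ≤ x}.Finite := by
  have h : {I : Ideal (𝓞 F) | (Ideal.absNorm I : ℝ) ≤ x}.Finite := by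
    refine (Ideal.finite_setOfPred_absNorm_le (S := 𝓞 F) ⌊x⌋₊).subset fun I h => ?_
    have h' : (Ideal.absNorm I : ℝ) ≤ x := h
    exact Nat.le_floor h'
  refine Set.Finite.of_finite_image (f := fun q : Prm F => q.asIdeal) (h.subset ?_) ?_
  · rintro _ ⟨q, hq, rfl⟩
    exact hq
  · intro q _ q' _ he
    exact HeightOneSpectrum.ext he

/-- the real analysis: the bad tuples are few -/
private theorem SqL_real {α : Type} (N : α → ℝ) (hN : ∀ q, 2 ≤ N q) (hs : Summable (fun q => 1 / N q ^ 2)) {c : ℝ → ℝ}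
    (hm : Monotone c) (hc0 : ∀ y, 0 ≤ c y) {D : ℝ} (hD : 0 < D) {j : ℕ}
    (hc : Tendsto (fun X : ℝ => c X / (X * Real.log X ^ j)) atTop (𝓝 D)) {K τ : ℝ} (hK : 0 ≤ K) (hτ : K * (2 * D * τ) ≤ D / 4)
    (A0 : Finset α) (hA0 : ∀ t : Finset α, Disjoint t A0 → ∑ q ∈ t, 1 / N q ^ 2 ≤ τ) (P : ℝ → Finset α)
    (hP : ∀ X, ∀ q ∈ P X, q ∉ A0 ∧ N q ^ 2 ≤ X) :
    ∀ᶠ X : ℝ in atTop, K * ∑ q ∈ P X, c (X / N q ^ 2) ≤ D / 2 * (X * Real.log X ^ j) := by
  classical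
  have h1 : ∀ᶠ X : ℝ in atTop, c X / (X * Real.log X ^ j) < 2 * D := hc.eventually (gt_mem_nhds (by linarith))
  obtain ⟨Y1, hY1⟩ := eventually_atTop.1 h1
  obtain ⟨Y0, hY0⟩ : ∃ Y0, Y0 = max Y1 3 := ⟨_, rfl⟩
  have hY03 : 3 ≤ Y0 := hY0 ▸ le_max_right _ _
  have hlog3 : ∀ Y : ℝ, 3 ≤ Y → 1 ≤ Real.log Y := by
    intro Y hY
    rw [Real.le_log_iff_exp_le (by linarith)]
    exact (Real.exp_one_lt_d9.le.trans (by norm_num)).trans hY
  have hbig : ∀ Y, Y0 ≤ Y → c Y ≤ 2 * D * (Y * Real.log Y ^ j) := by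
    intro Y hY
    have h2 := (hY1 Y ((le_max_left _ _).trans (hY0 ▸ hY))).le
    have h3 : 0 < Y * Real.log Y ^ j := by
      have := hlog3 Y (hY03.trans hY)
      have : 0 < Y := by linarith
      positivity
    rwa [div_le_iff₀ h3] at h2
  obtain ⟨ε, hε⟩ : ∃ ε, ε = D / (4 * (K * c Y0 + 1)) := ⟨_, rfl⟩
  have hKc : 0 ≤ K * c Y0 := mul_nonneg hK (hc0 _)
  have hε0 : 0 < ε := by rw [hε]; positivity
  obtain ⟨A1, hA1⟩ := summable_iff_vanishing_norm.mp hs ε hε0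
  filter_upwards [eventually_ge_atTop (3 : ℝ), eventually_gt_atTop (Y0 * (∑ q ∈ A1, N q ^ 2))] with X hX3 hXA
  have hX0 : 0 < X := by linarith
  have hlX := hlog3 X hX3
  have hN0 : ∀ q, 0 < N q ^ 2 := fun q => by
    have := hN q
    positivity
  rw [← Finset.sum_filter_add_sum_filter_not (P X) (fun q => Y0 ≤ X / N q ^ 2)]
  have hfirst : ∑ q ∈ (P X).filter (fun q => Y0 ≤ X / N q ^ 2), c (X / N q ^ 2) ≤ 2 * D * (X * Real.log X ^ j) * τ := by
    have h4 : ∀ q ∈ (P X).filter (fun q => Y0 ≤ X / N q ^ 2), c (X / N q ^ 2) ≤ 2 * D * (X * Real.log X ^ j) * (1 / N q ^ 2) := by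
      intro q hq
      rw [Finset.mem_filter] at hq
      refine (hbig _ hq.2).trans ?_
      have h5 : 1 ≤ Real.log (X / N q ^ 2) := hlog3 _ (hY03.trans hq.2)
      have h6 : Real.log (X / N q ^ 2) ≤ Real.log X := by
        refine Real.log_le_log (by have := hN0 q; positivity) ?_
        have h7 : 1 ≤ N q ^ 2 := by
          have := hN q
          nlinarith
        exact div_le_self hX0.le h7
      have h8 : Real.log (X / N q ^ 2) ^ j ≤ Real.log X ^ j := pow_le_pow_left₀ (by linarith) h6 j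
      have h9 : 0 ≤ X / N q ^ 2 := by have := hN0 q; positivity
      calc 2 * D * (X / N q ^ 2 * Real.log (X / N q ^ 2) ^ j) ≤ 2 * D * (X / N q ^ 2 * Real.log X ^ j) := by gcongr
        _ = 2 * D * (X * Real.log X ^ j) * (1 / N q ^ 2) := by ring
    refine (Finset.sum_le_sum h4).trans ?_
    rw [← Finset.mul_sum]
    refine mul_le_mul_of_nonneg_left (hA0 _ ?_) (by positivity)
    rw [Finset.disjoint_left]
    intro q hq
    rw [Finset.mem_filter] at hq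
    exact (hP X q hq.1).1
  have hsecond : ∑ q ∈ (P X).filter (fun q => ¬ Y0 ≤ X / N q ^ 2), c (X / N q ^ 2) ≤ c Y0 * X * ε := by
    have h4 : ∀ q ∈ (P X).filter (fun q => ¬ Y0 ≤ X / N q ^ 2), c (X / N q ^ 2) ≤ c Y0 * X * (1 / N q ^ 2) := by
      intro q hq
      rw [Finset.mem_filter, not_le] at hq
      have h5 : 1 ≤ X / N q ^ 2 := by
        rw [one_le_div (hN0 q)]
        exact (hP X q hq.1).2
      calc c (X / N q ^ 2) ≤ c Y0 := hm hq.2.le
        _ = c Y0 * 1 := (mul_one _).symm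
        _ ≤ c Y0 * (X / N q ^ 2) := mul_le_mul_of_nonneg_left h5 (hc0 _)
        _ = c Y0 * X * (1 / N q ^ 2) := by ring
    refine (Finset.sum_le_sum h4).trans ?_
    rw [← Finset.mul_sum]
    refine mul_le_mul_of_nonneg_left ?_ (mul_nonneg (hc0 _) hX0.le)
    refine ((le_abs_self _).trans_lt (hA1 _ ?_)).le
    rw [Finset.disjoint_left]
    intro q hq hq1
    rw [Finset.mem_filter] at hq
    refine hq.2 ?_
    rw [le_div_iff₀ (hN0 q)]
    have h5 : N q ^ 2 ≤ ∑ q ∈ A1, N q ^ 2 := Finset.single_le_sum (fun q _ => (hN0 q).le) hq1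
    calc Y0 * N q ^ 2 ≤ Y0 * ∑ q ∈ A1, N q ^ 2 := mul_le_mul_of_nonneg_left h5 (by linarith)
      _ ≤ X := hXA.le
  have hXL : X ≤ X * Real.log X ^ j := by
    have := one_le_pow₀ (n := j) hlX
    nlinarith
  have h5 : K * (c Y0 * X * ε) ≤ D / 4 * X := by
    have h6 : K * c Y0 * ε ≤ D / 4 := by
      rw [hε, mul_div_assoc', div_le_div_iff₀ (by positivity) (by norm_num)]
      nlinarith
    calc K * (c Y0 * X * ε) = K * c Y0 * ε * X := by ring
      _ ≤ D / 4 * X := mul_le_mul_of_nonneg_right h6 hX0.le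
  have h7 : K * (2 * D * (X * Real.log X ^ j) * τ) ≤ D / 4 * (X * Real.log X ^ j) := by
    calc K * (2 * D * (X * Real.log X ^ j) * τ) = K * (2 * D * τ) * (X * Real.log X ^ j) := by ring
      _ ≤ D / 4 * (X * Real.log X ^ j) := mul_le_mul_of_nonneg_right hτ (by positivity)
  rw [mul_add]
  have h8 := mul_le_mul_of_nonneg_left hfirst hK
  have h9 := mul_le_mul_of_nonneg_left hsecond hK
  nlinarith

/-- the ideals prime to `S` and to `Q` -/
private def SqB (S Q : Finset (Prm F)) : Set (Ideal (𝓞 F)) := {I | Cop S I ∧ ∀ q ∈ Q, ¬ I ≤ q.asIdeal}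

private theorem SqB_dvd {S Q : Finset (Prm F)} {I J : Ideal (𝓞 F)} (hI : I ∈ SqB S Q) (h : J ∣ I) : J ∈ SqB S Q := by
  have h1 : I ≤ J := Ideal.dvd_iff_le.1 h
  refine ⟨⟨?_, fun q hq hJ => hI.1.2 q hq (h1.trans hJ)⟩, fun q hq hJ => hI.2 q hq (h1.trans hJ)⟩
  rintro rfl
  exact hI.1.1 (le_bot_iff.1 h1)

open Classical in
/-- the divisor of `T l` -/
private noncomputable def SqF (q : Prm F) (i j l : ι) : Ideal (𝓞 F) :=
  (if l = i then q.asIdeal else 1) * (if l = j then q.asIdeal else 1)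

private theorem SqF_norm (q : Prm F) (i j : ι) : ∏ l, (Ideal.absNorm (SqF q i j l) : ℝ) = (nm q : ℝ) ^ 2 := by
  classical
  have h1 : ∀ i : ι, ∏ l, (Ideal.absNorm (if l = i then q.asIdeal else 1) : ℝ) = nm q := by
    intro i
    have h2 : ∀ l, (Ideal.absNorm (if l = i then q.asIdeal else 1) : ℝ) = if l = i then (nm q : ℝ) else 1 := by
      intro l
      by_cases h : l = i
      · rw [if_pos h, if_pos h, nm]
      · rw [if_neg h, if_neg h, map_one, Nat.cast_one]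
    rw [Finset.prod_congr rfl fun l _ => h2 l, Finset.prod_ite_eq' Finset.univ i]
    simp
  have h3 : ∀ l, (Ideal.absNorm (SqF q i j l) : ℝ) =
      (Ideal.absNorm (if l = i then q.asIdeal else 1) : ℝ) * (Ideal.absNorm (if l = j then q.asIdeal else 1) : ℝ) := by
    intro l
    rw [SqF, map_mul, Nat.cast_mul]
  rw [Finset.prod_congr rfl fun l _ => h3 l, Finset.prod_mul_distrib, h1, h1, sq]

private theorem SqL_div {S Q : Finset (Prm F)} {X : ℝ} {T : ι → Ideal (𝓞 F)} (hT : T ∈ tup (fun _ => SqB S Q) X) {q : Prm F}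
    {i j : ι} (h : ∀ l, SqF q i j l ∣ T l) :
    ∃ T' ∈ tup (fun _ : ι => SqB S Q) (X / (nm q : ℝ) ^ 2), T = fun l => SqF q i j l * T' l := by
  choose T' hT' using h
  refine ⟨T', ⟨fun l => ⟨SqB_dvd (hT.1 l).1 ⟨SqF q i j l, by rw [mul_comm]; exact hT' l⟩, ?_⟩, ?_⟩, funext hT'⟩
  · intro h0
    refine (hT.1 l).2 ?_
    rw [hT' l, h0, Ideal.mul_bot]
  · have h1 : ∏ l, (Ideal.absNorm (T l) : ℝ) = (nm q : ℝ) ^ 2 * ∏ l, (Ideal.absNorm (T' l) : ℝ) := by
      rw [← SqF_norm q i j, ← Finset.prod_mul_distrib]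
      refine Finset.prod_congr rfl fun l _ => ?_
      rw [hT' l, map_mul, Nat.cast_mul]
    have h2 : (0 : ℝ) < (nm q : ℝ) ^ 2 := by
      have := SqL_two q
      positivity
    rw [le_div_iff₀ h2, mul_comm, ← h1]
    exact hT.2

private theorem SqL_one_le {B : ι → Set (Ideal (𝓞 F))} {X : ℝ} {T : ι → Ideal (𝓞 F)} (hT : T ∈ tup B X) : 1 ≤ X := by
  refine le_trans ?_ hT.2
  have h1 : (1 : ℝ) = ∏ _l : ι, (1 : ℝ) := by simp
  rw [h1]
  refine Finset.prod_le_prod (fun _ _ => zero_le_one) fun l _ => ?_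
  have h2 : Ideal.absNorm (T l) ≠ 0 := fun h => (hT.1 l).2 (Ideal.absNorm_eq_zero_iff.1 h)
  exact_mod_cast Nat.one_le_iff_ne_zero.2 h2

private theorem SqL_bad {S Q : Finset (Prm F)} {X : ℝ} {T : ι → Ideal (𝓞 F)} (hT : T ∈ tup (fun _ => SqB S Q) X) (hb : ¬ SqT T) :
    ∃ q : Prm F, (q ∉ S ∧ q ∉ Q ∧ (nm q : ℝ) ^ 2 ≤ X) ∧ ∃ i j, ∀ l, SqF q i j l ∣ T l := by
  classical
  have key : ∃ q : Prm F, (q ∉ S ∧ q ∉ Q) ∧ ∃ i j, ∀ l, SqF q i j l ∣ T l := by
    rw [SqT, not_and_or] at hb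
    rcases hb with hb | hb
    · push Not at hb
      obtain ⟨i, q, h⟩ := hb
      have h' : T i ≤ q.asIdeal := h.trans (Ideal.pow_le_self two_ne_zero)
      refine ⟨q, ⟨fun hq => (hT.1 i).1.1.2 q hq h', fun hq => (hT.1 i).1.2 q hq h'⟩, i, i, fun l => ?_⟩
      rw [SqF]
      by_cases hl : l = i
      · rw [if_pos hl, ← sq, hl]
        exact Ideal.dvd_iff_le.2 h
      · rw [if_neg hl, one_mul]
        exact one_dvd _
    · push Not at hb
      obtain ⟨i, j, hij, q, hi, hj⟩ := hb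
      refine ⟨q, ⟨fun hq => (hT.1 i).1.1.2 q hq hi, fun hq => (hT.1 i).1.2 q hq hi⟩, i, j, fun l => ?_⟩
      rw [SqF]
      by_cases hl : l = i
      · have hlj : ¬ l = j := fun h => hij (hl.symm.trans h)
        rw [if_pos hl, if_neg hlj, mul_one, hl]
        exact Ideal.dvd_iff_le.2 hi
      · rw [if_neg hl, one_mul]
        by_cases hlj : l = j
        · rw [if_pos hlj, hlj]
          exact Ideal.dvd_iff_le.2 hj
        · rw [if_neg hlj]
          exact one_dvd _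
  obtain ⟨q, hq, i, j, h⟩ := key
  refine ⟨q, ⟨hq.1, hq.2, ?_⟩, i, j, h⟩
  obtain ⟨T', hT', -⟩ := SqL_div hT h
  have h1 := SqL_one_le hT'
  have h2 : (0 : ℝ) < (nm q : ℝ) ^ 2 := by
    have := SqL_two q
    positivity
  rwa [one_le_div h2] at h1

/-- the number of the bad tuples -/
private theorem SqL_count {S Q : Finset (Prm F)} (X : ℝ) (P : Finset (Prm F)) (hP : ∀ q, q ∉ S → q ∉ Q → (nm q : ℝ) ^ 2 ≤ X → q ∈ P) :
    (Set.ncard {T : ι → Ideal (𝓞 F) | T ∈ tup (fun _ => SqB S Q) X ∧ ¬ SqT T} : ℝ) ≤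
      (Fintype.card ι : ℝ) ^ 2 * ∑ q ∈ P, ((tup (fun _ : ι => SqB S Q) (X / (nm q : ℝ) ^ 2)).ncard : ℝ) := by
  classical
  have hfin : ∀ Y, (tup (fun _ : ι => SqB S Q) Y).Finite := fun Y => tup_finite _ Y
  have hset : {T : ι → Ideal (𝓞 F) | T ∈ tup (fun _ => SqB S Q) X ∧ ¬ SqT T} ⊆
      ((P ×ˢ (Finset.univ : Finset (ι × ι))).biUnion fun t => (hfin (X / (nm t.1 : ℝ) ^ 2)).toFinset.image
        fun T' l => SqF t.1 t.2.1 t.2.2 l * T' l : Finset (ι → Ideal (𝓞 F))) := by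
    rintro T ⟨hT, hb⟩
    obtain ⟨q, ⟨hqS, hq, hqX⟩, i, j, h⟩ := SqL_bad hT hb
    obtain ⟨T', hT', rfl⟩ := SqL_div hT h
    rw [Finset.mem_coe, Finset.mem_biUnion]
    refine ⟨(q, (i, j)), Finset.mem_product.2 ⟨hP q hqS hq hqX, Finset.mem_univ _⟩, ?_⟩
    exact Finset.mem_image.2 ⟨T', (Set.Finite.mem_toFinset _).2 hT', rfl⟩
  have h1 := Set.ncard_le_ncard hset (Finset.finite_toSet _)
  rw [Set.ncard_coe_finset] at h1
  have h2 := h1.trans Finset.card_biUnion_le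
  have h3 : ∀ t ∈ P ×ˢ (Finset.univ : Finset (ι × ι)), ((hfin (X / (nm t.1 : ℝ) ^ 2)).toFinset.image
        fun T' l => SqF t.1 t.2.1 t.2.2 l * T' l).card ≤ (tup (fun _ : ι => SqB S Q) (X / (nm t.1 : ℝ) ^ 2)).ncard := by
    intro t _
    rw [Set.ncard_eq_toFinset_card _ (hfin _)]
    exact Finset.card_image_le
  have h4 := h2.trans (Finset.sum_le_sum h3)
  rw [Finset.sum_product] at h4
  have h5 : ∑ q ∈ P, ∑ _t : ι × ι, (tup (fun _ : ι => SqB S Q) (X / (nm q : ℝ) ^ 2)).ncard =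
      Fintype.card ι ^ 2 * ∑ q ∈ P, (tup (fun _ : ι => SqB S Q) (X / (nm q : ℝ) ^ 2)).ncard := by
    rw [Finset.mul_sum]
    refine Finset.sum_congr rfl fun q _ => ?_
    rw [Finset.sum_const, Finset.card_univ, Fintype.card_prod, smul_eq_mul, pow_two (Fintype.card ι)]
  have h6 : Set.ncard {T : ι → Ideal (𝓞 F) | T ∈ tup (fun _ => SqB S Q) X ∧ ¬ SqT T} ≤
      Fintype.card ι ^ 2 * ∑ q ∈ P, (tup (fun _ : ι => SqB S Q) (X / (nm q : ℝ) ^ 2)).ncard := by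
    rw [← h5]
    exact h4
  exact_mod_cast h6

theorem sq_lower [Nonempty ι] {e : ℕ} (he : 0 < e) {S : Finset (Prm F)} (hS : GoodS e S) {g : Ideal (𝓞 F) → 𝓞 F} (hg : IsGen S g) :
    ∃ c : ℝ, 0 < c ∧ ∀ᶠ X : ℝ in atTop, c * ((TT ι S X).ncard : ℝ) ≤
      (Set.ncard {T : ι → Ideal (𝓞 F) | T ∈ TT ι S X ∧ SqT T} : ℝ) := by
  classical
  obtain ⟨κ, hκ, hdens⟩ := cr_dens he hS hg
  have hk : 0 < Fintype.card ι := Fintype.card_pos
  obtain ⟨K, hK⟩ : ∃ K : ℝ, K = (Fintype.card ι : ℝ) ^ 2 := ⟨_, rfl⟩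
  have hK0 : 0 < K := by rw [hK]; positivity
  -- a finite set of primes with a small tail
  obtain ⟨A0, hA0⟩ := summable_iff_vanishing_norm.mp (SqL_summable F) (1 / (8 * K)) (by positivity)
  have hA0' : ∀ t : Finset (Prm F), Disjoint t A0 → ∑ q ∈ t, 1 / (nm q : ℝ) ^ 2 ≤ 1 / (8 * K) := fun t ht =>
    ((le_abs_self _).trans_lt (hA0 t ht)).le
  obtain ⟨Q, hQ⟩ : ∃ Q : Finset (Prm F), Q = A0 \ S := ⟨_, rfl⟩
  have hQS : ∀ q ∈ Q, q ∉ S := fun q hq => by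
    rw [hQ, Finset.mem_sdiff] at hq
    exact hq.2
  obtain ⟨δ, hδ⟩ : ∃ δ : ℝ, δ = κ * ∏ q ∈ Q, (1 - 1 / (nm q : ℝ)) := ⟨_, rfl⟩
  have hδ0 : 0 < δ := by
    rw [hδ]
    refine mul_pos hκ (Finset.prod_pos fun q _ => ?_)
    have h1 := SqL_two q
    have h2 : 1 / (nm q : ℝ) ≤ 1 / 2 := one_div_le_one_div_of_le (by norm_num) h1
    linarith
  have hB : HasDens (SqB S Q) δ := by
    have h1 := hdens Q ∅ (Finset.disjoint_empty_right _) hQS (by simp)
    have h2 : {I : Ideal (𝓞 F) | Cop S I ∧ (∀ q ∈ Q, ¬ I ≤ q.asIdeal) ∧ ∀ q ∈ (∅ : Finset (Prm F)), Res e g q I} = SqB S Q := by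
      ext I
      simp [SqB]
    rw [h2, Finset.prod_empty, mul_one, ← hδ] at h1
    exact h1
  have hC : HasDens {I : Ideal (𝓞 F) | Cop S I} κ := by
    have h1 := hdens ∅ ∅ (Finset.disjoint_empty_right _) (by simp) (by simp)
    have h2 : {I : Ideal (𝓞 F) | Cop S I ∧ (∀ q ∈ (∅ : Finset (Prm F)), ¬ I ≤ q.asIdeal) ∧ ∀ q ∈ (∅ : Finset (Prm F)), Res e g q I} =
        {I : Ideal (𝓞 F) | Cop S I} := by
      ext I
      simp
    rw [h2, Finset.prod_empty, Finset.prod_empty, mul_one, mul_one] at h1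
    exact h1
  have a1 := tup_asymp (ι := ι) (fun _ => SqB S Q) (fun _ => δ) (fun _ => hB)
  have a2 := tup_asymp (ι := ι) (fun _ => {I : Ideal (𝓞 F) | Cop S I}) (fun _ => κ) (fun _ => hC)
  obtain ⟨D, hDdef⟩ : ∃ D : ℝ, D = (∏ _i : ι, δ) / ((Fintype.card ι - 1).factorial : ℝ) := ⟨_, rfl⟩
  obtain ⟨M, hMdef⟩ : ∃ M : ℝ, M = (∏ _i : ι, κ) / ((Fintype.card ι - 1).factorial : ℝ) := ⟨_, rfl⟩
  have hD : 0 < D := by
    rw [hDdef]
    exact div_pos (Finset.prod_pos fun _ _ => hδ0) (by exact_mod_cast Nat.factorial_pos _)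
  have hM : 0 < M := by
    rw [hMdef]
    exact div_pos (Finset.prod_pos fun _ _ => hκ) (by exact_mod_cast Nat.factorial_pos _)
  rw [← hDdef] at a1
  rw [← hMdef] at a2
  have hfinP : ∀ X : ℝ, {q : Prm F | q ∉ A0 ∧ q ∉ S ∧ (nm q : ℝ) ^ 2 ≤ X}.Finite := by
    intro X
    refine (SqL_fin (F := F) X).subset ?_
    rintro q ⟨-, -, hq⟩
    have h1 := SqL_two q
    show (nm q : ℝ) ≤ X
    nlinarith
  have hmono : Monotone (fun Y : ℝ => ((tup (fun _ : ι => SqB S Q) Y).ncard : ℝ)) := by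
    intro Y Y' h
    show ((tup (fun _ : ι => SqB S Q) Y).ncard : ℝ) ≤ ((tup (fun _ : ι => SqB S Q) Y').ncard : ℝ)
    exact_mod_cast Set.ncard_le_ncard (tup_mono _ h) (tup_finite _ _)
  have b1 := SqL_real (fun q : Prm F => (nm q : ℝ)) SqL_two (SqL_summable F) hmono (fun _ => Nat.cast_nonneg _) hD a1 hK0.le
    (τ := 1 / (8 * K)) (by
      refine le_of_eq ?_
      field_simp
      norm_num) A0 hA0' (fun X => (hfinP X).toFinset) (fun X q hq => by
      rw [Set.Finite.mem_toFinset] at hq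
      exact ⟨hq.1, hq.2.2⟩)
  refine ⟨D / (4 * (M + 1)), by positivity, ?_⟩
  filter_upwards [b1, a1.eventually (lt_mem_nhds (show 3 / 4 * D < D by linarith)), a2.eventually (gt_mem_nhds (show M < M + 1 by linarith)),
    eventually_ge_atTop (3 : ℝ)] with X c1 c2 c3 hX
  have hL : 0 < X * Real.log X ^ (Fintype.card ι - 1) := by
    have h1 : 0 < Real.log X := Real.log_pos (by linarith)
    have h2 : 0 < X := by linarith
    positivity
  rw [lt_div_iff₀ hL] at c2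
  rw [div_lt_iff₀ hL] at c3
  -- count
  have d1 := SqL_count (ι := ι) (S := S) (Q := Q) X (hfinP X).toFinset (fun q hqS hqQ hqX => by
    rw [Set.Finite.mem_toFinset]
    refine ⟨fun h0 => hqQ ?_, hqS, hqX⟩
    rw [hQ, Finset.mem_sdiff]
    exact ⟨h0, hqS⟩)
  have d2 : (tup (fun _ : ι => SqB S Q) X).ncard ≤
      Set.ncard {T : ι → Ideal (𝓞 F) | T ∈ TT ι S X ∧ SqT T} +
        Set.ncard {T : ι → Ideal (𝓞 F) | T ∈ tup (fun _ => SqB S Q) X ∧ ¬ SqT T} := by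
    refine le_trans (Set.ncard_le_ncard ?_ ?_) (Set.ncard_union_le _ _)
    · intro T hT
      by_cases h : SqT T
      · exact Or.inl ⟨⟨fun i => ⟨(hT.1 i).1.1, (hT.1 i).2⟩, hT.2⟩, h⟩
      · exact Or.inr ⟨hT, h⟩
    · exact ((tup_finite _ X).subset fun T hT => hT.1).union ((tup_finite _ X).subset fun T hT => hT.1)
  have d3 : ((tup (fun _ : ι => SqB S Q) X).ncard : ℝ) ≤
      (Set.ncard {T : ι → Ideal (𝓞 F) | T ∈ TT ι S X ∧ SqT T} : ℝ) +
        (Set.ncard {T : ι → Ideal (𝓞 F) | T ∈ tup (fun _ => SqB S Q) X ∧ ¬ SqT T} : ℝ) := by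
    exact_mod_cast d2
  rw [← hK] at d1
  have d4 : ((TT ι S X).ncard : ℝ) < (M + 1) * (X * Real.log X ^ (Fintype.card ι - 1)) := c3
  have d5 : D / (4 * (M + 1)) * ((TT ι S X).ncard : ℝ) ≤ D / 4 * (X * Real.log X ^ (Fintype.card ι - 1)) := by
    calc D / (4 * (M + 1)) * ((TT ι S X).ncard : ℝ) ≤ D / (4 * (M + 1)) * ((M + 1) * (X * Real.log X ^ (Fintype.card ι - 1))) :=
          mul_le_mul_of_nonneg_left d4.le (by positivity)
      _ = D / 4 * (X * Real.log X ^ (Fintype.card ι - 1)) := by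
          field_simp
  linarith

end StarkR
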